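import Pool.Agent.R618.SC.Defs

set_option autoImplicit false

/-!
PSI: `∑_{j=1}^{n-1} q^j/(1-q^j)^2 ≡ -(n^2-1)/12` modulo `Φ_n(q)`.
-/

namespace Pool.Agent.R618.SC

open Finset Polynomial Pool.Agent.R439

namespace PSI

theorem geom (N : ℕ) (x : K) : (1 - x) * ∑ s ∈ range N, x ^ s = 1 - x ^ N := by
  induction N with
  | zero => simp
  | succ N ih => rw [sum_range_succ, mul_add, ih]; ring

theorem geom1 (N : ℕ) (x : K) : (1 - x) * ∑ s ∈ range N, (s : K) * x ^ s =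
    ∑ s ∈ range N, x ^ s - 1 - ((N : K) - 1) * x ^ N := by
  induction N with
  | zero => simp
  | succ N ih => rw [sum_range_succ, sum_range_succ, mul_add, ih]; push_cast; ring

variable {n : ℕ} [NeZero n]

theorem zpn (e : ℤ) : EQ n 1 ((q ^ e) ^ n) 1 := by
  have := Q_eq (n := n) e
  rwa [mul_comm, zpow_mul, zpow_natCast] at this

theorem geom_zero {e : ℤ} (he : ¬ (n : ℤ) ∣ e) : EQ n 1 (∑ s ∈ range n, (q ^ e) ^ s) 0 := by
  apply EQ.of_I
  have hU := U_one_sub (n := n) he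
  apply I.cancel hU.1 hU.2.2
  rw [geom]
  have := (zpn (n := n) e).2.2.neg
  rwa [neg_sub] at this

/-- `∑ s q^(e s)` -/
noncomputable def SSp (n : ℕ) (e : ℤ) : K := ∑ s ∈ range n, (s : K) * (q ^ e) ^ s

theorem SS_eq {e : ℤ} (he : ¬ (n : ℤ) ∣ e) : EQ n 1 (SSp n e) (-(n : K) / (1 - q ^ e)) := by
  have hU := U_one_sub (n := n) he
  have h1 : SSp n e = (∑ s ∈ range n, (q ^ e) ^ s - 1 - ((n : K) - 1) * (q ^ e) ^ n) / (1 - q ^ e) := by
    rw [eq_div_iff hU.1, mul_comm]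
    exact geom1 n _
  rw [h1]
  have h2 : EQ n 1 (∑ s ∈ range n, (q ^ e) ^ s - 1 - ((n : K) - 1) * (q ^ e) ^ n)
      (0 - 1 - ((n : K) - 1) * 1) :=
    ((geom_zero he).sub (EQ.refl (one_mem _))).sub
      ((EQ.refl (sub_mem (natCast_mem _ _) (one_mem _))).mul (zpn e))
  have h3 : (0 - 1 - ((n : K) - 1) * 1) = -(n : K) := by ring
  rw [h3] at h2
  exact h2.div one_pos (EQ.refl hU.2.1) hU

theorem nU : U n (n : K) := by
  have := U_rat (n := n) (c := (n : ℚ)) (by exact_mod_cast (NeZero.ne n))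
  simpa using this

theorem psi_eq {j : ℕ} (hj : ¬ (n : ℤ) ∣ (j : ℤ)) :
    EQ n 1 (psi j) (-(SSp n j * SSp n (-j)) / (n : K) ^ 2) := by
  have hj' : ¬ (n : ℤ) ∣ (-(j : ℤ)) := by rwa [dvd_neg]
  have h1 := (SS_eq hj).mul (SS_eq hj')
  have h2 := (h1.neg).div one_pos (EQ.refl ((nU (n := n)).pow 2).2.1) ((?_ : U n _))
  · have h3 : psi j = -(-(n : K) / (1 - q ^ (j : ℤ)) * (-(n : K) / (1 - q ^ (-(j : ℤ))))) /
        (n : K) ^ 2 := by
      have e1 := (nU (n := n)).1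
      have e2 := (U_one_sub (n := n) hj).1
      have e3 := (U_one_sub (n := n) hj').1
      rw [zpow_natCast] at e2
      rw [zpow_neg, zpow_natCast] at e3
      rw [psi, zpow_neg, zpow_natCast]
      have e4 : q ^ j ≠ 0 := pow_ne_zero _ q_ne
      have e5 : (1 - (q ^ j)⁻¹) = -((1 - q ^ j) / q ^ j) := by field_simp; ring
      rw [e5]
      field_simp
    rw [h3]
    exact h2.symm
  · exact (nU (n := n)).pow 2

theorem sum_all : EQ n 1 (∑ j ∈ range n, SSp n j * SSp n (-j)) ((n : K) * ∑ s ∈ range n, (s : K) ^ 2) := by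
  have h1 : ∑ j ∈ range n, SSp n j * SSp n (-j) =
      ∑ s ∈ range n, ∑ t ∈ range n, (s : K) * t * ∑ j ∈ range n, (q ^ ((s : ℤ) - t)) ^ j := by
    have e1 : ∀ j ∈ range n, SSp n j * SSp n (-j) =
        ∑ s ∈ range n, ∑ t ∈ range n, (s : K) * t * (q ^ ((s : ℤ) - t)) ^ j := by
      intro j _
      rw [SSp, SSp, sum_mul_sum]
      refine sum_congr rfl fun s _ ↦ sum_congr rfl fun t _ ↦ ?_
      have e2 : (q ^ ((s : ℤ) - t)) ^ j = (q ^ (j : ℤ)) ^ s * (q ^ (-(j : ℤ))) ^ t := by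
        rw [← zpow_natCast, ← zpow_mul, ← zpow_natCast (q ^ (j : ℤ)), ← zpow_mul,
          ← zpow_natCast (q ^ (-(j : ℤ))), ← zpow_mul, ← zpow_add₀ q_ne]
        congr 1; ring
      rw [e2]; ring
    rw [sum_congr rfl e1, sum_comm]
    refine sum_congr rfl fun s _ ↦ ?_
    rw [sum_comm]
    refine sum_congr rfl fun t _ ↦ ?_
    rw [mul_sum]
  rw [h1, mul_sum]
  refine EQ.sum fun s hs ↦ ?_
  have h2 : (n : K) * (s : K) ^ 2 = ∑ t ∈ range n, if t = s then (n : K) * (s : K) ^ 2 else 0 := by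
    rw [sum_ite_eq' (range n) s, if_pos hs]
  rw [h2]
  refine EQ.sum fun t ht ↦ ?_
  rw [mem_range] at hs ht
  split_ifs with h
  · subst h
    have : (t : K) * t * ∑ j ∈ range n, (q ^ ((t : ℤ) - t)) ^ j = (n : K) * (t : K) ^ 2 := by
      simp; ring
    rw [this]
    exact EQ.refl (mul_mem (natCast_mem _ _) (pow_mem (natCast_mem _ _) _))
  · have h3 : ¬ (n : ℤ) ∣ ((s : ℤ) - t) := by
      intro hd
      apply h
      have := Int.eq_zero_of_abs_lt_dvd hd (by rw [abs_lt]; omega)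
      omega
    have h4 := (EQ.refl (n := n) (k := 1)
      (mul_mem (natCast_mem (O n) s) (natCast_mem (O n) t))).mul (geom_zero h3)
    rwa [mul_zero] at h4

theorem sums (N : ℕ) : (∑ s ∈ range N, (s : K)) = (N : K) * (N - 1) / 2 ∧
    (∑ s ∈ range N, (s : K) ^ 2) = (N : K) * (N - 1) * (2 * N - 1) / 6 := by
  induction N with
  | zero => simp
  | succ N ih =>
    rw [sum_range_succ, sum_range_succ, ih.1, ih.2]
    push_cast
    constructor <;> ring

end PSI

open PSI in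
theorem psi_ : S_PSI := by
  intro n _
  have hn : 0 < n := Nat.pos_of_ne_zero (NeZero.ne n)
  have h1 : EQ n 1 (∑ j ∈ Ico 1 n, psi j) (∑ j ∈ Ico 1 n, -(SSp n j * SSp n (-j)) / (n : K) ^ 2) := by
    refine EQ.sum fun j hj ↦ psi_eq ?_
    rw [mem_Ico] at hj
    intro hd
    have := Nat.le_of_dvd (by omega) (Int.natCast_dvd_natCast.1 hd)
    omega
  have h2 : ∑ j ∈ Ico 1 n, -(SSp n j * SSp n (-j)) / (n : K) ^ 2 =
      -(∑ j ∈ range n, SSp n j * SSp n (-j) - SSp n 0 * SSp n 0) / (n : K) ^ 2 := by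
    have e : range n = insert 0 (Ico 1 n) := by
      ext x; simp only [mem_range, mem_insert, mem_Ico]; omega
    rw [e, sum_insert (by simp)]
    rw [← sum_div, sum_neg_distrib]
    simp
  have h3 : SSp n 0 = (n : K) * (n - 1) / 2 := by
    rw [← (sums n).1, SSp]
    simp
  have h4 := sum_all (n := n)
  rw [(sums n).2] at h4
  have h5 : EQ n 1 (SSp n 0 * SSp n 0) (SSp n 0 * SSp n 0) := by
    refine EQ.refl ?_
    have : SSp n 0 ∈ O n := sum_mem fun s _ ↦ mul_mem (natCast_mem _ _) (pow_mem (zpow_mem _) _)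
    exact mul_mem this this
  have h6 := ((h4.sub h5).neg).div one_pos (EQ.refl ((nU (n := n)).pow 2).2.1) ((nU (n := n)).pow 2)
  rw [← h2] at h6
  have h7 := h1.trans h6
  have hn0 := (nU (n := n)).1
  have h8 : -((n : K) * ((n : K) * (n - 1) * (2 * n - 1) / 6) - SSp n 0 * SSp n 0) / (n : K) ^ 2 =
      -(((n : K) ^ 2 - 1) / 12) := by
    rw [h3]
    field_simp
    ring
  rw [h8] at h7
  have h9 := h7.2.2
  rw [sub_neg_eq_add] at h9
  have := (J_nat_iff (d := n) (m := 1)).2 h9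
  exact_mod_cast this

end Pool.Agent.R618.SC
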