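import Pool.Agent.R618.SC.Defs

set_option autoImplicit false

/-!
MP_9a1728_nt, piece A: orders of the first sum.
-/

namespace Pool.Agent.R618.SC

open Finset Polynomial Pool.Agent.R439

namespace PieceA

/-- the factor `(1 - x q^m)(x - q^m)` -/
noncomputable def fa (x : K) (m : ℕ) : K := (1 - x * q ^ m) * (x - q ^ m)

/-- the same factor as a polynomial in `x` -/
noncomputable def fp (m : ℕ) : K[X] := (1 - C (q ^ m) * X) * (X - C (q ^ m))

theorem eval_fp (x : K) (m : ℕ) : (fp m).eval x = fa x m := by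
  simp only [fp, fa, eval_mul, eval_sub, eval_one, eval_C, eval_X]
  ring

/-- the polynomials `p_k` -/
noncomputable def pk (n k : ℕ) : K[X] :=
  (∏ i ∈ range k, fp (4 * i + 1)) * ∏ j ∈ Ico k (n - 1), fp (4 * (j + 1))

/-- the common denominator -/
noncomputable def Dt (n : ℕ) (x : K) : K := ∏ j ∈ range (n - 1), fa x (4 * (j + 1))

theorem poch_pair {x : K} (hx : x ≠ 0) (c k : ℕ) :
    ∏ i ∈ range k, fa x (4 * i + c) =
      x ^ k * (poch (x * q ^ c) (q ^ 4) k * poch (q ^ c / x) (q ^ 4) k) := by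
  rw [poch, poch, ← prod_mul_distrib]
  have h : x ^ k = ∏ _i ∈ range k, x := by rw [prod_const, card_range]
  rw [h, ← prod_mul_distrib]
  refine prod_congr rfl fun i _ => ?_
  rw [fa, ← pow_mul, pow_add]
  field_simp

theorem pr_eq {x : K} (hx : x ≠ 0) (k : ℕ) :
    pr x k = (∏ i ∈ range k, fa x (4 * i + 1)) / ∏ i ∈ range k, fa x (4 * (i + 1)) := by
  have h1 := poch_pair hx 1 k
  have h4 := poch_pair hx 4 k
  have e4 : ∏ i ∈ range k, fa x (4 * (i + 1)) = ∏ i ∈ range k, fa x (4 * i + 4) :=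
    prod_congr rfl fun i _ => by rw [mul_add, mul_one]
  rw [e4, h1, h4, mul_div_mul_left _ _ (pow_ne_zero _ hx), pr, pow_one]

theorem eval_pk {x : K} (hx : x ≠ 0) {n k : ℕ} (hk : k < n)
    (hne : ∀ j < n - 1, fa x (4 * (j + 1)) ≠ 0) :
    (pk n k).eval x = Dt n x * pr x k := by
  have hkn : k ≤ n - 1 := by omega
  have h0 : (∏ i ∈ range k, fa x (4 * (i + 1))) ≠ 0 :=
    prod_ne_zero_iff.2 fun i hi => hne i (lt_of_lt_of_le (mem_range.1 hi) hkn)
  rw [pk, eval_mul, eval_prod, eval_prod, Dt, ← prod_range_mul_prod_Ico _ hkn, pr_eq hx]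
  simp only [eval_fp]
  field_simp

section coeffs

variable {d : ℕ} [NeZero d]

theorem cm_mul {p r : K[X]} (hp : ∀ i, p.coeff i ∈ O d) (hr : ∀ i, r.coeff i ∈ O d) (i : ℕ) :
    (p * r).coeff i ∈ O d := by
  rw [coeff_mul]
  exact sum_mem fun x _ => mul_mem (hp _) (hr _)

theorem cm_prod {s : Finset ℕ} {f : ℕ → K[X]} (h : ∀ j ∈ s, ∀ i, (f j).coeff i ∈ O d) :
    ∀ i, (∏ j ∈ s, f j).coeff i ∈ O d := by
  classical
  induction s using Finset.induction_on with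
  | empty =>
    intro i
    rw [prod_empty, coeff_one]
    split_ifs
    · exact one_mem _
    · exact zero_mem _
  | insert a s ha ih =>
    rw [prod_insert ha]
    exact cm_mul (h a (mem_insert_self _ _)) (ih fun j hj => h j (mem_insert_of_mem hj))

theorem cm_fp (m : ℕ) : ∀ i, (fp m).coeff i ∈ O d := by
  have hC : ∀ i, (C (q ^ m) : K[X]).coeff i ∈ O d := by
    intro i
    rw [coeff_C]
    split_ifs
    · exact pow_mem' _
    · exact zero_mem _
  have hX : ∀ i, (X : K[X]).coeff i ∈ O d := by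
    intro i
    rw [coeff_X]
    split_ifs
    · exact one_mem _
    · exact zero_mem _
  have h1 : ∀ i, (1 : K[X]).coeff i ∈ O d := by
    intro i
    rw [coeff_one]
    split_ifs
    · exact one_mem _
    · exact zero_mem _
  refine cm_mul (fun i => ?_) (fun i => ?_)
  · rw [coeff_sub]
    exact sub_mem (h1 i) (cm_mul hC hX i)
  · rw [coeff_sub]
    exact sub_mem (hX i) (hC i)

theorem cm_pk (n k : ℕ) : ∀ i, (pk n k).coeff i ∈ O d :=
  cm_mul (cm_prod fun _ _ => cm_fp _) (cm_prod fun _ _ => cm_fp _)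

end coeffs

section orders

variable {d : ℕ} [NeZero d]

/-- order of the factor at a node -/
theorem E_fa {e : ℤ} {j : ℕ} (hd : d % 2 = 1) (he : e = 0 ∨ e % 2 = 1) :
    E d (if d ∣ j + 1 then 2 else 0) (fa (q ^ ((d : ℤ) * e)) (4 * (j + 1))) := by
  have hcop : IsCoprime (d : ℤ) 4 := by
    have : Nat.Coprime d 4 := by
      have h2 : Nat.Coprime d 2 := by
        rw [Nat.coprime_comm, Nat.coprime_two_left]
        exact Nat.odd_iff.2 hd
      have : (4 : ℕ) = 2 ^ 2 := by norm_num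
      rw [this]
      exact Nat.Coprime.pow_right 2 h2
    exact_mod_cast Nat.isCoprime_iff_coprime.2 this
  have e1 : fa (q ^ ((d : ℤ) * e)) (4 * (j + 1)) =
      (1 - q ^ ((d : ℤ) * e + 4 * ((j : ℤ) + 1))) *
        (q ^ ((d : ℤ) * e) * (1 - q ^ (4 * ((j : ℤ) + 1) - (d : ℤ) * e))) := by
    have h1 : (q : K) ^ (4 * (j + 1)) = q ^ (4 * ((j : ℤ) + 1)) := by
      rw [← zpow_natCast]; push_cast; rfl
    have hq0 : (q : K) ^ ((d : ℤ) * e) ≠ 0 := zpow_ne_zero _ q_ne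
    rw [fa, h1, zpow_add₀ q_ne ((d : ℤ) * e), zpow_sub₀ q_ne (4 * ((j : ℤ) + 1)),
      mul_sub (q ^ ((d : ℤ) * e)) 1, mul_one, mul_div_cancel₀ _ hq0]
  rw [e1]
  have hdvd : ∀ s : ℤ, (d : ℤ) ∣ 4 * ((j : ℤ) + 1) + (d : ℤ) * s ↔ d ∣ j + 1 := by
    intro s
    rw [← Int.natCast_dvd_natCast]
    push_cast
    constructor
    · intro h
      have h' : (d : ℤ) ∣ 4 * ((j : ℤ) + 1) := by
        have := dvd_sub h (dvd_mul_right (d : ℤ) s)
        rwa [add_sub_cancel_right] at this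
      exact hcop.dvd_of_dvd_mul_left h'
    · intro h
      exact dvd_add (h.mul_left _) (dvd_mul_right _ _)
  have hq : E d 0 (q ^ ((d : ℤ) * e)) := E_q _
  by_cases hj : d ∣ j + 1
  · rw [if_pos hj]
    obtain ⟨j', hj'⟩ := hj
    have hj'0 : j' ≠ 0 := by rintro rfl; omega
    have hj2 : (j : ℤ) + 1 = d * j' := by exact_mod_cast hj'
    have n1 : e + 4 * (j' : ℤ) ≠ 0 := by omega
    have n2 : 4 * (j' : ℤ) - e ≠ 0 := by omega
    have h1 : E d 1 (1 - q ^ ((d : ℤ) * e + 4 * ((j : ℤ) + 1))) := by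
      have : (d : ℤ) * e + 4 * ((j : ℤ) + 1) = d * (e + 4 * j') := by rw [hj2]; ring
      rw [this]; exact E_one_sub_mul n1
    have h2 : E d 1 (1 - q ^ (4 * ((j : ℤ) + 1) - (d : ℤ) * e)) := by
      have : 4 * ((j : ℤ) + 1) - (d : ℤ) * e = d * (4 * j' - e) := by rw [hj2]; ring
      rw [this]; exact E_one_sub_mul n2
    exact (h1.mul (hq.mul h2)).of_eq (by norm_num)
  · rw [if_neg hj]
    have h1 : E d 0 (1 - q ^ ((d : ℤ) * e + 4 * ((j : ℤ) + 1))) := by
      apply E_one_sub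
      rw [add_comm, hdvd e]; exact hj
    have h2 : E d 0 (1 - q ^ (4 * ((j : ℤ) + 1) - (d : ℤ) * e)) := by
      apply E_one_sub
      have : 4 * ((j : ℤ) + 1) - (d : ℤ) * e = 4 * ((j : ℤ) + 1) + (d : ℤ) * (-e) := by ring
      rw [this, hdvd]; exact hj
    exact (h1.mul (hq.mul h2)).of_eq (by norm_num)

theorem E_Dt {e : ℤ} {N : ℕ} (hN : 0 < N) (hd : d % 2 = 1) (he : e = 0 ∨ e % 2 = 1) :
    E d (2 * ((N : ℤ) - 1)) (Dt (N * d) (q ^ ((d : ℤ) * e))) := by
  have h := E.prod (s := range (N * d - 1)) (f := fun j => fa (q ^ ((d : ℤ) * e)) (4 * (j + 1)))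
    (e := fun j => if d ∣ j + 1 then 2 else 0) fun j _ => E_fa (d := d) (j := j) hd he
  refine E.of_eq ?_ h
  rw [← sum_filter, sum_const, Nat.card_multiples]
  have hd0 : 0 < d := Nat.pos_of_ne_zero (NeZero.ne d)
  have : (N * d - 1) / d = N - 1 := by
    obtain ⟨M, rfl⟩ : ∃ M, N = M + 1 := ⟨N - 1, by omega⟩
    have e1 : (M + 1) * d - 1 = (d - 1) + d * M := by
      rw [Nat.add_mul, one_mul, Nat.mul_comm M d]; omega
    rw [e1, Nat.add_mul_div_left _ _ hd0, Nat.div_eq_of_lt (by omega)]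
    omega
  rw [this, nsmul_eq_mul, Nat.cast_sub (by omega)]
  push_cast; ring

theorem fa_ne {e : ℤ} {j : ℕ} (hd : d % 2 = 1) (he : e = 0 ∨ e % 2 = 1) :
    fa (q ^ ((d : ℤ) * e)) (4 * (j + 1)) ≠ 0 := (E_fa (d := d) hd he).ne

end orders

/-! ### symmetries -/

theorem pr_inv (a : K) (k : ℕ) : pr a⁻¹ k = pr a k := by
  rw [pr, pr, div_inv_eq_mul, div_inv_eq_mul, inv_mul_eq_div, inv_mul_eq_div,
    mul_comm (poch (q / a) _ _), mul_comm (poch (q ^ 4 / a) _ _), mul_comm q a,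
    mul_comm (q ^ 4) a]

theorem FA_inv (n : ℕ) (a b : K) : FA n a⁻¹ b = FA n a b := by
  rw [FA, FA]
  exact sum_congr rfl fun k _ => by rw [pr_inv]

theorem FA_comm (n : ℕ) (a b : K) : FA n a b = FA n b a := by
  rw [FA, FA]
  exact sum_congr rfl fun k _ => by ring

/-! ### nodes -/

/-- the nodes -/
def nd (r t : ℤ) : ℤ := if 0 < t then 4 * t - r else if t < 0 then 4 * t + r else 0

/-- the set of nodes -/
noncomputable def ZZ (r : ℤ) (N : ℕ) : Finset ℤ := (Icc (-(N : ℤ)) N).image (nd r)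

theorem ZZ_card {r : ℤ} (hr : r = 1 ∨ r = 3) (N : ℕ) : ((ZZ r N).card : ℤ) - 1 = 2 * N := by
  rw [ZZ, card_image_of_injective]
  · rw [Int.card_Icc]; omega
  · intro s t h
    unfold nd at h
    rcases hr with rfl | rfl <;> split_ifs at h <;> omega

theorem zero_mem_ZZ (r : ℤ) (N : ℕ) : (0 : ℤ) ∈ ZZ r N := by
  rw [ZZ, mem_image]
  exact ⟨0, by rw [mem_Icc]; omega, by simp [nd]⟩

theorem mem_ZZ {r : ℤ} {N : ℕ} {e : ℤ} (h : e ∈ ZZ r N) :
    e = 0 ∨ ∃ t : ℕ, t < N ∧ (e = 4 * t + 4 - r ∨ e = -(4 * t + 4 - r)) := by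
  rw [ZZ, mem_image] at h
  obtain ⟨t, ht, rfl⟩ := h
  rw [mem_Icc] at ht
  unfold nd
  split_ifs with h1 h2
  · exact Or.inr ⟨(t - 1).toNat, by omega, Or.inl (by omega)⟩
  · exact Or.inr ⟨(-t - 1).toNat, by omega, Or.inr (by omega)⟩
  · exact Or.inl rfl

theorem ZZ_odd {r : ℤ} (hr : r = 1 ∨ r = 3) {N : ℕ} {e : ℤ} (h : e ∈ ZZ r N) :
    e = 0 ∨ e % 2 = 1 := by
  rcases mem_ZZ h with h | ⟨t, _, h | h⟩
  · exact Or.inl h
  · right; omega
  · right; omega

/-- the value at a node by the sum of Jackson -/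
theorem jac_node (hJ : S_JAC) {d : ℕ} [NeZero d] (hd : d % 2 = 1) {f : ℤ}
    (hf : f = 0 ∨ f % 2 = 1) {m n : ℕ} (hm : m < n) :
    FA n (q ^ (4 * m + 1)) (q ^ ((d : ℤ) * f)) =
      (1 - q ^ (4 * m + 1)) / (1 - q) * gg (q ^ ((d : ℤ) * f)) m := by
  have hpar : ∀ i : ℕ, (d : ℤ) * f + (4 * (i : ℤ) + 4) ≠ 0 ∧ (d : ℤ) * f ≠ 4 * (i : ℤ) + 4 := by
    intro i
    rcases hf with rfl | hf
    · rw [mul_zero]; omega
    · have h1 : ((d : ℤ) * f) % 2 = 1 := by
        have h2 : (d : ℤ) % 2 = 1 := by omega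
        rw [Int.mul_emod, h2, hf]; rfl
      omega
  refine hJ (q ^ ((d : ℤ) * f)) m n (zpow_ne_zero _ q_ne) (fun i => ⟨fun h => ?_, fun h => ?_⟩) hm
  · have h1 : (q : K) ^ (4 * i + 4) = q ^ (4 * (i : ℤ) + 4) := by
      rw [← zpow_natCast]; push_cast; rfl
    rw [h1, ← zpow_add₀ q_ne] at h
    exact q_zpow_ne_one (hpar i).1 h
  · have h1 : (q : K) ^ (4 * i + 4) = q ^ (4 * (i : ℤ) + 4) := by
      rw [← zpow_natCast]; push_cast; rfl
    rw [h1] at h
    have h2 : (q : K) ^ ((d : ℤ) * f - (4 * (i : ℤ) + 4)) = 1 := by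
      rw [zpow_sub₀ q_ne, h, div_self (zpow_ne_zero _ q_ne)]
    exact q_zpow_ne_one (sub_ne_zero.2 (hpar i).2) h2

theorem q_node {d u m : ℕ} (hm : 4 * m + 1 = u * d) :
    (q : K) ^ (4 * m + 1) = q ^ ((d : ℤ) * u) := by
  rw [hm, ← zpow_natCast]
  congr 1
  push_cast; ring

theorem node_val (hJ : S_JAC) {d : ℕ} [NeZero d] (hd : d % 2 = 1) {f : ℤ}
    (hf : f = 0 ∨ f % 2 = 1) {e : ℤ} {u m n : ℕ} (hu : e = u ∨ e = -(u : ℤ))
    (hm : 4 * m + 1 = u * d) (hmn : m < n) :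
    FA n (q ^ ((d : ℤ) * e)) (q ^ ((d : ℤ) * f)) =
      (1 - q ^ (4 * m + 1)) / (1 - q) * gg (q ^ ((d : ℤ) * f)) m := by
  rw [← jac_node hJ hd hf hmn]
  rcases hu with rfl | rfl
  · rw [q_node hm]
  · rw [mul_neg, zpow_neg, FA_inv, q_node hm]

theorem E_node_fac {d : ℕ} [NeZero d] (hd : 1 < d) {u m : ℕ} (hu : u ≠ 0)
    (hm : 4 * m + 1 = u * d) : E d 1 ((1 - q ^ (4 * m + 1)) / (1 - q)) := by
  rw [q_node hm]
  exact ((E_one_sub_mul (by exact_mod_cast hu)).div (E_q1 hd)).of_eq (by norm_num)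

end PieceA

open PieceA in
/-- A: orders of the first sum. -/
theorem tA (hJ : S_JAC) (hI : S_INT) (h1 : S_ORD1) (h2 : S_ORD2) : S_A := by
  refine ⟨fun d N _ hd hN => ?_, fun d N _ hd hd1 hN => ?_⟩
  · have hodd : d % 2 = 1 := by omega
    have hd1 : 1 < d := by omega
    have hone : (1 : K) = q ^ ((d : ℤ) * 0) := by rw [mul_zero, zpow_zero]
    have key := (hI d (ZZ 1 N) (N * d) cf (pk (N * d)) (-1) (zero_mem_ZZ 1 N)
      (fun k _ => h1.1 d k hd) (fun k _ => cm_pk (N * d) k)).2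
    rw [ZZ_card (Or.inl rfl)] at key
    have hsum : ∀ e f : ℤ, (e = 0 ∨ e % 2 = 1) → (f = 0 ∨ f % 2 = 1) →
        ∑ k ∈ range (N * d), cf k * ((pk (N * d) k).eval (q ^ ((d : ℤ) * e)) *
          (pk (N * d) k).eval (q ^ ((d : ℤ) * f))) =
        Dt (N * d) (q ^ ((d : ℤ) * e)) * Dt (N * d) (q ^ ((d : ℤ) * f)) *
          FA (N * d) (q ^ ((d : ℤ) * e)) (q ^ ((d : ℤ) * f)) := by
      intro e f he hf
      rw [FA, mul_sum]
      refine sum_congr rfl fun k hk => ?_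
      rw [eval_pk (zpow_ne_zero _ q_ne) (mem_range.1 hk) (fun j _ => fa_ne hodd he),
        eval_pk (zpow_ne_zero _ q_ne) (mem_range.1 hk) (fun j _ => fa_ne hodd hf)]
      ring
    have hF : ∀ e ∈ ZZ 1 N, ∀ f ∈ ZZ 1 N, e ≠ 0 →
        J d 3 (FA (N * d) (q ^ ((d : ℤ) * e)) (q ^ ((d : ℤ) * f))) := by
      intro e he f hf he0
      obtain ⟨t, ht, hte⟩ := (mem_ZZ he).resolve_left he0
      have hfo := ZZ_odd (Or.inl rfl) hf
      have e3 : (4 * t + 3) * d = 4 * (t * d) + 3 * d := by ring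
      have hle : (t + 1) * d ≤ N * d := Nat.mul_le_mul_right d ht
      rw [Nat.add_mul, one_mul] at hle
      obtain ⟨m, hm⟩ : ∃ m, 4 * m + 1 = (4 * t + 3) * d :=
        ⟨((4 * t + 3) * d - 1) / 4, by rw [e3]; omega⟩
      have hmn : m < N * d := by
        rw [e3] at hm; omega
      rw [node_val hJ hodd hfo (u := 4 * t + 3) (by push_cast; omega) hm hmn]
      exact ((E_node_fac hd1 (by omega) hm).mul
        (h2.1 d t m f hd hm hfo)).J.of_eq (by norm_num)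
    have hc := key (fun e he f hf hef => by
      have heo := ZZ_odd (Or.inl rfl) he
      have hfo := ZZ_odd (Or.inl rfl) hf
      rw [hsum e f heo hfo]
      have hFF : J d 3 (FA (N * d) (q ^ ((d : ℤ) * e)) (q ^ ((d : ℤ) * f))) := by
        by_cases he0 : e = 0
        · rw [FA_comm]
          exact hF f hf e he (hef.resolve_left (fun h => h he0))
        · exact hF e he f hf he0
      exact ((((E_Dt hN hodd heo).mul (E_Dt hN hodd hfo)).J).mul hFF).of_eq (by ring))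
    rw [hone, hsum 0 0 (Or.inl rfl) (Or.inl rfl)] at hc
    have := J.cancel ((E_Dt (d := d) hN hodd (Or.inl rfl)).mul
      (E_Dt (d := d) hN hodd (Or.inl rfl))) hc
    rw [hone]
    exact this.of_eq (by ring)
  · have hodd : d % 2 = 1 := by omega
    have hone : (1 : K) = q ^ ((d : ℤ) * 0) := by rw [mul_zero, zpow_zero]
    have key := (hI d (ZZ 3 N) (N * d) (fun k => cf k * pr 1 k) (pk (N * d)) (-1)
      (zero_mem_ZZ 3 N)
      (fun k _ => (((h1.2 d k hd hd1).1).mul ((h1.2 d k hd hd1).2)).mono (by norm_num))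
      (fun k _ => cm_pk (N * d) k)).1
    rw [ZZ_card (Or.inr rfl)] at key
    have hsum : ∀ e : ℤ, (e = 0 ∨ e % 2 = 1) →
        ∑ k ∈ range (N * d), cf k * pr 1 k * (pk (N * d) k).eval (q ^ ((d : ℤ) * e)) =
        Dt (N * d) (q ^ ((d : ℤ) * e)) * FA (N * d) (q ^ ((d : ℤ) * e)) 1 := by
      intro e he
      rw [FA, mul_sum]
      refine sum_congr rfl fun k hk => ?_
      rw [eval_pk (zpow_ne_zero _ q_ne) (mem_range.1 hk) (fun j _ => fa_ne hodd he)]
      ring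
    have hF : ∀ e ∈ ZZ 3 N, e ≠ 0 → J d 1 (FA (N * d) (q ^ ((d : ℤ) * e)) 1) := by
      intro e he he0
      obtain ⟨t, ht, hte⟩ := (mem_ZZ he).resolve_left he0
      have e3 : (4 * t + 1) * d = 4 * (t * d) + d := by ring
      have hle : (t + 1) * d ≤ N * d := Nat.mul_le_mul_right d ht
      rw [Nat.add_mul, one_mul] at hle
      obtain ⟨m, hm⟩ : ∃ m, 4 * m + 1 = (4 * t + 1) * d :=
        ⟨((4 * t + 1) * d - 1) / 4, by rw [e3]; omega⟩
      have hmn : m < N * d := by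
        rw [e3] at hm; omega
      have hv := node_val hJ hodd (f := 0) (Or.inl rfl) (e := e) (u := 4 * t + 1)
        (by push_cast; omega) hm hmn
      rw [← hone] at hv
      rw [hv]
      exact ((E_node_fac hd1 (by omega) hm).mul
        (h2.2 d t m hd hd1 hm)).J.of_eq (by norm_num)
    have hc := key (fun e he he0 => by
      rw [hsum e (ZZ_odd (Or.inr rfl) he)]
      exact (((E_Dt hN hodd (ZZ_odd (Or.inr rfl) he)).J).mul (hF e he he0)).mono
        (by linarith))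
    have h0 := hsum 0 (Or.inl rfl)
    rw [← hone] at h0
    rw [h0] at hc
    have hE : E d (2 * ((N : ℤ) - 1)) (Dt (N * d) 1) := by
      have := E_Dt (d := d) hN hodd (e := 0) (Or.inl rfl)
      rwa [← hone] at this
    exact (J.cancel hE hc).of_eq (by ring)

end Pool.Agent.R618.SC
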