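import Pool.Agent.R618.SC.Defs

set_option autoImplicit false

/-!
Piece SC-AB0 of MP_9a1728_nt (project of helper618), by helper568.
-/

namespace Pool.Agent.R618.SC

open Finset Polynomial Pool.Agent.R439

section
variable {n : ℕ} [NeZero n]

theorem ab_key {c : K} (hc : c ∈ O n) :
    EQ n 2 ((1 - q ^ n * c) * (1 - c / q ^ n)) ((1 - c) * (1 - c)) := by
  have hQ : q ^ n ≠ 0 := pow_ne_zero _ q_ne
  have hQi : (q ^ n)⁻¹ ∈ O n := (U_qpow (n := n) n).2.2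
  have h1 : (1 - q ^ n * c) ∈ O n := sub_mem (one_mem _) (mul_mem (pow_mem' _) hc)
  have h2 : (1 - c / q ^ n) ∈ O n := by
    rw [div_eq_mul_inv]
    exact sub_mem (one_mem _) (mul_mem hc hQi)
  have h3 : (1 - c) ∈ O n := sub_mem (one_mem _) hc
  refine ⟨mul_mem h1 h2, mul_mem h3 h3, -(c * (q ^ n)⁻¹), neg_mem (mul_mem hc hQi), ?_⟩
  rw [w]
  field_simp
  ring

theorem ab_poch (e s k : ℕ) :
    EQ n 2 (poch (q ^ n * q ^ e) (q ^ s) k * poch (q ^ e / q ^ n) (q ^ s) k)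
      (poch (q ^ e) (q ^ s) k * poch (q ^ e) (q ^ s) k) := by
  unfold poch
  rw [← prod_mul_distrib, ← prod_mul_distrib]
  refine EQ.prod fun i _ => ?_
  have h := ab_key (n := n) (c := q ^ e * (q ^ s) ^ i) (mul_mem (pow_mem' _) (pow_mem (pow_mem' _) _))
  have e1 : q ^ n * q ^ e * (q ^ s) ^ i = q ^ n * (q ^ e * (q ^ s) ^ i) := by ring
  have e2 : q ^ e / q ^ n * (q ^ s) ^ i = q ^ e * (q ^ s) ^ i / q ^ n := by ring
  rw [e1, e2]
  exact h

theorem poch_mem (e s k : ℕ) : poch (q ^ e) (q ^ s) k ∈ O n := by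
  unfold poch
  exact prod_mem fun i _ => sub_mem (one_mem _) (mul_mem (pow_mem' _) (pow_mem (pow_mem' _) _))

/-- `(q^s;q^s)_k` is a unit for `k < n`, `n` prime to `s` -/
theorem poch_unit (s k : ℕ) (hs : Nat.Coprime n s) (hk : k < n) : U n (poch (q ^ s) (q ^ s) k) := by
  unfold poch
  refine U.prod fun i hi => ?_
  have h : U n (1 - q ^ (((s * (i + 1) : ℕ)) : ℤ)) := by
    apply U_one_sub
    rw [Int.natCast_dvd_natCast]
    intro h
    have h1 := hs.dvd_of_dvd_mul_left h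
    have h2 := Nat.le_of_dvd (Nat.succ_pos i) h1
    have := mem_range.1 hi
    omega
  have e : q ^ s * (q ^ s) ^ i = q ^ (((s * (i + 1) : ℕ)) : ℤ) := by
    rw [zpow_natCast]; ring
  rw [e]
  exact h

end

theorem cop4a (m : ℕ) : Nat.Coprime (4 * m + 1) 4 := by
  rw [Nat.coprime_comm]
  simp

theorem cop2a (m : ℕ) : Nat.Coprime (4 * m + 1) 2 :=
  Nat.coprime_two_right.2 ⟨2 * m, by ring⟩

section
variable {n : ℕ} [NeZero n]

theorem pr_eqa (hn : Nat.Coprime n 4) {k : ℕ} (hk : k < n) : EQ n 2 (pr (q ^ n) k) (pr 1 k) := by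
  have h1 := ab_poch (n := n) 1 4 k
  have h2 := ab_poch (n := n) 4 4 k
  rw [pow_one] at h1
  have hU : U n (poch (q ^ 4) (q ^ 4) k * poch (q ^ 4) (q ^ 4) k) :=
    (poch_unit 4 k hn hk).mul (poch_unit 4 k hn hk)
  have h3 := (h1.symm.div two_pos h2.symm hU).symm
  unfold pr
  rw [one_mul, div_one, one_mul, div_one]
  exact h3

theorem pr_one_mem (hn : Nat.Coprime n 4) {k : ℕ} (hk : k < n) : pr 1 k ∈ O n :=
  (pr_eqa hn hk).2.1

theorem gg_eq (hn : Nat.Coprime n 4) {k : ℕ} (hk : k < n) : EQ n 2 (gg (q ^ n) k) (gg 1 k) := by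
  have h1 := ab_poch (n := n) 2 4 k
  have h2 := ab_poch (n := n) 4 4 k
  have hU : U n (poch (q ^ 4) (q ^ 4) k * poch (q ^ 4) (q ^ 4) k) :=
    (poch_unit 4 k hn hk).mul (poch_unit 4 k hn hk)
  have h3 := (h1.symm.div two_pos h2.symm hU).symm
  unfold gg
  rw [one_mul, div_one, one_mul, div_one]
  exact h3

theorem tB_eq (hn : Nat.Coprime n 4) (hn2 : Nat.Coprime n 2) {k : ℕ} (hk : k < n) :
    EQ n 2 (tB (q ^ n) 1 k) (tB 1 1 k) := by
  have h1 := ab_poch (n := n) 1 2 k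
  rw [pow_one] at h1
  have hU : U n (poch (q ^ 2) (q ^ 2) k * poch (q ^ 2) (q ^ 2) k * poch (q ^ 4) (q ^ 4) k) :=
    ((poch_unit 2 k hn2 hk).mul (poch_unit 2 k hn2 hk)).mul (poch_unit 4 k hn hk)
  have h2 := h1.mul (EQ.refl (n := n) (k := 2) (poch_mem (n := n) 2 4 k))
  have h3 := (h2.div two_pos (EQ.refl hU.2.1) hU).mul
    (EQ.refl (n := n) (k := 2) (pow_mem' (n := n) (2 * k)))
  unfold tB
  simp only [one_mul, div_one]
  exact h3

end

/-- `cf k` is integral at `Φ_n`, `n = 4m+1`, `k < n` -/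
theorem cf_mem (m n : ℕ) [NeZero n] (hn : n = 4 * m + 1) (hm : 0 < m) {k : ℕ} (hk : k < n) :
    cf k ∈ O n := by
  have hc4 : Nat.Coprime n 4 := hn ▸ cop4a m
  have h1 : E n (((k + n - 1 - m) / n : ℕ) : ℤ) (poch (q ^ (1 : ℤ)) (q ^ 4) k) :=
    E_poch hc4 (by omega) ⟨1, by subst hn; push_cast; ring⟩ (by intro i _; omega)
  have h3 : E n (((k + n - 1 - 3 * m) / n : ℕ) : ℤ) (poch (q ^ (3 : ℤ)) (q ^ 4) k) :=
    E_poch hc4 (by omega) ⟨3, by subst hn; push_cast; ring⟩ (by intro i _; omega)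
  rw [zpow_one] at h1
  have e3 : q ^ (3 : ℤ) = q ^ 3 := by norm_cast
  rw [e3] at h3
  have h2 : J n 0 (poch (q ^ 2) (q ^ 4) k) := J_of_O (poch_mem 2 4 k)
  have h4 : E n 0 (poch (q ^ 4) (q ^ 4) k) := E_of_U (poch_unit 4 k hc4 hk)
  have hq1 : E n 0 (1 - q) := E_q1 (by omega)
  have h8 : J n 0 (1 - q ^ (8 * k + 1)) := J_of_O (sub_mem (one_mem _) (pow_mem' _))
  have hnum := (h8.divE hq1).mul (h1.J.mul h2)
  have hden := h4.mul h3
  have hall := (hnum.divE hden).mul (J_of_O (pow_mem' (n := n) (4 * k)))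
  have hle : (k + n - 1 - 3 * m) / n ≤ (k + n - 1 - m) / n := Nat.div_le_div_right (by omega)
  rw [← J_zero_iff]
  unfold cf
  refine J.mono ?_ hall
  have : (((k + n - 1 - 3 * m) / n : ℕ) : ℤ) ≤ (((k + n - 1 - m) / n : ℕ) : ℤ) := by
    exact_mod_cast hle
  linarith

theorem qpow_inj {a b : ℕ} (h : q ^ a = q ^ b) : a = b := by
  by_contra hne
  have h1 : q ^ ((a : ℤ) - b) = 1 := by
    rw [zpow_sub₀ q_ne, zpow_natCast, zpow_natCast, h, div_self (pow_ne_zero _ q_ne)]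
  exact q_zpow_ne_one (by omega) h1

theorem ab0 (h : S_JAC) : S_AB0 := by
  intro m n _ hn hm
  have hc4 : Nat.Coprime n 4 := hn ▸ cop4a m
  have hF1 : FA n (q ^ n) 1 = (1 - q ^ n) / (1 - q) * gg 1 m := by
    have := h 1 m n one_ne_zero (fun i => ⟨by rw [one_mul]; exact q_pow_ne_one (by omega),
      (q_pow_ne_one (by omega)).symm⟩) (by omega)
    rw [← hn] at this
    exact this
  have hF2 : FA n (q ^ n) (q ^ n) = (1 - q ^ n) / (1 - q) * gg (q ^ n) m := by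
    have := h (q ^ n) m n (pow_ne_zero _ q_ne) (fun i => ⟨by
      rw [← pow_add]; exact q_pow_ne_one (by omega), fun hh => by
      have := qpow_inj hh
      omega⟩) (by omega)
    rw [← hn] at this
    exact this
  have hkey : FA n 1 1 - (1 - q ^ n) / (1 - q) * (2 * gg 1 m - gg (q ^ n) m) =
      ∑ k ∈ range n, cf k * ((pr (q ^ n) k - pr 1 k) * (pr (q ^ n) k - pr 1 k)) := by
    have e : (1 - q ^ n) / (1 - q) * (2 * gg 1 m - gg (q ^ n) m) =
        2 * FA n (q ^ n) 1 - FA n (q ^ n) (q ^ n) := by rw [hF1, hF2]; ring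
    rw [e]
    unfold FA
    rw [mul_sum, ← sum_sub_distrib, ← sum_sub_distrib]
    refine sum_congr rfl fun k _ => ?_
    ring
  rw [hkey]
  have h4 : ((4 : ℕ) : ℤ) = 4 := rfl
  rw [← h4, J_nat_iff]
  refine I.sum fun k hk => ?_
  have hk' := mem_range.1 hk
  have hI := (pr_eqa hc4 hk').2.2
  exact (hI.mul hI).mulL (cf_mem m n hn hm hk')

theorem ab3 (h : S_AB0) (h2 : S_WHI1) : S_AB3 := by
  intro m n _ hn hm
  have hc4 : Nat.Coprime n 4 := hn ▸ cop4a m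
  have hc2 : Nat.Coprime n 2 := hn ▸ cop2a m
  have h0 := h m n hn hm
  have hB : FB n (q ^ n) 1 = q ^ (2 * m) * gg 1 m := by
    have := h2 1 m n one_ne_zero (fun i => ⟨by rw [one_mul]; exact q_pow_ne_one (by omega),
      (q_pow_ne_one (by omega)).symm⟩) (by omega)
    rw [← hn] at this
    exact this
  have hB2 : I n 2 (FB n (q ^ n) 1 - FB n 1 1) := by
    unfold FB
    exact (EQ.sum fun k hk => tB_eq hc4 hc2 (mem_range.1 hk)).2.2
  have hg : I n 2 (gg (q ^ n) m - gg 1 m) := (gg_eq hc4 (by omega)).2.2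
  have hq1 : U n (1 - q) := by
    have := U_one_sub (n := n) (e := 1) (by
      intro h
      have h1 : n ∣ 1 := by exact_mod_cast h
      have h2 := Nat.le_of_dvd one_pos h1
      omega)
    rwa [zpow_one] at this
  have hN : I n 1 ((1 - q ^ n) / (1 - q)) := ⟨(1 - q)⁻¹, hq1.2.2, by rw [w, pow_one, div_eq_mul_inv]⟩
  have e : q ^ (2 * m) * FA n 1 1 - (1 - q ^ n) / (1 - q) * FB n 1 1 =
      q ^ (2 * m) * (FA n 1 1 - (1 - q ^ n) / (1 - q) * (2 * gg 1 m - gg (q ^ n) m)) +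
      (1 - q ^ n) / (1 - q) * ((FB n (q ^ n) 1 - FB n 1 1) -
        q ^ (2 * m) * (gg (q ^ n) m - gg 1 m)) := by
    rw [hB]; ring
  rw [e]
  have h3 : ((3 : ℕ) : ℤ) = 3 := rfl
  have h4 : ((4 : ℕ) : ℤ) = 4 := rfl
  rw [← h4, J_nat_iff] at h0
  rw [← h3, J_nat_iff]
  refine ((h0.mono (by norm_num)).mulL (pow_mem' _)).add ?_
  exact hN.mul (hB2.sub (hg.mulL (pow_mem' _)))

end Pool.Agent.R618.SC
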