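import Pool.Agent.R618.SC.Exp

set_option autoImplicit false

/-!
MP_9a1728_nt, piece AB4: the comparison modulo the fourth power.
-/

namespace Pool.Agent.R618.SC

open Finset Polynomial Pool.Agent.R439 Exp

theorem ab4 (h1 : S_AB0) (h2 : S_EXP) (h3 : S_REFL) (h4 : S_PSI) : S_AB4 := by
  intro m n _ hn hm
  have a0 := h1 m n hn hm
  have a1 := h2 m n hn hm
  have a2 := h3 m n hn hm
  have a3 := h4 n
  set Q : K := q ^ n with hQ
  set B := FB n 1 1 with hB
  set S := ∑ k ∈ range (2 * m + 1), tB 1 1 k * LL k with hS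
  set T := ∑ k ∈ range (2 * m + 1), tB 1 1 k with hT
  set g := 2 * gg 1 m - gg Q m with hg
  set C : K := ((n : K) ^ 2 - 1) / 12 with hC
  have hQ0 : Q ≠ 0 := pow_ne_zero _ q_ne
  have hq1 : (1 - q : K) ≠ 0 := by
    have := one_sub_pow_ne (j := 1) one_ne_zero
    rwa [pow_one] at this
  have hn1 : 1 < n := by omega
  -- orders
  have hτ : J n 1 (1 - Q) := E_w.J
  have hqn : J n 1 ((1 - Q) / (1 - q)) := by
    have := (hτ.divE (E_q1 hn1))
    exact this.of_eq (by norm_num)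
  have hQinv : Q⁻¹ ∈ O n := by rw [hQ, ← inv_pow]; exact pow_mem q_inv_mem _
  have hLL : LL (2 * m) = ∑ j ∈ Ico 1 n, psi j := by
    unfold LL
    rw [hn]
    have : ∀ r : ℕ, ∑ i ∈ range r, (psi (2 * i + 1) + psi (2 * i + 2)) =
        ∑ j ∈ Ico 1 (2 * r + 1), psi j := by
      intro r
      induction r with
      | zero => simp
      | succ r ih =>
        rw [sum_range_succ, ih, show 2 * (r + 1) + 1 = (2 * r + 1) + 1 + 1 by ring,
          sum_Ico_succ_top (show 1 ≤ 2 * r + 1 + 1 by omega),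
          sum_Ico_succ_top (show 1 ≤ 2 * r + 1 by omega)]
        ring
    rw [this, show 2 * (2 * m) + 1 = 4 * m + 1 by ring]
  have hTO : T ∈ O n := by
    rw [hT]
    exact sum_mem fun k hk => O_tB m n hn hm k (by have := mem_range.1 hk; omega)
  have hBO : B ∈ O n := by
    rw [hB]
    unfold FB
    exact sum_mem fun k hk => O_tB m n hn hm k (mem_range.1 hk)
  have hBT : J n 3 (B - T) := by
    have e : B - T = ∑ k ∈ Ico (2 * m + 1) n, tB 1 1 k := by
      rw [hB, hT]
      unfold FB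
      rw [← sum_range_add_sum_Ico (fun k => tB 1 1 k) (show 2 * m + 1 ≤ n by omega)]
      ring
    rw [e]
    apply J.sum
    intro k hk
    rw [mem_Ico] at hk
    exact J3_tB m n hn hm k hk.2 (by omega)
  have hCO : C ∈ O n := by
    rw [hC, div_eq_mul_inv]
    have := natinv_mem (n := n) 12
    push_cast at this
    exact mul_mem (sub_mem (pow_mem (natCast_mem _ _) _) (one_mem _)) this
  have h2inv : (2 : K)⁻¹ ∈ O n := by
    have := natinv_mem (n := n) 2
    push_cast at this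
    exact this
  -- S ≡ -(C/2) B mod 1
  have hSB : J n 1 (S + C / 2 * B) := by
    have e : S + C / 2 * B = 2⁻¹ * ((2 * S - LL (2 * m) * T) +
        (∑ j ∈ Ico 1 n, psi j + C) * T + C * (B - T)) := by
      rw [hLL]
      have : (2 : K) ≠ 0 := two_ne_zero
      field_simp
      ring
    rw [e]
    exact ((a2.add (a3.mulR hTO)).add ((hBT.mono (by norm_num)).mulL hCO)).mulL h2inv
  have hSO : S ∈ O n := by
    rw [hS]
    apply sum_mem
    intro k hk
    have hk' := mem_range.1 hk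
    apply mul_mem (O_tB m n hn hm k (by omega))
    unfold LL
    apply sum_mem
    intro i hi
    have hi' := mem_range.1 hi
    have hdvd : ∀ j, 0 < j → j < n → ¬ n ∣ j := fun j h1 h2 h3 =>
      absurd (Nat.le_of_dvd h1 h3) (by omega)
    exact add_mem (psi_O n (hdvd _ (by omega) (by omega))) (psi_O n (hdvd _ (by omega) (by omega)))
  have e : q ^ (2 * m) * FA n 1 1 -
      (1 - Q) / (1 - q) * B * (1 + ((n : K) ^ 2 - 1) / 24 * (1 - Q) ^ 2) =
      q ^ (2 * m) * (FA n 1 1 - (1 - Q) / (1 - q) * g) +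
      (1 - Q) / (1 - q) * (q ^ (2 * m) * g - (B - (1 - Q) ^ 2 / Q * S)) -
      ((1 - Q) / (1 - q)) * ((1 - Q) * (1 - Q) * (S + C / 2 * B)) -
      ((1 - Q) / (1 - q)) * ((1 - Q) * (1 - Q) * (1 - Q) * (Q⁻¹ * S)) := by
    rw [hC]
    have : (2 : K) ≠ 0 := two_ne_zero
    have h12 : (12 : K) ≠ 0 := by norm_num
    have h24 : (24 : K) ≠ 0 := by norm_num
    field_simp
    ring
  rw [e]
  have t1 : J n 4 (q ^ (2 * m) * (FA n 1 1 - (1 - Q) / (1 - q) * g)) := a0.mulL (pow_mem' _)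
  have t2 : J n 4 ((1 - Q) / (1 - q) * (q ^ (2 * m) * g - (B - (1 - Q) ^ 2 / Q * S))) :=
    (hqn.mul a1).of_eq (by norm_num)
  have t3 : J n 4 (((1 - Q) / (1 - q)) * ((1 - Q) * (1 - Q) * (S + C / 2 * B))) :=
    (hqn.mul ((hτ.mul hτ).mul hSB)).of_eq (by norm_num)
  have t4 : J n 4 (((1 - Q) / (1 - q)) * ((1 - Q) * (1 - Q) * (1 - Q) * (Q⁻¹ * S))) :=
    (hqn.mul (((hτ.mul hτ).mul hτ).mulR (mul_mem hQinv hSO))).of_eq (by norm_num)
  exact ((t1.add t2).sub t3).sub t4

end Pool.Agent.R618.SC
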