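import Pool.Agent.R618.SC.Fin

set_option autoImplicit false

/-!
Assembly (for MP_9a1728_nt): from the orders of the two sums to the supercongruence.
-/

namespace Pool.Agent.R618.SC

open Finset Polynomial Pool.Agent.R439

section good

variable {p r : ℕ} [Fact p.Prime]

theorem good_gpz {a s M : ℕ} {δ : ℕ → ℕ} (ha : 0 < a)
    (h : ∀ i < M, ¬ p ^ (r + 1 + δ i) ∣ s * i + a) : Good p r (gpz a s M) (∑ i ∈ range M, δ i) :=
  Good.prod fun i hi => Good.gz (by omega) (h i (mem_range.1 hi))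

theorem good_gpz0 {a s M : ℕ} (ha : 0 < a)
    (h : ∀ i < M, ¬ p ^ (r + 1) ∣ s * i + a) : Good p r (gpz a s M) 0 := by
  have := good_gpz (p := p) (r := r) (δ := fun _ => 0) ha h
  simpa using this

theorem good_44 (hp2 : p ≠ 2) : Good p r (gpz 4 4 (p ^ r - 1)) 0 := by
  have hp : p.Prime := Fact.out
  refine good_gpz0 (by norm_num) fun i hi hd => ?_
  have h1 : 4 * i + 4 = 2 ^ 2 * (i + 1) := by ring
  rw [h1] at hd
  have hc : Nat.Coprime (p ^ (r + 1)) (2 ^ 2) :=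
    Nat.Coprime.pow _ _ ((Nat.coprime_primes hp Nat.prime_two).2 hp2)
  have h2 := Nat.le_of_dvd (Nat.succ_pos _) (hc.dvd_of_dvd_mul_left hd)
  have h3 : p ^ r ≤ p ^ (r + 1) := Nat.pow_le_pow_right hp.pos (by omega)
  omega

theorem good_22 (hp2 : p ≠ 2) : Good p r (gpz 2 2 (p ^ r - 1)) 0 := by
  have hp : p.Prime := Fact.out
  refine good_gpz0 (by norm_num) fun i hi hd => ?_
  have h1 : 2 * i + 2 = 2 * (i + 1) := by ring
  rw [h1] at hd
  have hc : Nat.Coprime (p ^ (r + 1)) 2 :=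
    Nat.Coprime.pow_left _ ((Nat.coprime_primes hp Nat.prime_two).2 hp2)
  have h2 := Nat.le_of_dvd (Nat.succ_pos _) (hc.dvd_of_dvd_mul_left hd)
  have h3 : p ^ r ≤ p ^ (r + 1) := Nat.pow_le_pow_right hp.pos (by omega)
  omega

theorem dvd_34 (hp2 : p ≠ 2) {i : ℕ} (hi : i < p ^ r - 1) (hd : p ^ (r + 1) ∣ 4 * i + 3) :
    4 * i + 3 = p ^ (r + 1) := by
  have hp : p.Prime := Fact.out
  obtain ⟨t, ht⟩ := hd
  have h3 : 3 ≤ p := by
    have := hp.two_le
    omega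
  have h4 : p ^ (r + 1) * t < p ^ r * 4 := by omega
  rw [pow_succ, mul_assoc] at h4
  have h5 := Nat.lt_of_mul_lt_mul_left h4
  have h6 : t < 2 := by
    by_contra h
    have : 3 * 2 ≤ p * t := Nat.mul_le_mul h3 (by omega)
    omega
  have h7 : t ≠ 0 := by rintro rfl; omega
  have h8 : t = 1 := by omega
  rw [ht, h8, mul_one]

theorem good_34 (hp2 : p ≠ 2) : Good p r (gpz 3 4 (p ^ r - 1)) 1 := by
  classical
  have hp : p.Prime := Fact.out
  have h := good_gpz (p := p) (r := r) (a := 3) (s := 4) (M := p ^ r - 1)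
    (δ := fun i => if 4 * i + 3 = p ^ (r + 1) then 1 else 0) (by norm_num) (fun i hi hd => by
      by_cases h : 4 * i + 3 = p ^ (r + 1)
      · rw [if_pos h, h] at hd
        have := Nat.le_of_dvd (pow_pos hp.pos _) hd
        have h2 := Nat.pow_lt_pow_right hp.one_lt (show r + 1 < r + 1 + 1 by omega)
        omega
      · rw [if_neg h] at hd
        exact h (dvd_34 hp2 hi hd))
  refine h.mono ?_
  rw [← card_filter, card_le_one]
  intro a ha b hb
  have h1 := (mem_filter.1 ha).2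
  have h2 := (mem_filter.1 hb).2
  omega

theorem good_34' (hp2 : p ≠ 2) (h4 : p ^ (r + 1) % 4 ≠ 3) : Good p r (gpz 3 4 (p ^ r - 1)) 0 := by
  refine good_gpz0 (by norm_num) fun i hi hd => ?_
  have := dvd_34 hp2 hi hd
  omega

theorem good_WA (hp2 : p ≠ 2) : Good p r (WA (p ^ r - 1)) 1 :=
  (((good_44 hp2).pow 5).mul (good_34 hp2)).mono (by norm_num)

theorem good_WA' (hp2 : p ≠ 2) (h4 : p ^ (r + 1) % 4 ≠ 3) : Good p r (WA (p ^ r - 1)) 0 :=
  (((good_44 hp2).pow 5).mul (good_34' hp2 h4)).mono (by norm_num)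

theorem good_WB (hp2 : p ≠ 2) : Good p r (WB (p ^ r - 1)) 0 :=
  (((good_22 hp2).pow 2).mul (good_44 hp2)).mono (by norm_num)

end good

theorem E_brn {d n : ℕ} [NeZero d] (hd : 1 < d) (hn : 0 < n) (h : d ∣ n) :
    E d 1 ((1 - q ^ n) / (1 - q)) := by
  obtain ⟨t, rfl⟩ := h
  have ht : t ≠ 0 := by rintro rfl; simp at hn
  have h1 := E_one_sub_mul (d := d) (t := (t : ℤ)) (by exact_mod_cast ht)
  have h2 : (q : K) ^ (((d : ℤ)) * (t : ℤ)) = q ^ (d * t) := by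
    rw [← zpow_natCast]; push_cast; rfl
  rw [h2] at h1
  exact (h1.div (E_q1 hd)).of_eq (by norm_num)

theorem pow_mod4 {p : ℕ} (hp : p % 4 = 3) (s : ℕ) : p ^ s % 4 = if s % 2 = 1 then 3 else 1 := by
  induction s with
  | zero => simp
  | succ s ih =>
    rw [pow_succ, Nat.mul_mod, ih, hp]
    rcases Nat.mod_two_eq_zero_or_one s with h | h
    · rw [if_neg (by omega), if_pos (by omega)]
    · rw [if_pos h, if_neg (by omega)]

theorem pow_mod4' {p : ℕ} (hp : p % 4 = 1) (s : ℕ) : p ^ s % 4 = 1 := by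
  induction s with
  | zero => simp
  | succ s ih => rw [pow_succ, Nat.mul_mod, ih, hp]

theorem sum_mod2 (r : ℕ) : ∑ s ∈ Icc 1 r, s % 2 = (r + 1) / 2 := by
  induction r with
  | zero => simp
  | succ r ih => rw [sum_Icc_succ_top (by omega), ih]; omega

section cases

variable {p r : ℕ} [hpf : Fact p.Prime]

theorem ordA3 (hA : S_A) {s : ℕ} (hs : s ≤ r) (h3 : p ^ s % 4 = 3) [NeZero (p ^ s)] :
    J (p ^ s) 3 (FA (p ^ r) 1 1) := by
  have h := hA.1 (p ^ s) (p ^ (r - s)) h3 (pow_pos hpf.out.pos _)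
  rwa [← pow_add, Nat.sub_add_cancel hs] at h

theorem ordA1 (hA : S_A) {s : ℕ} (hs1 : 1 ≤ s) (hs : s ≤ r) (h1 : p ^ s % 4 = 1)
    [NeZero (p ^ s)] : J (p ^ s) 1 (FA (p ^ r) 1 1) := by
  have h := hA.2 (p ^ s) (p ^ (r - s)) h1 (one_lt_pow' hs1) (pow_pos hpf.out.pos _)
  rwa [← pow_add, Nat.sub_add_cancel hs] at h

theorem ordB3 (hB : S_B) {s : ℕ} (hs : s ≤ r) (h3 : p ^ s % 4 = 3) [NeZero (p ^ s)] :
    J (p ^ s) 2 (FB (p ^ r) 1 1) := by
  have h := hB.1 (p ^ s) (p ^ (r - s)) h3 (pow_pos hpf.out.pos _)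
  rwa [← pow_add, Nat.sub_add_cancel hs] at h

theorem ordB1 (hB : S_B) {s : ℕ} (hs1 : 1 ≤ s) (hs : s ≤ r) (h1 : p ^ s % 4 = 1)
    [NeZero (p ^ s)] : J (p ^ s) 0 (FB (p ^ r) 1 1) := by
  have h := hB.2 (p ^ s) (p ^ (r - s)) (by omega) (one_lt_pow' hs1) (pow_pos hpf.out.pos _)
  rwa [← pow_add, Nat.sub_add_cancel hs] at h

theorem ordN {s : ℕ} (hs1 : 1 ≤ s) (hs : s ≤ r) [NeZero (p ^ s)] :
    E (p ^ s) 1 ((1 - q ^ (p ^ r)) / (1 - q)) :=
  E_brn (one_lt_pow' hs1) (pow_pos hpf.out.pos _) (pow_dvd_pow p hs)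

theorem ez_C (a : ℤ) : ez (C a) = (a : K) := by
  have : (Polynomial.C a : ℤ[X]) = (a : ℤ[X]) := by simp
  rw [this, map_intCast]

/-- `p ≡ 1 mod 4` -/
theorem case1 (hA : S_A) (hB : S_B) (h4 : S_AB4) (hp4 : p % 4 = 1) (hr : 1 ≤ r) :
    ∃ u v : ℤ, ¬ (p : ℤ) ∣ v ∧ ∑ k ∈ range (p ^ r), tAq k - (p : ℚ) ^ r * ∑ k ∈ range (p ^ r), tBq k =
      (p : ℚ) ^ (r + 3) * (u / v) := by
  have hp : p.Prime := hpf.out
  have hp2 : p ≠ 2 := by rintro rfl; norm_num at hp4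
  have hn4 : p ^ r % 4 = 1 := pow_mod4' hp4 r
  have hn1 : 1 < p ^ r := one_lt_pow' hr
  obtain ⟨m, hm⟩ : ∃ m, p ^ r = 4 * m + 1 := ⟨p ^ r / 4, by omega⟩
  have hm0 : 0 < m := by omega
  have : NeZero (p ^ r) := ⟨by omega⟩
  have hp5 : 5 ≤ p := by
    have := hp.two_le
    omega
  have h24 : ¬ (p : ℤ) ∣ 24 := by
    intro h
    have h1 : p ∣ 2 ^ 3 * 3 := by exact_mod_cast h
    rcases hp.dvd_mul.1 h1 with h | h
    · have := Nat.le_of_dvd (by norm_num) (hp.dvd_of_dvd_pow h); omega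
    · have := Nat.le_of_dvd (by norm_num) h; omega
  set n := p ^ r with hn
  have hval := fin_val (p := p) (r := r)
    (x := q ^ (2 * m) * FA n 1 1 -
      (1 - q ^ n) / (1 - q) * FB n 1 1 * (1 + ((n : K) ^ 2 - 1) / 24 * (1 - q ^ n) ^ 2))
    (P := C 24 * X ^ (2 * m) * PAz n * WB (n - 1) -
      gz n * PBz n * WA (n - 1) * (C 24 + C ((n : ℤ) ^ 2 - 1) * (1 - X ^ n) ^ 2))
    (W := C 24 * (WA (n - 1) * WB (n - 1))) (δ := 0) (m := r + 3)
    (e := fun s => 1 + if s = r then 3 else 0)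
    (by
      simp only [map_sub, map_mul, map_add, map_pow, map_one, ez_C, ez_X, ez_PAz, ez_PBz, ez_gz]
      push_cast
      have hq := oq_ne
      field_simp)
    (fun s hs1 hs2 _ => by
      by_cases hsr : s = r
      · subst hsr
        have := h4 m n hm hm0
        simpa using this
      · simp only [if_neg hsr, add_zero, Nat.cast_one]
        have hs4 : p ^ s % 4 = 1 := pow_mod4' hp4 s
        refine (((ordA1 hA hs1 hs2 hs4).mulL (pow_mem' _))).sub ?_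
        refine J.mulR ?_ ?_
        · exact ((ordN hs1 hs2).J.mul (ordB1 hB hs1 hs2 hs4)).of_eq (by norm_num)
        · refine add_mem (one_mem _) (mul_mem ?_ (pow_mem (sub_mem (one_mem _) (pow_mem' _)) _))
          rw [div_eq_mul_inv]
          refine mul_mem (sub_mem (pow_mem (natCast_mem _ _) _) (one_mem _)) ?_
          have := natinv_mem (n := p ^ s) 24
          exact_mod_cast this)
    ((Good.C h24).mul ((good_WA' hp2 (by rw [pow_mod4' hp4]; norm_num)).mul (good_WB hp2)))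
    (by rw [sum_add_distrib, sum_ite_eq' (Icc 1 r) r, if_pos (mem_Icc.2 ⟨hr, le_rfl⟩)]; simp)
  obtain ⟨u, v, hv, h⟩ := hval
  refine ⟨u, v, hv, ?_⟩
  simp only [eval_sub, eval_mul, eval_add, eval_pow, eval_C, eval_X, eval_one, one_pow, sub_self,
    gz_one] at h
  push_cast at h
  rw [PAz_one, PBz_one] at h
  have hWA := WA_one_ne (n - 1)
  have hWB := WB_one_ne (n - 1)
  generalize (((WA (n - 1)).eval 1 : ℤ) : ℚ) = a at *
  generalize (((WB (n - 1)).eval 1 : ℤ) : ℚ) = b at *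
  have hnq : (n : ℚ) = (p : ℚ) ^ r := by rw [hn]; push_cast; rfl
  rw [hnq] at h
  apply mul_left_cancel₀ (mul_ne_zero (mul_ne_zero (by norm_num : (24 : ℚ) ≠ 0) hWA) hWB)
  linear_combination h

theorem step0 {n : ℕ} {a m : ℕ} {e : ℕ → ℕ} {δ : ℕ} (hn : n = p ^ r)
    (hJ : ∀ s : ℕ, 1 ≤ s → s ≤ r → ∀ [NeZero (p ^ s)], J (p ^ s) (e s)
      (q ^ a * FA n 1 1 - (1 - q ^ n) / (1 - q) * FB n 1 1))
    (hW : Good p r (WA (n - 1) * WB (n - 1)) δ) (hm : m + δ ≤ ∑ s ∈ Icc 1 r, e s) :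
    ∃ u v : ℤ, ¬ (p : ℤ) ∣ v ∧ ∑ k ∈ range (p ^ r), tAq k - (p : ℚ) ^ r * ∑ k ∈ range (p ^ r), tBq k =
      (p : ℚ) ^ m * (u / v) := by
  have hval := fin_val (p := p) (r := r)
    (x := q ^ a * FA n 1 1 - (1 - q ^ n) / (1 - q) * FB n 1 1)
    (P := X ^ a * PAz n * WB (n - 1) - gz n * PBz n * WA (n - 1))
    (W := (WA (n - 1) * WB (n - 1))) (δ := δ) (m := m) (e := e)
    (by
      simp only [map_sub, map_mul, map_pow, ez_X, ez_PAz, ez_PBz, ez_gz]
      ring)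
    hJ hW hm
  obtain ⟨u, v, hv, h⟩ := hval
  refine ⟨u, v, hv, ?_⟩
  simp only [eval_sub, eval_mul, eval_pow, eval_X, one_pow, gz_one] at h
  push_cast at h
  rw [PAz_one, PBz_one] at h
  have hWA := WA_one_ne (n - 1)
  have hWB := WB_one_ne (n - 1)
  generalize (((WA (n - 1)).eval 1 : ℤ) : ℚ) = a at *
  generalize (((WB (n - 1)).eval 1 : ℤ) : ℚ) = b at *
  have hnq : (n : ℚ) = (p : ℚ) ^ r := by rw [hn]; push_cast; rfl
  rw [hnq, hn] at h
  apply mul_left_cancel₀ (mul_ne_zero hWA hWB)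
  linear_combination h

/-- `p ≡ 3 mod 4` -/
theorem case3 (hA : S_A) (hB : S_B) (h3 : S_AB3) (hp4 : p % 4 = 3) (hr : 1 ≤ r) :
    ∃ u v : ℤ, ¬ (p : ℤ) ∣ v ∧ ∑ k ∈ range (p ^ r), tAq k - (p : ℚ) ^ r * ∑ k ∈ range (p ^ r), tBq k =
      (p : ℚ) ^ (2 * r + 1) * (u / v) := by
  have hp : p.Prime := hpf.out
  have hp2 : p ≠ 2 := by rintro rfl; norm_num at hp4
  have hn1 : 1 < p ^ r := one_lt_pow' hr
  have hodd : ∀ (a s : ℕ), 1 ≤ s → s ≤ r → s % 2 = 1 → ∀ [NeZero (p ^ s)], J (p ^ s) 3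
      (q ^ a * FA (p ^ r) 1 1 - (1 - q ^ (p ^ r)) / (1 - q) * FB (p ^ r) 1 1) := by
    intro a s hs1 hs2 hs _
    have hs4 : p ^ s % 4 = 3 := by rw [pow_mod4 hp4, if_pos hs]
    exact ((ordA3 hA hs2 hs4).mulL (pow_mem' _)).sub
      (((ordN hs1 hs2).J.mul (ordB3 hB hs2 hs4)).of_eq (by norm_num))
  have heven : ∀ (a s : ℕ), 1 ≤ s → s ≤ r → s % 2 ≠ 1 → ∀ [NeZero (p ^ s)], J (p ^ s) 1
      (q ^ a * FA (p ^ r) 1 1 - (1 - q ^ (p ^ r)) / (1 - q) * FB (p ^ r) 1 1) := by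
    intro a s hs1 hs2 hs _
    have hs4 : p ^ s % 4 = 1 := by rw [pow_mod4 hp4, if_neg hs]
    exact ((ordA1 hA hs1 hs2 hs4).mulL (pow_mem' _)).sub
      (((ordN hs1 hs2).J.mul (ordB1 hB hs1 hs2 hs4)).of_eq (by norm_num))
  rcases Nat.mod_two_eq_zero_or_one r with hr2 | hr2
  · have hn4 : p ^ r % 4 = 1 := by rw [pow_mod4 hp4, if_neg (by omega)]
    obtain ⟨m, hm⟩ : ∃ m, p ^ r = 4 * m + 1 := ⟨p ^ r / 4, by omega⟩
    have hm0 : 0 < m := by omega
    refine step0 (n := p ^ r) (a := 2 * m) (e := fun s => 1 + 2 * (s % 2) + if s = r then 2 else 0)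
      (δ := 1) rfl (fun s hs1 hs2 _ => ?_) (((good_WA hp2).mul (good_WB hp2)).mono (by norm_num)) ?_
    · by_cases hsr : s = r
      · subst hsr
        have := h3 m (p ^ s) hm hm0
        simpa [hr2] using this
      · by_cases hs : s % 2 = 1
        · have := hodd (2 * m) s hs1 hs2 hs
          simpa [hsr, hs] using this
        · have := heven (2 * m) s hs1 hs2 hs
          have hs0 : s % 2 = 0 := by omega
          simpa [hsr, hs0] using this
    · rw [sum_add_distrib, sum_add_distrib, sum_ite_eq' (Icc 1 r) r, if_pos (mem_Icc.2 ⟨hr, le_rfl⟩),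
        ← mul_sum, sum_mod2]
      simp
      omega
  · refine step0 (n := p ^ r) (a := 0) (e := fun s => 1 + 2 * (s % 2))
      (δ := 0) rfl (fun s hs1 hs2 _ => ?_)
      (((good_WA' hp2 ?_).mul (good_WB hp2)).mono (by norm_num)) ?_
    · by_cases hs : s % 2 = 1
      · have := hodd 0 s hs1 hs2 hs
        simpa [hs] using this
      · have := heven 0 s hs1 hs2 hs
        have hs0 : s % 2 = 0 := by omega
        simpa [hs0] using this
    · rw [pow_mod4 hp4, if_neg (by omega)]; norm_num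
    · rw [sum_add_distrib, ← mul_sum, sum_mod2]
      simp
      omega

end cases

end Pool.Agent.R618.SC
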