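import Pool.Agent.R439.QEq

set_option autoImplicit false

/-!
Orders at `Φ_d(q)` in `ℚ(q)` (for MP_9a1728_nt): `J d k x` says that `x` has order at least `k`,
`E d k x` that it has order exactly `k` (`k` is an integer).
-/

namespace Pool.Agent.R618.SC

open Finset Polynomial Pool.Agent.R439

/-- `x` is `(1 - q^d)^k` times an element of the local ring at `Φ_d` (`k` may be negative). -/
def J (d : ℕ) [NeZero d] (k : ℤ) (x : K) : Prop := ∃ y ∈ O d, x = w d ^ k * y

/-- `x` has order exactly `k` at `Φ_d`. -/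
def E (d : ℕ) [NeZero d] (k : ℤ) (x : K) : Prop := ∃ y : K, U d y ∧ x = w d ^ k * y

variable {d : ℕ} [NeZero d] {k l : ℤ} {x y : K}

theorem E.J (h : E d k x) : J d k x := by
  obtain ⟨y, hy, rfl⟩ := h
  exact ⟨y, hy.2.1, rfl⟩

theorem E.ne (h : E d k x) : x ≠ 0 := by
  obtain ⟨y, hy, rfl⟩ := h
  exact mul_ne_zero (zpow_ne_zero _ w_ne) hy.1

theorem J_zero : J d k 0 := ⟨0, zero_mem _, by rw [mul_zero]⟩

theorem J.add (h : J d k x) (h' : J d k y) : J d k (x + y) := by
  obtain ⟨a, ha, rfl⟩ := h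
  obtain ⟨b, hb, rfl⟩ := h'
  exact ⟨a + b, add_mem ha hb, by ring⟩

theorem J.neg (h : J d k x) : J d k (-x) := by
  obtain ⟨a, ha, rfl⟩ := h
  exact ⟨-a, neg_mem ha, by ring⟩

theorem J.sub (h : J d k x) (h' : J d k y) : J d k (x - y) := by
  rw [sub_eq_add_neg]; exact h.add h'.neg

theorem J.sum {ι : Type*} {s : Finset ι} {f : ι → K} (h : ∀ i ∈ s, J d k (f i)) :
    J d k (∑ i ∈ s, f i) := by
  classical
  induction s using Finset.induction_on with
  | empty => simpa using J_zero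
  | insert a s ha ih =>
    rw [sum_insert ha]
    exact (h a (mem_insert_self _ _)).add (ih fun i hi => h i (mem_insert_of_mem hi))

theorem J.mul (h : J d k x) (h' : J d l y) : J d (k + l) (x * y) := by
  obtain ⟨a, ha, rfl⟩ := h
  obtain ⟨b, hb, rfl⟩ := h'
  exact ⟨a * b, mul_mem ha hb, by rw [zpow_add₀ w_ne]; ring⟩

theorem J.mono (hkl : l ≤ k) (h : J d k x) : J d l x := by
  obtain ⟨a, ha, rfl⟩ := h
  obtain ⟨t, rfl⟩ := Int.le.dest hkl
  refine ⟨w d ^ t * a, mul_mem (pow_mem w_mem _) ha, ?_⟩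
  rw [zpow_add₀ w_ne, zpow_natCast]; ring

theorem J.of_eq (hkl : k = l) (h : J d k x) : J d l x := hkl ▸ h

theorem E.of_eq (hkl : k = l) (h : E d k x) : E d l x := hkl ▸ h

theorem J_of_O (h : x ∈ O d) : J d 0 x := ⟨x, h, by rw [zpow_zero, one_mul]⟩

theorem J_zero_iff : J d 0 x ↔ x ∈ O d := by
  refine ⟨?_, J_of_O⟩
  rintro ⟨y, hy, rfl⟩
  rwa [zpow_zero, one_mul]

theorem J_nat_iff {m : ℕ} : J d m x ↔ I d m x := by
  constructor
  · rintro ⟨y, hy, rfl⟩; exact ⟨y, hy, by rw [zpow_natCast]⟩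
  · rintro ⟨y, hy, rfl⟩; exact ⟨y, hy, by rw [zpow_natCast]⟩

theorem J.mulL (hx : x ∈ O d) (h : J d k y) : J d k (x * y) := by
  have := (J_of_O hx).mul h
  rwa [zero_add] at this

theorem J.mulR (h : J d k x) (hy : y ∈ O d) : J d k (x * y) := by
  rw [mul_comm]; exact h.mulL hy

theorem E.mul (h : E d k x) (h' : E d l y) : E d (k + l) (x * y) := by
  obtain ⟨a, ha, rfl⟩ := h
  obtain ⟨b, hb, rfl⟩ := h'
  exact ⟨a * b, ha.mul hb, by rw [zpow_add₀ w_ne]; ring⟩

theorem E.inv (h : E d k x) : E d (-k) x⁻¹ := by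
  obtain ⟨a, ha, rfl⟩ := h
  exact ⟨a⁻¹, ha.inv, by rw [mul_inv, zpow_neg]⟩

theorem E.div (h : E d k x) (h' : E d l y) : E d (k - l) (x / y) := by
  rw [div_eq_mul_inv, sub_eq_add_neg]; exact h.mul h'.inv

theorem E.neg (h : E d k x) : E d k (-x) := by
  obtain ⟨a, ha, rfl⟩ := h
  exact ⟨-a, ha.neg, by ring⟩

theorem E_of_U (h : U d x) : E d 0 x := ⟨x, h, by rw [zpow_zero, one_mul]⟩

theorem E_one : E d 0 (1 : K) := E_of_U U.one

theorem E_w : E d 1 (w d) := ⟨1, U.one, by rw [zpow_one, mul_one]⟩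

theorem E.pow (h : E d k x) (m : ℕ) : E d (m * k) (x ^ m) := by
  induction m with
  | zero => rw [pow_zero]; exact E_one.of_eq (by simp)
  | succ m ih => rw [pow_succ]; exact (ih.mul h).of_eq (by push_cast; ring)

theorem J.pow (h : J d k x) (m : ℕ) : J d (m * k) (x ^ m) := by
  induction m with
  | zero => rw [pow_zero]; exact (J_of_O (one_mem _)).of_eq (by simp)
  | succ m ih => rw [pow_succ]; exact (ih.mul h).of_eq (by push_cast; ring)

theorem E.prod {ι : Type*} {s : Finset ι} {f : ι → K} {e : ι → ℤ}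
    (h : ∀ i ∈ s, E d (e i) (f i)) : E d (∑ i ∈ s, e i) (∏ i ∈ s, f i) := by
  classical
  induction s using Finset.induction_on with
  | empty => simpa using E_one
  | insert a s ha ih =>
    rw [sum_insert ha, prod_insert ha]
    exact (h a (mem_insert_self _ _)).mul (ih fun i hi => h i (mem_insert_of_mem hi))

theorem J.prod {ι : Type*} {s : Finset ι} {f : ι → K} {e : ι → ℤ}
    (h : ∀ i ∈ s, J d (e i) (f i)) : J d (∑ i ∈ s, e i) (∏ i ∈ s, f i) := by
  classical
  induction s using Finset.induction_on with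
  | empty => simpa using J_of_O (one_mem _)
  | insert a s ha ih =>
    rw [sum_insert ha, prod_insert ha]
    exact (h a (mem_insert_self _ _)).mul (ih fun i hi => h i (mem_insert_of_mem hi))

/-- cancel a factor of known order -/
theorem J.cancel (hx : E d k x) (h : J d l (x * y)) : J d (l - k) y := by
  have h1 := hx.inv.J.mul h
  have h2 : x⁻¹ * (x * y) = y := by rw [← mul_assoc, inv_mul_cancel₀ hx.ne, one_mul]
  rw [h2] at h1
  exact h1.of_eq (by ring)

theorem J.divE (h : J d l y) (hx : E d k x) : J d (l - k) (y / x) := by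
  rw [div_eq_mul_inv, sub_eq_add_neg]; exact h.mul hx.inv.J

/-- `1 - q^e` is a unit when `d ∤ e` -/
theorem E_one_sub {e : ℤ} (he : ¬ (d : ℤ) ∣ e) : E d 0 (1 - q ^ e) := E_of_U (U_one_sub he)

/-- `1 - q^(d t)` has order `1` when `t ≠ 0` -/
theorem E_one_sub_mul {t : ℤ} (ht : t ≠ 0) : E d 1 (1 - q ^ ((d : ℤ) * t)) := by
  rw [← w_qi]
  have := (E_w (d := d)).mul (E_of_U (qi_U (n := d) ht))
  exact this.of_eq (by ring)

/-- order of `1 - q^e`, `e ≠ 0` -/
theorem E_one_sub_ite {e : ℤ} (he : e ≠ 0) [Decidable ((d : ℤ) ∣ e)] :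
    E d (if (d : ℤ) ∣ e then 1 else 0) (1 - q ^ e) := by
  split_ifs with h
  · obtain ⟨t, rfl⟩ := h
    exact E_one_sub_mul (by rintro rfl; exact he (mul_zero _))
  · exact E_one_sub h

theorem E_q (e : ℤ) : E d 0 (q ^ e) := E_of_U (U_q e)

theorem E_qn (e : ℕ) : E d 0 (q ^ e) := E_of_U (U_qpow e)

/-- `1 - q` is a unit when `1 < d` -/
theorem E_q1 (hd : 1 < d) : E d 0 (1 - q) := by
  have := E_one_sub (d := d) (e := 1) (by
    intro h
    have h1 : d ∣ 1 := by exact_mod_cast h
    have h2 := Nat.le_of_dvd one_pos h1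
    omega)
  rwa [zpow_one] at this

/-- the difference of two points `q^(d a)`, `q^(d b)` has order `1` -/
theorem E_node {a b : ℤ} (hab : a ≠ b) : E d 1 (q ^ ((d : ℤ) * a) - q ^ ((d : ℤ) * b)) := by
  have h : q ^ ((d : ℤ) * a) - q ^ ((d : ℤ) * b) =
      q ^ ((d : ℤ) * a) * (1 - q ^ ((d : ℤ) * (b - a))) := by
    rw [mul_sub, mul_one, ← zpow_add₀ q_ne]; congr 2; ring
  rw [h]
  exact ((E_q _).mul (E_one_sub_mul (sub_ne_zero.2 hab.symm))).of_eq (by ring)

/-- number of `i < k` with `i % d = i0` -/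
theorem card_mod (d k i0 : ℕ) (h : i0 < d) :
    ((range k).filter fun i => i % d = i0).card = (k + d - 1 - i0) / d := by
  have hd : 0 < d := by omega
  induction k with
  | zero =>
    rw [range_zero, filter_empty, card_empty]
    exact (Nat.div_eq_of_lt (by omega)).symm
  | succ k ih =>
    rw [range_add_one, filter_insert]
    by_cases hk : k % d = i0
    · rw [if_pos hk, card_insert_of_notMem (by simp), ih]
      have h1 : k = d * (k / d) + i0 := by rw [← hk]; exact (Nat.div_add_mod k d).symm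
      generalize k / d = t at h1
      have e1 : k + 1 + d - 1 - i0 = 0 + d * (t + 1) := by
        rw [Nat.mul_succ]; omega
      have e2 : k + d - 1 - i0 = (d - 1) + d * t := by omega
      rw [e1, e2, Nat.add_mul_div_left _ _ hd, Nat.add_mul_div_left _ _ hd, Nat.zero_div,
        Nat.div_eq_of_lt (by omega : d - 1 < d)]
      omega
    · rw [if_neg hk, ih]
      have h1 : k = d * (k / d) + k % d := (Nat.div_add_mod k d).symm
      have h2 := Nat.mod_lt k hd
      generalize k / d = t at h1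
      generalize k % d = u at h1 hk h2
      rcases lt_or_gt_of_ne hk with h3 | h3
      · have e1 : k + 1 + d - 1 - i0 = (u + d - i0) + d * t := by omega
        have e2 : k + d - 1 - i0 = (u + d - 1 - i0) + d * t := by omega
        rw [e1, e2, Nat.add_mul_div_left _ _ hd, Nat.add_mul_div_left _ _ hd,
          Nat.div_eq_of_lt (by omega : u + d - i0 < d), Nat.div_eq_of_lt (by omega : u + d - 1 - i0 < d)]
      · have e1 : k + 1 + d - 1 - i0 = (u - i0) + d * (t + 1) := by rw [Nat.mul_succ]; omega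
        have e2 : k + d - 1 - i0 = (u - i0 - 1) + d * (t + 1) := by rw [Nat.mul_succ]; omega
        rw [e1, e2, Nat.add_mul_div_left _ _ hd, Nat.add_mul_div_left _ _ hd,
          Nat.div_eq_of_lt (by omega : u - i0 < d), Nat.div_eq_of_lt (by omega : u - i0 - 1 < d)]

/-- order of `(q^e; q^s)_k` when `s` is prime to `d` and no factor is zero: the number of
`i < k` with `d ∣ e + s i`, which is `(k + d - 1 - i0) / d` when `i0 < d` is the first such `i`. -/
theorem E_poch {e : ℤ} {s k i0 : ℕ} (hs : Nat.Coprime d s) (hi0 : i0 < d)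
    (h0 : (d : ℤ) ∣ e + s * i0) (hne : ∀ i < k, e + s * i ≠ 0) :
    E d (((k + d - 1 - i0) / d : ℕ) : ℤ) (poch (q ^ e) (q ^ s) k) := by
  classical
  have h1 : E d (∑ i ∈ range k, (if (d : ℤ) ∣ e + s * i then 1 else 0))
      (∏ i ∈ range k, (1 - q ^ (e + s * i))) :=
    E.prod fun i hi => E_one_sub_ite (hne i (mem_range.1 hi))
  have h2 : poch (q ^ e) (q ^ s) k = ∏ i ∈ range k, (1 - q ^ (e + s * i)) := by
    rw [poch]
    refine prod_congr rfl fun i _ => ?_
    rw [← pow_mul, ← zpow_natCast q (s * i), ← zpow_add₀ q_ne]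
    push_cast; rfl
  have h3 : ∀ i : ℕ, ((d : ℤ) ∣ e + s * i ↔ i % d = i0) := by
    intro i
    have h4 : ((d : ℤ) ∣ e + s * i) ↔ (d : ℤ) ∣ (s : ℤ) * (i - i0) := by
      have : e + s * i = (e + s * i0) + (s : ℤ) * (i - i0) := by ring
      rw [this]
      exact (Int.dvd_add_right h0)
    have h5 : ((d : ℤ) ∣ (s : ℤ) * (i - i0)) ↔ (d : ℤ) ∣ ((i : ℤ) - i0) := by
      constructor
      · intro h
        exact (Int.isCoprime_iff_gcd_eq_one.2 (by simpa using hs)).dvd_of_dvd_mul_left h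
      · intro h; exact h.mul_left _
    rw [h4, h5]
    constructor
    · intro h
      have h6 : (i : ℤ) % d = i0 % d :=
        Int.emod_eq_emod_iff_emod_sub_eq_zero.2 (Int.emod_eq_zero_of_dvd h)
      have h7 : i % d = i0 % d := by exact_mod_cast h6
      rw [h7, Nat.mod_eq_of_lt hi0]
    · intro h
      have h6 : (i : ℤ) = d * (i / d : ℕ) + i0 := by
        rw [← h]; exact_mod_cast (Nat.div_add_mod i d).symm
      rw [h6]
      exact ⟨((i / d : ℕ) : ℤ), by ring⟩
  rw [h2, ← card_mod d k i0 hi0, card_filter]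
  push_cast
  convert h1 using 3 with i _
  simp [h3]

end Pool.Agent.R618.SC
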