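import Pool.Agent.R618.SC.Basic

set_option autoImplicit false

/-!
Definitions for MP_9a1728_nt: the sums with two parameters.
-/

namespace Pool.Agent.R618.SC

open Finset Polynomial Pool.Agent.R439

/-- the part of the summand without the parameters -/
noncomputable def cf (k : ℕ) : K :=
  (1 - q ^ (8 * k + 1)) / (1 - q) * (poch q (q ^ 4) k * poch (q ^ 2) (q ^ 4) k) /
    (poch (q ^ 4) (q ^ 4) k * poch (q ^ 3) (q ^ 4) k) * q ^ (4 * k)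

/-- `(aq, q/a; q^4)_k / (aq^4, q^4/a; q^4)_k` -/
noncomputable def pr (a : K) (k : ℕ) : K :=
  (poch (a * q) (q ^ 4) k * poch (q / a) (q ^ 4) k) /
    (poch (a * q ^ 4) (q ^ 4) k * poch (q ^ 4 / a) (q ^ 4) k)

/-- the first sum with two parameters; `FA n 1 1` is the `q`-analogue of the sum `A`. -/
noncomputable def FA (n : ℕ) (a b : K) : K := ∑ k ∈ range n, cf k * pr a k * pr b k

/-- `(bq^2, q^2/b; q^4)_m / (bq^4, q^4/b; q^4)_m` -/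
noncomputable def gg (b : K) (m : ℕ) : K :=
  (poch (b * q ^ 2) (q ^ 4) m * poch (q ^ 2 / b) (q ^ 4) m) /
    (poch (b * q ^ 4) (q ^ 4) m * poch (q ^ 4 / b) (q ^ 4) m)

/-- the summand of the second sum with two parameters -/
noncomputable def tB (a b : K) (k : ℕ) : K :=
  (poch (a * q) (q ^ 2) k * poch (q / a) (q ^ 2) k * poch (q ^ 2) (q ^ 4) k) /
    (poch (b * q ^ 2) (q ^ 2) k * poch (q ^ 2 / b) (q ^ 2) k * poch (q ^ 4) (q ^ 4) k) *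
      q ^ (2 * k)

/-- the second sum; `FB n 1 1` is the `q`-analogue of the sum `B`. -/
noncomputable def FB (n : ℕ) (a b : K) : K := ∑ k ∈ range n, tB a b k

/-- `q^j/(1-q^j)^2` -/
noncomputable def psi (j : ℕ) : K := q ^ j / (1 - q ^ j) ^ 2

/-- `∑_{j=1}^{2k} q^j/(1-q^j)^2`, odd and even `j` together -/
noncomputable def LL (k : ℕ) : K := ∑ i ∈ range k, (psi (2 * i + 1) + psi (2 * i + 2))

/-! ### Statements of the parts -/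

/-- JAC: the sum of Jackson for the first sum at `a = q^(4m+1)`. -/
def S_JAC : Prop := ∀ (b : K) (m n : ℕ), b ≠ 0 →
  (∀ i : ℕ, b * q ^ (4 * i + 4) ≠ 1 ∧ b ≠ q ^ (4 * i + 4)) → m < n →
  FA n (q ^ (4 * m + 1)) b = (1 - q ^ (4 * m + 1)) / (1 - q) * gg b m

/-- WHI, first part: the sum of Andrews and Whipple for the second sum at `a = q^(4m+1)`. -/
def S_WHI1 : Prop := ∀ (b : K) (m n : ℕ), b ≠ 0 →
    (∀ i : ℕ, b * q ^ (2 * i + 2) ≠ 1 ∧ b ≠ q ^ (2 * i + 2)) → 2 * m < n →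
    FB n (q ^ (4 * m + 1)) b = q ^ (2 * m) * gg b m

/-- WHI, second part: the second sum vanishes at `a = q^(4m+3)`, `b = 1`. -/
def S_WHI2 : Prop := ∀ m n : ℕ, 2 * m + 1 < n → FB n (q ^ (4 * m + 3)) 1 = 0

/-- INT: a sum `G(x) = ∑ c_k p_k(x)` with `p_k` of integral coefficients is controlled at `x = 1`
by its values at the points `q^(d e)`, `e ∈ Z ∖ {0}`; the same for `∑ c_k p_k(x) p_k(y)`. -/
def S_INT : Prop := ∀ (d : ℕ) [NeZero d] (Z : Finset ℤ) (n : ℕ) (c : ℕ → K) (p : ℕ → K[X])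
  (κ : ℤ), 0 ∈ Z → (∀ k < n, J d κ (c k)) → (∀ k < n, ∀ i, (p k).coeff i ∈ O d) →
  ((∀ e ∈ Z, e ≠ 0 → J d (κ + ((Z.card : ℤ) - 1))
      (∑ k ∈ range n, c k * (p k).eval (q ^ ((d : ℤ) * e)))) →
    J d (κ + ((Z.card : ℤ) - 1)) (∑ k ∈ range n, c k * (p k).eval 1)) ∧
  ((∀ e ∈ Z, ∀ f ∈ Z, (e ≠ 0 ∨ f ≠ 0) → J d (κ + 2 * ((Z.card : ℤ) - 1))
      (∑ k ∈ range n, c k * ((p k).eval (q ^ ((d : ℤ) * e)) * (p k).eval (q ^ ((d : ℤ) * f))))) →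
    J d (κ + 2 * ((Z.card : ℤ) - 1)) (∑ k ∈ range n, c k * ((p k).eval 1 * (p k).eval 1)))

/-- ORDA, first part: orders of the coefficients of the first sum. -/
def S_ORD1 : Prop :=
  (∀ (d : ℕ) [NeZero d] (k : ℕ), d % 4 = 3 → J d (-1) (cf k)) ∧
  ∀ (d : ℕ) [NeZero d] (k : ℕ), d % 4 = 1 → 1 < d → J d 0 (cf k) ∧ J d 0 (pr 1 k)

/-- ORDA, second part: orders of `gg`. -/
def S_ORD2 : Prop :=
  (∀ (d : ℕ) [NeZero d] (ν m : ℕ) (e : ℤ), d % 4 = 3 → 4 * m + 1 = (4 * ν + 3) * d →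
    (e = 0 ∨ e % 2 = 1) → E d 2 (gg (q ^ ((d : ℤ) * e)) m)) ∧
  ∀ (d : ℕ) [NeZero d] (ν m : ℕ), d % 4 = 1 → 1 < d → 4 * m + 1 = (4 * ν + 1) * d →
    E d 0 (gg 1 m)

/-- A: orders of the first sum. -/
def S_A : Prop :=
  (∀ (d N : ℕ) [NeZero d], d % 4 = 3 → 0 < N → J d 3 (FA (N * d) 1 1)) ∧
  ∀ (d N : ℕ) [NeZero d], d % 4 = 1 → 1 < d → 0 < N → J d 1 (FA (N * d) 1 1)

/-- B: orders of the second sum. -/
def S_B : Prop :=
  (∀ (d N : ℕ) [NeZero d], d % 4 = 3 → 0 < N → J d 2 (FB (N * d) 1 1)) ∧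
  ∀ (d N : ℕ) [NeZero d], d % 2 = 1 → 1 < d → 0 < N → J d 0 (FB (N * d) 1 1)

/-- AB0: the first sum modulo the fourth power. -/
def S_AB0 : Prop := ∀ (m n : ℕ) [NeZero n], n = 4 * m + 1 → 0 < m →
  J n 4 (FA n 1 1 - (1 - q ^ n) / (1 - q) * (2 * gg 1 m - gg (q ^ n) m))

/-- AB3: the comparison modulo the third power. -/
def S_AB3 : Prop := ∀ (m n : ℕ) [NeZero n], n = 4 * m + 1 → 0 < m →
  J n 3 (q ^ (2 * m) * FA n 1 1 - (1 - q ^ n) / (1 - q) * FB n 1 1)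

/-- EXP: expansion of the sum of Andrews and Whipple. -/
def S_EXP : Prop := ∀ (m n : ℕ) [NeZero n], n = 4 * m + 1 → 0 < m →
  J n 3 (q ^ (2 * m) * (2 * gg 1 m - gg (q ^ n) m) -
    (FB n 1 1 - (1 - q ^ n) ^ 2 / q ^ n * ∑ k ∈ range (2 * m + 1), tB 1 1 k * LL k))

/-- REFL: reflection `k → 2m - k`. -/
def S_REFL : Prop := ∀ (m n : ℕ) [NeZero n], n = 4 * m + 1 → 0 < m →
  J n 1 (2 * ∑ k ∈ range (2 * m + 1), tB 1 1 k * LL k -
    LL (2 * m) * ∑ k ∈ range (2 * m + 1), tB 1 1 k)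

/-- PSI: the sum of `ζ^j/(1-ζ^j)^2`. -/
def S_PSI : Prop := ∀ (n : ℕ) [NeZero n],
  J n 1 (∑ j ∈ Ico 1 n, psi j + ((n : K) ^ 2 - 1) / 12)

/-- AB4: the comparison modulo the fourth power. -/
def S_AB4 : Prop := ∀ (m n : ℕ) [NeZero n], n = 4 * m + 1 → 0 < m →
  J n 4 (q ^ (2 * m) * FA n 1 1 -
    (1 - q ^ n) / (1 - q) * FB n 1 1 * (1 + ((n : K) ^ 2 - 1) / 24 * (1 - q ^ n) ^ 2))

/-- embedding of `ℤ[q]` -/
noncomputable def ez : ℤ[X] →+* K := emb.comp (mapRingHom (Int.castRingHom ℚ))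

/-- LIM: from orders at `Φ_(p^s)` to divisibility by `p` at `q = 1`. -/
def S_LIM : Prop := ∀ (p S : ℕ) [Fact p.Prime] (e : ℕ → ℕ) (P : ℤ[X]),
  (∀ s : ℕ, 1 ≤ s → s ≤ S → ∀ [NeZero (p ^ s)], J (p ^ s) (e s) (ez P)) →
  (p : ℤ) ^ (∑ s ∈ Icc 1 S, e s) ∣ P.eval 1

end Pool.Agent.R618.SC
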