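import Pool.Agent.R618.SC.Defs

set_option autoImplicit false

/-!
MP_9a1728_nt, piece EXP: expansion of the sum of Andrews and Whipple.
-/

namespace Pool.Agent.R618.SC

open Finset Polynomial Pool.Agent.R439

namespace Exp

/-- order of `tB 1 1 k`, `k < n = 4m+1` -/
lemma E_tB (m n : ℕ) [NeZero n] (hn : n = 4 * m + 1) (hm : 0 < m) (k : ℕ) (hk : k < n) :
    E n (3 * (((k + n - 1 - 2 * m) / n : ℕ) : ℤ)) (tB 1 1 k) := by
  have hodd2 : Nat.Coprime n 2 := by
    have : Odd n := ⟨2 * m, by omega⟩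
    exact this.coprime_two_right
  have hodd4 : Nat.Coprime n 4 := by
    rw [show 4 = 2 ^ 2 by norm_num]
    exact Nat.Coprime.pow_right 2 hodd2
  have h1 : E n (((k + n - 1 - 2 * m) / n : ℕ) : ℤ) (poch (q ^ (1 : ℤ)) (q ^ 2) k) :=
    E_poch hodd2 (by omega) ⟨1, by rw [hn]; push_cast; ring⟩ (fun i _ => by positivity)
  have h2 : E n (((k + n - 1 - 2 * m) / n : ℕ) : ℤ) (poch (q ^ (2 : ℤ)) (q ^ 4) k) :=
    E_poch hodd4 (by omega) ⟨2, by rw [hn]; push_cast; ring⟩ (fun i _ => by positivity)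
  have hkn : (k + n - 1 - (n - 1)) / n = 0 := by
    apply Nat.div_eq_of_lt
    omega
  have h3 : E n (((k + n - 1 - (n - 1)) / n : ℕ) : ℤ) (poch (q ^ (2 : ℤ)) (q ^ 2) k) :=
    E_poch hodd2 (by omega) ⟨2, by
      have : ((n - 1 : ℕ) : ℤ) = n - 1 := by
        rw [Nat.cast_sub (by omega)]; push_cast; ring
      rw [this]; push_cast; ring⟩ (fun i _ => by positivity)
  have h4 : E n (((k + n - 1 - (n - 1)) / n : ℕ) : ℤ) (poch (q ^ (4 : ℤ)) (q ^ 4) k) :=
    E_poch hodd4 (by omega) ⟨4, by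
      have : ((n - 1 : ℕ) : ℤ) = n - 1 := by
        rw [Nat.cast_sub (by omega)]; push_cast; ring
      rw [this]; push_cast; ring⟩ (fun i _ => by positivity)
  rw [hkn] at h3 h4
  have e1 : (q : K) ^ (1 : ℤ) = q := zpow_one _
  have e2 : (q : K) ^ (2 : ℤ) = q ^ 2 := by norm_cast
  have e4 : (q : K) ^ (4 : ℤ) = q ^ 4 := by norm_cast
  rw [e1] at h1
  rw [e2] at h2 h3
  rw [e4] at h4
  unfold tB
  rw [one_mul, div_one, one_mul, div_one]
  exact (((((h1.mul h1).mul h2).div ((h3.mul h3).mul h4)).mul (E_qn (2 * k)))).of_eq (by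
    push_cast; ring)

lemma O_tB (m n : ℕ) [NeZero n] (hn : n = 4 * m + 1) (hm : 0 < m) (k : ℕ) (hk : k < n) :
    tB 1 1 k ∈ O n := by
  rw [← J_zero_iff]
  exact (E_tB m n hn hm k hk).J.mono (by positivity)

lemma J3_tB (m n : ℕ) [NeZero n] (hn : n = 4 * m + 1) (hm : 0 < m) (k : ℕ) (hk : k < n)
    (hk2 : 2 * m < k) : J n 3 (tB 1 1 k) := by
  have h := E_tB m n hn hm k hk
  have h1 : 1 ≤ (k + n - 1 - 2 * m) / n := by
    rw [Nat.one_le_div_iff (by omega)]
    omega
  refine h.J.mono ?_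
  have : (1 : ℤ) ≤ (((k + n - 1 - 2 * m) / n : ℕ) : ℤ) := by exact_mod_cast h1
  linarith

/-- the factorization of a pair of factors -/
lemma pair {x : K} (hx : x ≠ 0) {j : ℕ} (hj : j ≠ 0) :
    (1 - x * q ^ j) * (1 - q ^ j / x) = (1 - q ^ j) ^ 2 * (1 - (1 - x) ^ 2 / x * psi j) := by
  have h1 := one_sub_pow_ne hj
  unfold psi
  field_simp
  ring

/-- the product of the odd factors -/
noncomputable def PA (u : K) (k : ℕ) : K := ∏ i ∈ range k, (1 - u * psi (2 * i + 1))

/-- the product of the even factors -/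
noncomputable def PB (u : K) (k : ℕ) : K := ∏ i ∈ range k, (1 - u * psi (2 * i + 2))

lemma num_eq {x : K} (hx : x ≠ 0) (k : ℕ) :
    poch (x * q) (q ^ 2) k * poch (q / x) (q ^ 2) k =
      (poch (1 * q) (q ^ 2) k * poch (q / 1) (q ^ 2) k) * PA ((1 - x) ^ 2 / x) k := by
  unfold poch PA
  rw [← prod_mul_distrib, ← prod_mul_distrib, ← prod_mul_distrib]
  apply prod_congr rfl
  intro i _
  have h := pair hx (j := 2 * i + 1) (by omega)
  have e1 : x * q * (q ^ 2) ^ i = x * q ^ (2 * i + 1) := by ring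
  have e2 : q / x * (q ^ 2) ^ i = q ^ (2 * i + 1) / x := by ring
  have e3 : 1 * q * (q ^ 2) ^ i = q ^ (2 * i + 1) := by ring
  have e4 : q / 1 * (q ^ 2) ^ i = q ^ (2 * i + 1) := by ring
  rw [e1, e2, e3, e4, h]
  ring

lemma den_eq {x : K} (hx : x ≠ 0) (k : ℕ) :
    poch (x * q ^ 2) (q ^ 2) k * poch (q ^ 2 / x) (q ^ 2) k =
      (poch (1 * q ^ 2) (q ^ 2) k * poch (q ^ 2 / 1) (q ^ 2) k) * PB ((1 - x) ^ 2 / x) k := by
  unfold poch PB
  rw [← prod_mul_distrib, ← prod_mul_distrib, ← prod_mul_distrib]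
  apply prod_congr rfl
  intro i _
  have h := pair hx (j := 2 * i + 2) (by omega)
  have e1 : x * q ^ 2 * (q ^ 2) ^ i = x * q ^ (2 * i + 2) := by ring
  have e2 : q ^ 2 / x * (q ^ 2) ^ i = q ^ (2 * i + 2) / x := by ring
  have e3 : 1 * q ^ 2 * (q ^ 2) ^ i = q ^ (2 * i + 2) := by ring
  have e4 : q ^ 2 / 1 * (q ^ 2) ^ i = q ^ (2 * i + 2) := by ring
  rw [e1, e2, e3, e4, h]
  ring

lemma tB_one {x : K} (hx : x ≠ 0) (k : ℕ) :
    tB x 1 k = tB 1 1 k * PA ((1 - x) ^ 2 / x) k := by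
  unfold tB
  rw [num_eq hx]
  ring

lemma tB_two {x : K} (hx : x ≠ 0) (k : ℕ) :
    tB x x k = tB 1 1 k * (PA ((1 - x) ^ 2 / x) k / PB ((1 - x) ^ 2 / x) k) := by
  unfold tB
  rw [num_eq hx, den_eq hx]
  simp only [div_eq_mul_inv, mul_inv]
  ring

lemma psi_O (n : ℕ) [NeZero n] {j : ℕ} (hj : ¬ n ∣ j) : psi j ∈ O n := by
  unfold psi
  rw [div_eq_mul_inv, ← inv_pow]
  exact mul_mem (pow_mem' _) (pow_mem (inv_one_sub_mem hj) 2)

/-- first order expansion of a product -/
lemma prod_exp (n : ℕ) [NeZero n] (u : K) (hu : I n 2 u) (f : ℕ → K) (k : ℕ)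
    (hf : ∀ i < k, f i ∈ O n) : (∑ i ∈ range k, f i) ∈ O n ∧
      I n 4 (∏ i ∈ range k, (1 - u * f i) - (1 - u * ∑ i ∈ range k, f i)) := by
  induction k with
  | zero =>
    refine ⟨by simpa using zero_mem _, ?_⟩
    simp only [prod_range_zero, sum_range_zero, mul_zero, sub_zero, sub_self]
    exact I.zero
  | succ k ih =>
    obtain ⟨h1, h2⟩ := ih (fun i hi => hf i (by omega))
    have hk := hf k (by omega)
    refine ⟨by rw [sum_range_succ]; exact add_mem h1 hk, ?_⟩
    rw [prod_range_succ, sum_range_succ]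
    have e : (∏ i ∈ range k, (1 - u * f i)) * (1 - u * f k) -
        (1 - u * (∑ i ∈ range k, f i + f k)) =
        (∏ i ∈ range k, (1 - u * f i) - (1 - u * ∑ i ∈ range k, f i)) * (1 - u * f k) +
        (u * u) * ((∑ i ∈ range k, f i) * f k) := by ring
    rw [e]
    have hO : 1 - u * f k ∈ O n := sub_mem (one_mem _) (mul_mem hu.mem hk)
    exact (h2.mulR hO).add ((hu.mul hu).mulR (mul_mem h1 hk))

end Exp

open Exp

theorem exp_ (h : S_WHI1) : S_EXP := by
  intro m n _ hn hm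
  have hq0 : (q ^ n : K) ≠ 0 := pow_ne_zero _ q_ne
  set Q : K := q ^ n with hQ
  set u : K := (1 - Q) ^ 2 / Q with hu
  have hQn : (q : K) ^ (4 * m + 1) = Q := by rw [hQ, hn]
  have hw1 : FB n Q 1 = q ^ (2 * m) * gg 1 m := by
    have := h 1 m n one_ne_zero (fun i => ⟨by rw [one_mul]; exact q_pow_ne_one (by omega),
      (q_pow_ne_one (by omega)).symm⟩) (by omega)
    rwa [hQn] at this
  have hw2 : FB n Q Q = q ^ (2 * m) * gg Q m := by
    have := h Q m n hq0 (fun i => ⟨by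
      rw [hQ, ← pow_add]; exact q_pow_ne_one (by omega), by
      intro heq
      rw [hQ, hn] at heq
      rcases le_total (4 * m + 1) (2 * i + 2) with hle | hle
      · obtain ⟨r, hr⟩ := Nat.exists_eq_add_of_le hle
        have hr0 : r ≠ 0 := by omega
        rw [hr, pow_add q (4 * m + 1) r] at heq
        have h3 : (q : K) ^ r = 1 := by
          have h4 : (q : K) ^ (4 * m + 1) * (q ^ r) = q ^ (4 * m + 1) * 1 := by
            rw [mul_one]; exact heq.symm
          exact mul_left_cancel₀ (pow_ne_zero _ q_ne) h4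
        exact q_pow_ne_one hr0 h3
      · obtain ⟨r, hr⟩ := Nat.exists_eq_add_of_le hle
        have hr0 : r ≠ 0 := by omega
        rw [hr, pow_add q (2 * i + 2) r] at heq
        have h3 : (q : K) ^ r = 1 := by
          have h4 : (q : K) ^ (2 * i + 2) * (q ^ r) = q ^ (2 * i + 2) * 1 := by
            rw [mul_one]; exact heq
          exact mul_left_cancel₀ (pow_ne_zero _ q_ne) h4
        exact q_pow_ne_one hr0 h3⟩) (by omega)
    rwa [hQn] at this
  have huI : I n 2 u := by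
    refine ⟨Q⁻¹, by rw [hQ, ← inv_pow]; exact pow_mem q_inv_mem _, ?_⟩
    rw [hu, w, div_eq_mul_inv]
  -- the terms
  have hlow : ∀ k ∈ range (2 * m + 1), J n 3 (2 * tB Q 1 k - tB Q Q k - tB 1 1 k +
      u * (tB 1 1 k * LL k)) := by
    intro k hk
    have hk' : k < 2 * m + 1 := mem_range.1 hk
    have hdvd : ∀ j, 0 < j → j < n → ¬ n ∣ j := fun j h1 h2 h3 =>
      absurd (Nat.le_of_dvd h1 h3) (by omega)
    obtain ⟨a1, a2⟩ := prod_exp n u huI (fun i => psi (2 * i + 1)) k
      (fun i hi => psi_O n (hdvd _ (by omega) (by omega)))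
    obtain ⟨b1, b2⟩ := prod_exp n u huI (fun i => psi (2 * i + 2)) k
      (fun i hi => psi_O n (hdvd _ (by omega) (by omega)))
    set a := ∑ i ∈ range k, psi (2 * i + 1) with ha
    set b := ∑ i ∈ range k, psi (2 * i + 2) with hb
    have hLL : LL k = a + b := by
      unfold LL
      rw [sum_add_distrib]
    have a2' : I n 4 (PA u k - (1 - u * a)) := a2
    have b2' : I n 4 (PB u k - (1 - u * b)) := b2
    have hPAO : PA u k ∈ O n := by
      have := add_mem a2'.mem (sub_mem (one_mem (O n)) (mul_mem huI.mem a1))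
      simpa using this
    have hPBO : PB u k ∈ O n := by
      have := add_mem b2'.mem (sub_mem (one_mem (O n)) (mul_mem huI.mem b1))
      simpa using this
    have hPB1 : I n 1 (PB u k - 1) := by
      have h1 := (b2'.mono (l := 1) (by norm_num)).sub ((huI.mono (l := 1) (by norm_num)).mulR b1)
      have e : PB u k - (1 - u * b) - u * b = PB u k - 1 := by ring
      rwa [e] at h1
    have hPBU : U n (PB u k) := by
      apply U_of_not_I hPBO
      intro h1
      apply not_I_one (n := n)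
      have := h1.sub hPB1
      simpa using this
    have key : I n 4 (2 * PA u k - PA u k / PB u k - 1 + u * (a + b)) := by
      apply I.cancel hPBU.1 hPBU.2.2
      have e : PB u k * (2 * PA u k - PA u k / PB u k - 1 + u * (a + b)) =
          2 * ((PA u k - (1 - u * a)) * PB u k) + 2 * ((1 - u * a) * (PB u k - (1 - u * b))) -
          (PA u k - (1 - u * a)) - (PB u k - (1 - u * b)) + (u * (a + b)) * (PB u k - (1 - u * b)) +
          (u * u) * (2 * a * b - (a + b) * b) := by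
        have := hPBU.1
        field_simp
        ring
      rw [e]
      have t1 := ((a2'.mulR hPBO).mulL (natCast_mem (O n) 2))
      have t2 := ((b2'.mulL (sub_mem (one_mem _) (mul_mem huI.mem a1))).mulL (natCast_mem (O n) 2))
      have t3 := b2'.mulL (mul_mem huI.mem (add_mem a1 b1))
      have t4 := (huI.mul huI).mulR (sub_mem (mul_mem (mul_mem (natCast_mem (O n) 2) a1) b1)
        (mul_mem (add_mem a1 b1) b1))
      push_cast at t1 t2 t4
      exact ((((t1.add t2).sub a2').sub b2').add t3).add t4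
    have hT := O_tB m n hn hm k (by omega)
    have e : 2 * tB Q 1 k - tB Q Q k - tB 1 1 k + u * (tB 1 1 k * LL k) =
        tB 1 1 k * (2 * PA u k - PA u k / PB u k - 1 + u * (a + b)) := by
      rw [tB_one hq0, tB_two hq0, hLL]
      ring
    rw [e]
    have := key.mulL hT
    exact (J_nat_iff.2 this).mono (by norm_num)
  have hzero : ∀ b : K, ∀ k, 2 * m + 1 ≤ k → tB Q b k = 0 := by
    intro b k hk
    have h0 : poch (q / Q) (q ^ 2) k = 0 := by
      unfold poch
      apply prod_eq_zero (mem_range.2 (by omega : 2 * m < k))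
      rw [hQ, hn]
      have : (q : K) ^ (4 * m + 1) ≠ 0 := pow_ne_zero _ q_ne
      rw [sub_eq_zero, eq_comm, div_mul_eq_mul_div, div_eq_one_iff_eq this]
      ring
    unfold tB
    rw [h0]
    simp
  have hhigh : ∀ k ∈ Ico (2 * m + 1) n, J n 3 (2 * tB Q 1 k - tB Q Q k - tB 1 1 k) := by
    intro k hk
    rw [mem_Ico] at hk
    rw [hzero _ k hk.1, hzero _ k hk.1, mul_zero, sub_zero, zero_sub]
    exact (J3_tB m n hn hm k hk.2 (by omega)).neg
  have e : q ^ (2 * m) * (2 * gg 1 m - gg Q m) -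
      (FB n 1 1 - (1 - Q) ^ 2 / Q * ∑ k ∈ range (2 * m + 1), tB 1 1 k * LL k) =
      ∑ k ∈ range (2 * m + 1), (2 * tB Q 1 k - tB Q Q k - tB 1 1 k + u * (tB 1 1 k * LL k)) +
      ∑ k ∈ Ico (2 * m + 1) n, (2 * tB Q 1 k - tB Q Q k - tB 1 1 k) := by
    have e1 : q ^ (2 * m) * (2 * gg 1 m - gg Q m) = 2 * FB n Q 1 - FB n Q Q := by
      rw [hw1, hw2]; ring
    have e2 : ∑ k ∈ range n, (2 * tB Q 1 k - tB Q Q k - tB 1 1 k) =
        2 * FB n Q 1 - FB n Q Q - FB n 1 1 := by
      unfold FB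
      rw [sum_sub_distrib, sum_sub_distrib, mul_sum]
    rw [sum_add_distrib, ← mul_sum, e1, ← hu]
    have e3 := sum_range_add_sum_Ico (fun k => (2 * tB Q 1 k - tB Q Q k - tB 1 1 k))
      (show 2 * m + 1 ≤ n by omega)
    rw [e2] at e3
    linear_combination -e3
  rw [e]
  exact (J.sum hlow).add (J.sum hhigh)

end Pool.Agent.R618.SC
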