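import Pool.Agent.R618.SC.Good

set_option autoImplicit false

/-!
Integer polynomials for the two sums, and the final step (for MP_9a1728_nt).
-/

namespace Pool.Agent.R618.SC

open Finset Polynomial Pool.Agent.R439

/-- rising factorial of a rational number -/
def ris (a : ℚ) (k : ℕ) : ℚ := ∏ i ∈ range k, (a + i)

/-- `∏_{i<k} [s i + a]` -/
noncomputable def gpz (a s k : ℕ) : ℤ[X] := ∏ i ∈ range k, gz (s * i + a)

/-- `∏_{k ≤ i < M} [s i + a]` -/
noncomputable def gpt (a s k M : ℕ) : ℤ[X] := ∏ i ∈ Ico k M, gz (s * i + a)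

theorem gpz_gpt {a s k M : ℕ} (h : k ≤ M) : gpz a s k * gpt a s k M = gpz a s M :=
  prod_range_mul_prod_Ico _ h

theorem oq_ne : (1 - q : K) ≠ 0 := by
  have := one_sub_pow_ne (j := 1) one_ne_zero
  rwa [pow_one] at this

theorem ez_gpz (a s k : ℕ) : ez (gpz a s k) = poch (q ^ a) (q ^ s) k / (1 - q) ^ k := by
  rw [gpz, map_prod, poch, ← card_range k, ← prod_const, card_range, ← prod_div_distrib]
  refine prod_congr rfl fun i _ => ?_
  rw [ez_gz]
  congr 2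
  rw [← pow_mul, ← pow_add, add_comm]

theorem poch_ne_nat {a s k : ℕ} (ha : 0 < a) : poch (q ^ a : K) (q ^ s) k ≠ 0 := by
  refine poch_ne fun i _ => ?_
  rw [← pow_mul, ← pow_add]
  exact q_pow_ne_one (by omega)

theorem ez_gpz_ne {a s k : ℕ} (ha : 0 < a) : ez (gpz a s k) ≠ 0 := by
  rw [ez_gpz]
  exact div_ne_zero (poch_ne_nat ha) (pow_ne_zero _ oq_ne)

theorem ez_gpt {a s k M : ℕ} (ha : 0 < a) (h : k ≤ M) :
    ez (gpt a s k M) = ez (gpz a s M) / ez (gpz a s k) := by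
  rw [eq_div_iff (ez_gpz_ne ha), ← gpz_gpt h, map_mul, mul_comm]

theorem gpz_one {a s : ℕ} (hs : 0 < s) (k : ℕ) :
    (((gpz a s k).eval 1 : ℤ) : ℚ) = (s : ℚ) ^ k * ris ((a : ℚ) / s) k := by
  rw [gpz, eval_prod, ris, ← card_range k, ← prod_const, card_range, ← prod_mul_distrib]
  push_cast
  refine prod_congr rfl fun i _ => ?_
  rw [gz_one]
  have : (s : ℚ) ≠ 0 := by positivity
  push_cast
  field_simp
  ring

theorem gpz_one_ne {a s : ℕ} (ha : 0 < a) (k : ℕ) : (((gpz a s k).eval 1 : ℤ) : ℚ) ≠ 0 := by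
  rw [gpz, eval_prod]
  push_cast
  refine prod_ne_zero_iff.2 fun i _ => ?_
  rw [gz_one]
  have : s * i + a ≠ 0 := by omega
  exact_mod_cast this

theorem gpt_one {a s k M : ℕ} (ha : 0 < a) (h : k ≤ M) :
    (((gpt a s k M).eval 1 : ℤ) : ℚ) = (((gpz a s M).eval 1 : ℤ) : ℚ) / (((gpz a s k).eval 1 : ℤ) : ℚ) := by
  rw [eq_div_iff (gpz_one_ne ha k), ← gpz_gpt h, eval_mul]
  push_cast; ring

theorem ris_ne {a : ℚ} (ha : 0 < a) (k : ℕ) : ris a k ≠ 0 := by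
  refine prod_ne_zero_iff.2 fun i _ => ?_
  positivity

theorem ris_fact (k : ℕ) : ris 1 k = (k.factorial : ℚ) := by
  induction k with
  | zero => simp [ris]
  | succ k ih =>
    rw [ris, prod_range_succ, ← ris, ih, Nat.factorial_succ]
    push_cast; ring

/-- common denominators -/
noncomputable def WA (M : ℕ) : ℤ[X] := gpz 4 4 M ^ 5 * gpz 3 4 M

noncomputable def WB (M : ℕ) : ℤ[X] := gpz 2 2 M ^ 2 * gpz 4 4 M

noncomputable def zA (M k : ℕ) : ℤ[X] := gz (8 * k + 1) * gpz 1 4 k ^ 5 * gpz 2 4 k *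
  gpt 4 4 k M ^ 5 * gpt 3 4 k M * X ^ (4 * k)

noncomputable def zB (M k : ℕ) : ℤ[X] := gpz 1 2 k ^ 2 * gpz 2 4 k *
  gpt 2 2 k M ^ 2 * gpt 4 4 k M * X ^ (2 * k)

theorem ez_zA {M k : ℕ} (h : k ≤ M) : ez (zA M k) = ez (WA M) * (cf k * pr 1 k * pr 1 k) := by
  rw [zA, WA, map_mul, map_mul, map_mul, map_mul, map_mul, map_mul, map_pow, map_pow, map_pow,
    map_pow, ez_gpt (by norm_num) h, ez_gpt (by norm_num) h, ez_gz, ez_X, ez_gpz 1 4 k,
    ez_gpz 2 4 k, ez_gpz 4 4 k, ez_gpz 3 4 k, cf, pr, one_mul, div_one, one_mul, div_one, pow_one]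
  have h3 := poch_ne_nat (a := 3) (s := 4) (k := k) (by norm_num)
  have h4 := poch_ne_nat (a := 4) (s := 4) (k := k) (by norm_num)
  have hq := oq_ne
  generalize ez (gpz 4 4 M) = g4
  generalize ez (gpz 3 4 M) = g3
  generalize poch (q ^ 3 : K) (q ^ 4) k = p3 at *
  generalize poch (q ^ 4 : K) (q ^ 4) k = p4 at *
  generalize poch (q ^ 2 : K) (q ^ 4) k = p2 at *
  generalize poch (q : K) (q ^ 4) k = p1 at *
  field_simp

theorem ez_zB {M k : ℕ} (h : k ≤ M) : ez (zB M k) = ez (WB M) * tB 1 1 k := by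
  rw [zB, WB, map_mul, map_mul, map_mul, map_mul, map_mul, map_pow, map_pow, map_pow,
    map_pow, ez_gpt (by norm_num) h, ez_gpt (by norm_num) h, ez_X, ez_gpz 1 2 k,
    ez_gpz 2 4 k, ez_gpz 2 2 k, ez_gpz 4 4 k, tB, one_mul, div_one, one_mul, div_one, pow_one]
  have h3 := poch_ne_nat (a := 2) (s := 2) (k := k) (by norm_num)
  have h4 := poch_ne_nat (a := 4) (s := 4) (k := k) (by norm_num)
  have hq := oq_ne
  generalize ez (gpz 4 4 M) = g4
  generalize ez (gpz 2 2 M) = g2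
  generalize poch (q ^ 4 : K) (q ^ 4) k = p4 at *
  generalize poch (q ^ 2 : K) (q ^ 2) k = p22 at *
  generalize poch (q ^ 2 : K) (q ^ 4) k = p2 at *
  generalize poch (q : K) (q ^ 2) k = p1 at *
  field_simp

/-- the summand of the first sum -/
def tAq (k : ℕ) : ℚ := (8 * k + 1) * (ris (1 / 4) k ^ 5 * ris (1 / 2) k) /
  (ris (3 / 4) k * (k.factorial : ℚ) ^ 5)

/-- the summand of the second sum -/
def tBq (k : ℕ) : ℚ := ris (1 / 2) k ^ 3 / (k.factorial : ℚ) ^ 3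

theorem zA_one {M k : ℕ} (h : k ≤ M) :
    (((zA M k).eval 1 : ℤ) : ℚ) = (((WA M).eval 1 : ℤ) : ℚ) * tAq k := by
  rw [zA, WA, tAq]
  simp only [eval_mul, eval_pow, eval_X, one_pow, mul_one, gz_one]
  push_cast
  rw [gpt_one (by norm_num) h, gpt_one (by norm_num) h, gpz_one (a := 1) (s := 4) (by norm_num) k,
    gpz_one (a := 2) (s := 4) (by norm_num) k, gpz_one (a := 4) (s := 4) (by norm_num) k,
    gpz_one (a := 3) (s := 4) (by norm_num) k, ← ris_fact]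
  generalize (((gpz 4 4 M).eval 1 : ℤ) : ℚ) = g4
  generalize (((gpz 3 4 M).eval 1 : ℤ) : ℚ) = g3
  have e1 : ((4 : ℕ) : ℚ) / (4 : ℕ) = 1 := by norm_num
  have e2 : ((2 : ℕ) : ℚ) / (4 : ℕ) = 1 / 2 := by norm_num
  have e3 : ((1 : ℕ) : ℚ) / (4 : ℕ) = 1 / 4 := by norm_num
  have e4 : ((3 : ℕ) : ℚ) / (4 : ℕ) = 3 / 4 := by norm_num
  rw [e1, e2, e3, e4]
  have h1 := ris_ne (a := 1) (by norm_num) k
  have h3 := ris_ne (a := 3 / 4) (by norm_num) k
  have h4 : (((4 : ℕ) : ℚ)) ^ k ≠ 0 := by positivity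
  generalize (((4 : ℕ) : ℚ)) ^ k = z at *
  generalize ris 1 k = r1 at *
  generalize ris (3 / 4) k = r3 at *
  generalize ris (1 / 4) k = r4 at *
  generalize ris (1 / 2) k = r2 at *
  field_simp

theorem zB_one {M k : ℕ} (h : k ≤ M) :
    (((zB M k).eval 1 : ℤ) : ℚ) = (((WB M).eval 1 : ℤ) : ℚ) * tBq k := by
  rw [zB, WB, tBq]
  simp only [eval_mul, eval_pow, eval_X, one_pow, mul_one]
  push_cast
  rw [gpt_one (by norm_num) h, gpt_one (by norm_num) h, gpz_one (a := 1) (s := 2) (by norm_num) k,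
    gpz_one (a := 2) (s := 4) (by norm_num) k, gpz_one (a := 2) (s := 2) (by norm_num) k,
    gpz_one (a := 4) (s := 4) (by norm_num) k, ← ris_fact]
  generalize (((gpz 4 4 M).eval 1 : ℤ) : ℚ) = g4
  generalize (((gpz 2 2 M).eval 1 : ℤ) : ℚ) = g2
  have e1 : ((4 : ℕ) : ℚ) / (4 : ℕ) = 1 := by norm_num
  have e2 : ((2 : ℕ) : ℚ) / (4 : ℕ) = 1 / 2 := by norm_num
  have e3 : ((1 : ℕ) : ℚ) / (2 : ℕ) = 1 / 2 := by norm_num
  have e4 : ((2 : ℕ) : ℚ) / (2 : ℕ) = 1 := by norm_num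
  rw [e1, e2, e3, e4]
  have h1 := ris_ne (a := 1) (by norm_num) k
  have h4 : (((4 : ℕ) : ℚ)) ^ k ≠ 0 := by positivity
  have h2 : (((2 : ℕ) : ℚ)) ^ k ≠ 0 := by positivity
  generalize (((4 : ℕ) : ℚ)) ^ k = z at *
  generalize (((2 : ℕ) : ℚ)) ^ k = y at *
  generalize ris 1 k = r1 at *
  generalize ris (1 / 2) k = r2 at *
  field_simp

/-- the two sums as integer polynomials -/
noncomputable def PAz (n : ℕ) : ℤ[X] := ∑ k ∈ range n, zA (n - 1) k

noncomputable def PBz (n : ℕ) : ℤ[X] := ∑ k ∈ range n, zB (n - 1) k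

theorem ez_PAz (n : ℕ) : ez (PAz n) = ez (WA (n - 1)) * FA n 1 1 := by
  rw [PAz, map_sum, FA, mul_sum]
  exact sum_congr rfl fun k hk => ez_zA (by have := mem_range.1 hk; omega)

theorem ez_PBz (n : ℕ) : ez (PBz n) = ez (WB (n - 1)) * FB n 1 1 := by
  rw [PBz, map_sum, FB, mul_sum]
  exact sum_congr rfl fun k hk => ez_zB (by have := mem_range.1 hk; omega)

theorem PAz_one (n : ℕ) : (((PAz n).eval 1 : ℤ) : ℚ) =
    (((WA (n - 1)).eval 1 : ℤ) : ℚ) * ∑ k ∈ range n, tAq k := by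
  rw [PAz, eval_finsetSum, mul_sum]
  push_cast
  exact sum_congr rfl fun k hk => zA_one (by have := mem_range.1 hk; omega)

theorem PBz_one (n : ℕ) : (((PBz n).eval 1 : ℤ) : ℚ) =
    (((WB (n - 1)).eval 1 : ℤ) : ℚ) * ∑ k ∈ range n, tBq k := by
  rw [PBz, eval_finsetSum, mul_sum]
  push_cast
  exact sum_congr rfl fun k hk => zB_one (by have := mem_range.1 hk; omega)

theorem WA_one_ne (M : ℕ) : (((WA M).eval 1 : ℤ) : ℚ) ≠ 0 := by
  rw [WA, eval_mul, eval_pow]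
  push_cast
  exact mul_ne_zero (pow_ne_zero _ (gpz_one_ne (by norm_num) _)) (gpz_one_ne (by norm_num) _)

theorem WB_one_ne (M : ℕ) : (((WB M).eval 1 : ℤ) : ℚ) ≠ 0 := by
  rw [WB, eval_mul, eval_pow]
  push_cast
  exact mul_ne_zero (pow_ne_zero _ (gpz_one_ne (by norm_num) _)) (gpz_one_ne (by norm_num) _)

end Pool.Agent.R618.SC
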