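import Pool.Agent.R618.SC.LIM

set_option autoImplicit false

/-!
Integer polynomials whose value at `1` has a `p`-adic valuation controlled by the orders at
`Φ_(p^s)`, `s ≤ r` (for MP_9a1728_nt).
-/

namespace Pool.Agent.R618.SC

open Finset Polynomial Pool.Agent.R439

/-- the valuation of `W(1)` is at most `δ` more than the sum of the orders of `W` at `Φ_(p^s)`,
`1 ≤ s ≤ r` -/
def Good (p r : ℕ) [Fact p.Prime] (W : ℤ[X]) (δ : ℕ) : Prop :=
  ∃ (c : ℕ → ℕ) (b : ℕ) (w' : ℤ), (∀ s : ℕ, 1 ≤ s → s ≤ r → ∀ [NeZero (p ^ s)],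
    E (p ^ s) (c s) (ez W)) ∧ W.eval 1 = (p : ℤ) ^ b * w' ∧ ¬ (p : ℤ) ∣ w' ∧
    b ≤ ∑ s ∈ Icc 1 r, c s + δ

variable {p r : ℕ} [Fact p.Prime]

theorem Good.mul {W V : ℤ[X]} {δ ε : ℕ} (h : Good p r W δ) (h' : Good p r V ε) :
    Good p r (W * V) (δ + ε) := by
  obtain ⟨c, b, w', h1, h2, h3, h4⟩ := h
  obtain ⟨c', b', v', h1', h2', h3', h4'⟩ := h'
  refine ⟨fun s => c s + c' s, b + b', w' * v', fun s hs1 hs2 _ => ?_, ?_, ?_, ?_⟩
  · rw [map_mul]
    exact ((h1 s hs1 hs2).mul (h1' s hs1 hs2)).of_eq (by push_cast; ring)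
  · rw [eval_mul, h2, h2']; ring
  · intro hd
    rcases (Nat.prime_iff_prime_int.1 (Fact.out : p.Prime)).dvd_or_dvd hd with h | h
    · exact h3 h
    · exact h3' h
  · rw [sum_add_distrib]; omega

theorem Good.one : Good p r (1 : ℤ[X]) 0 := by
  refine ⟨fun _ => 0, 0, 1, fun s _ _ _ => ?_, by simp, ?_, by simp⟩
  · rw [map_one]; exact E_one
  · intro h
    exact (Nat.prime_iff_prime_int.1 (Fact.out : p.Prime)).not_isUnit (isUnit_of_dvd_one h)

theorem Good.pow {W : ℤ[X]} {δ : ℕ} (h : Good p r W δ) (k : ℕ) : Good p r (W ^ k) (k * δ) := by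
  induction k with
  | zero => rw [pow_zero, zero_mul]; exact Good.one
  | succ k ih => rw [pow_succ, Nat.succ_mul]; exact ih.mul h

theorem Good.prod {ι : Type*} {s : Finset ι} {f : ι → ℤ[X]} {δ : ι → ℕ}
    (h : ∀ i ∈ s, Good p r (f i) (δ i)) : Good p r (∏ i ∈ s, f i) (∑ i ∈ s, δ i) := by
  classical
  induction s using Finset.induction_on with
  | empty => simpa using Good.one
  | insert a s ha ih =>
    rw [sum_insert ha, prod_insert ha]
    exact (h a (mem_insert_self _ _)).mul (ih fun i hi => h i (mem_insert_of_mem hi))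

theorem Good.mono {W : ℤ[X]} {δ ε : ℕ} (hle : δ ≤ ε) (h : Good p r W δ) : Good p r W ε := by
  obtain ⟨c, b, w', h1, h2, h3, h4⟩ := h
  exact ⟨c, b, w', h1, h2, h3, by omega⟩

theorem Good.C {a : ℤ} (ha : ¬ (p : ℤ) ∣ a) : Good p r (C a) 0 := by
  refine ⟨fun _ => 0, 0, a, fun s _ _ _ => ?_, by simp, ha, by simp⟩
  have h0 : a ≠ 0 := by rintro rfl; exact ha (dvd_zero _)
  have h1 : ez (Polynomial.C a) = ((a : ℚ) : K) := by
    have : (Polynomial.C a : ℤ[X]) = (a : ℤ[X]) := by simp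
    rw [this, map_intCast]; simp
  rw [h1]
  exact (E_of_U (U_rat (by exact_mod_cast h0)))

/-- the polynomial `1 + X + ⋯ + X^(j-1)` -/
noncomputable def gz (j : ℕ) : ℤ[X] := ∑ i ∈ range j, X ^ i

theorem ez_gz (j : ℕ) : ez (gz j) = (1 - q ^ j) / (1 - q) := ez_geom j

theorem gz_one (j : ℕ) : (gz j).eval 1 = j := eval_geom j

theorem one_lt_pow' {s : ℕ} (hs : 1 ≤ s) : 1 < p ^ s :=
  Nat.one_lt_pow (by omega) (Fact.out : p.Prime).one_lt

theorem Good.gz {j δ : ℕ} (hj : 0 < j) (h : ¬ p ^ (r + 1 + δ) ∣ j) : Good p r (gz j) δ := by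
  classical
  have hp : p.Prime := Fact.out
  obtain ⟨v, j', hj', hv⟩ := Nat.exists_eq_pow_mul_and_not_dvd hj.ne' p hp.ne_one
  refine ⟨fun s => if p ^ s ∣ j then 1 else 0, v, j', fun s hs1 hs2 _ => ?_, ?_, ?_, ?_⟩
  · rw [ez_gz]
    have h1 := E_one_sub_ite (d := p ^ s) (e := (j : ℤ)) (by exact_mod_cast hj.ne')
    rw [zpow_natCast] at h1
    have h2 := h1.div (E_q1 (d := p ^ s) (one_lt_pow' hs1))
    refine h2.of_eq ?_
    have h3 : ((p ^ s : ℕ) : ℤ) ∣ (j : ℤ) ↔ p ^ s ∣ j := Int.natCast_dvd_natCast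
    by_cases h4 : p ^ s ∣ j
    · simp only [if_pos (h3.2 h4), if_pos h4]; simp
    · simp only [if_neg (fun h => h4 (h3.1 h)), if_neg h4]; simp
  · rw [gz_one, hv]; push_cast; rfl
  · intro hd; exact hj' (by exact_mod_cast hd)
  · have hvr : v < r + 1 + δ := by
      by_contra hc
      exact h (hv ▸ (pow_dvd_pow p (by omega)).mul_right _)
    have h5 : min v r ≤ ∑ s ∈ Icc 1 r, (if p ^ s ∣ j then 1 else 0) := by
      calc min v r = ∑ s ∈ Icc 1 (min v r), 1 := by simp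
        _ ≤ ∑ s ∈ Icc 1 (min v r), (if p ^ s ∣ j then 1 else 0) := by
            refine sum_le_sum fun s hs => ?_
            have := mem_Icc.1 hs
            rw [if_pos (hv ▸ (pow_dvd_pow p (by omega)).mul_right _)]
        _ ≤ ∑ s ∈ Icc 1 r, (if p ^ s ∣ j then 1 else 0) :=
            sum_le_sum_of_subset (Icc_subset_Icc_right (by omega))
    change v ≤ ∑ s ∈ Icc 1 r, (if p ^ s ∣ j then 1 else 0) + δ
    omega

/-- final step: an element `x` of known orders, with `x W = P`; the valuation of `P(1)/W(1)`. -/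
theorem fin_val {x : K} {P W : ℤ[X]} {δ m : ℕ} {e : ℕ → ℕ} (hx : x * ez W = ez P)
    (hJ : ∀ s : ℕ, 1 ≤ s → s ≤ r → ∀ [NeZero (p ^ s)], J (p ^ s) (e s) x)
    (hW : Good p r W δ) (hm : m + δ ≤ ∑ s ∈ Icc 1 r, e s) :
    ∃ u v : ℤ, ¬ (p : ℤ) ∣ v ∧ ((P.eval 1 : ℤ) : ℚ) = ((W.eval 1 : ℤ) : ℚ) * ((p : ℚ) ^ m * (u / v)) := by
  obtain ⟨c, b, w', h1, h2, h3, h4⟩ := hW
  have hp : p.Prime := Fact.out
  have h5 : (p : ℤ) ^ (∑ s ∈ Icc 1 r, (e s + c s)) ∣ P.eval 1 := by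
    refine lim p r (fun s => e s + c s) P fun s hs1 hs2 _ => ?_
    rw [← hx]
    exact ((hJ s hs1 hs2).mul (h1 s hs1 hs2).J).of_eq (by push_cast; rfl)
  rw [sum_add_distrib] at h5
  have h6 : (p : ℤ) ^ (m + b) ∣ P.eval 1 := (pow_dvd_pow _ (by omega)).trans h5
  obtain ⟨u, hu⟩ := h6
  refine ⟨u, w', h3, ?_⟩
  have hw0 : (w' : ℚ) ≠ 0 := by
    intro h
    apply h3
    have : w' = 0 := by exact_mod_cast h
    rw [this]; exact dvd_zero _
  rw [hu, h2]
  push_cast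
  field_simp
  ring

end Pool.Agent.R618.SC
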