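import Pool.Agent.R618.SC.Defs

set_option autoImplicit false

/-!
INT: divided differences of polynomials with integral coefficients.
-/

namespace Pool.Agent.R618.SC

open Finset Polynomial Pool.Agent.R439

/-- divided differences of a polynomial over a subring -/
theorem dd_mem {F : Type} [Field F] (R : Subring F) {ι : Type} [DecidableEq ι] (s : Finset ι)
    (v : ι → F) (hv : ∀ i, v i ∈ R) (hvs : Set.InjOn v s) (p : F[X]) (hp : ∀ i, p.coeff i ∈ R) :
    ∑ i ∈ s, (p.eval (v i)) / ∏ j ∈ s.erase i, (v i - v j) ∈ R := by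
  classical
  have hp' : (↑p.coeffs : Set F) ⊆ R := by
    intro x hx
    rw [Finset.mem_coe, Polynomial.mem_coeffs_iff] at hx
    obtain ⟨n, -, rfl⟩ := hx
    exact hp n
  let P : R[X] := p.toSubring R hp'
  have hP : P.map R.subtype = p := by
    ext n
    rw [coeff_map]
    show ((p.toSubring R hp').coeff n : F) = _
    rw [Polynomial.coeff_toSubring]
  let v' : ι → R := fun i => ⟨v i, hv i⟩
  let Nd : R[X] := Lagrange.nodal s v'
  have hNd : Nd.Monic := Lagrange.nodal_monic
  let r : R[X] := P %ₘ Nd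
  have hdeg : (r.map R.subtype).degree < #s := by
    refine lt_of_le_of_lt (degree_map_le) ?_
    refine lt_of_lt_of_eq (degree_modByMonic_lt P hNd) ?_
    exact Lagrange.degree_nodal
  have heval : ∀ i ∈ s, (r.map R.subtype).eval (v i) = p.eval (v i) := by
    intro i hi
    have h1 : r + Nd * (P /ₘ Nd) = P := modByMonic_add_div P Nd
    have h2 : r.eval (v' i) = P.eval (v' i) := by
      rw [← h1, eval_add, eval_mul, Lagrange.eval_nodal_at_node hi, zero_mul, add_zero]
    have h3 : ∀ Q : R[X], (Q.map R.subtype).eval (v i) = ((Q.eval (v' i) : R) : F) := by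
      intro Q
      have : v i = R.subtype (v' i) := rfl
      rw [this, eval_map_apply]
      rfl
    rw [h3, h2, ← h3, hP]
  have key := Lagrange.coeff_eq_sum hvs hdeg
  have hsum : ∑ i ∈ s, (p.eval (v i)) / ∏ j ∈ s.erase i, (v i - v j) =
      ∑ i ∈ s, ((r.map R.subtype).eval (v i)) / ∏ j ∈ s.erase i, (v i - v j) :=
    sum_congr rfl fun i hi => by rw [heval i hi]
  rw [hsum, ← key, coeff_map]
  exact (r.coeff (#s - 1)).2

theorem int_ : S_INT := by
  intro d _ Z n c p κ h0 hc hp
  classical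
  have hd0 : (d : ℤ) ≠ 0 := by exact_mod_cast NeZero.ne d
  let v : ℤ → K := fun e => q ^ ((d : ℤ) * e)
  have hv : ∀ e, v e ∈ O d := fun e => zpow_mem _
  have hvne : ∀ e f, e ≠ f → v e - v f ≠ 0 := fun e f h => (E_node (d := d) h).ne
  have hinj : Set.InjOn v Z := by
    intro e _ f _ hef
    by_contra hne
    exact hvne e f hne (sub_eq_zero.2 hef)
  let μ : ℤ → K := fun e => (∏ f ∈ Z.erase e, (v e - v f))⁻¹
  set M : ℤ := (Z.card : ℤ) - 1 with hM
  have hμ : ∀ e ∈ Z, E d (-M) (μ e) := by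
    intro e he
    have h1 : E d (∑ f ∈ Z.erase e, (1 : ℤ)) (∏ f ∈ Z.erase e, (v e - v f)) :=
      E.prod fun f hf => E_node (ne_of_mem_erase hf).symm
    have h2 : (∑ f ∈ Z.erase e, (1 : ℤ)) = M := by
      rw [sum_const, card_erase_of_mem he, nsmul_eq_mul, mul_one,
        Nat.cast_sub (card_pos.2 ⟨e, he⟩)]
      rfl
    rw [h2] at h1
    exact h1.inv
  have hdd : ∀ k < n, ∑ e ∈ Z, μ e * (p k).eval (v e) ∈ O d := by
    intro k hk
    have := dd_mem (O d) Z v hv hinj (p k) (hp k hk)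
    have h2 : ∑ e ∈ Z, μ e * (p k).eval (v e) =
        ∑ i ∈ Z, ((p k).eval (v i)) / ∏ j ∈ Z.erase i, (v i - v j) :=
      sum_congr rfl fun e _ => by rw [div_eq_mul_inv, mul_comm]
    rw [h2]; exact this
  have hv0 : v 0 = 1 := by simp [v]
  constructor
  · intro hG
    have hA : J d κ (∑ e ∈ Z, μ e * ∑ k ∈ range n, c k * (p k).eval (v e)) := by
      have h1 : ∑ e ∈ Z, μ e * ∑ k ∈ range n, c k * (p k).eval (v e) =
          ∑ k ∈ range n, c k * ∑ e ∈ Z, μ e * (p k).eval (v e) := by
        simp_rw [mul_sum]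
        rw [sum_comm]
        exact sum_congr rfl fun k _ => sum_congr rfl fun e _ => by ring
      rw [h1]
      exact J.sum fun k hk => (hc k (mem_range.1 hk)).mulR (hdd k (mem_range.1 hk))
    have hB : J d κ (∑ e ∈ Z.erase 0, μ e * ∑ k ∈ range n, c k * (p k).eval (v e)) := by
      refine J.sum fun e he => ?_
      have h1 := (hμ e (mem_of_mem_erase he)).J.mul (hG e (mem_of_mem_erase he) (ne_of_mem_erase he))
      exact h1.of_eq (by ring)
    rw [← add_sum_erase Z _ h0] at hA
    have hC := hA.sub hB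
    rw [add_sub_cancel_right] at hC
    have hD := J.cancel (hμ 0 h0) hC
    rw [hv0] at hD
    exact hD.of_eq (by ring)
  · intro hG
    have hA : J d κ (∑ x ∈ Z ×ˢ Z, μ x.1 * μ x.2 *
        ∑ k ∈ range n, c k * ((p k).eval (v x.1) * (p k).eval (v x.2))) := by
      have h1 : ∑ x ∈ Z ×ˢ Z, μ x.1 * μ x.2 *
          ∑ k ∈ range n, c k * ((p k).eval (v x.1) * (p k).eval (v x.2)) =
          ∑ k ∈ range n, c k * ((∑ e ∈ Z, μ e * (p k).eval (v e)) *
            ∑ f ∈ Z, μ f * (p k).eval (v f)) := by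
        simp_rw [sum_mul_sum, ← sum_product', mul_sum]
        rw [sum_comm]
        exact sum_congr rfl fun k _ => sum_congr rfl fun x _ => by ring
      rw [h1]
      exact J.sum fun k hk => (hc k (mem_range.1 hk)).mulR
        (mul_mem (hdd k (mem_range.1 hk)) (hdd k (mem_range.1 hk)))
    have h00 : ((0, 0) : ℤ × ℤ) ∈ Z ×ˢ Z := by simp [h0]
    have hB : J d κ (∑ x ∈ (Z ×ˢ Z).erase (0, 0), μ x.1 * μ x.2 *
        ∑ k ∈ range n, c k * ((p k).eval (v x.1) * (p k).eval (v x.2))) := by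
      refine J.sum fun x hx => ?_
      rw [mem_erase, mem_product] at hx
      obtain ⟨hne, h1, h2⟩ := hx
      have hne' : x.1 ≠ 0 ∨ x.2 ≠ 0 := by
        by_contra hcon
        push Not at hcon
        exact hne (Prod.ext hcon.1 hcon.2)
      have h3 := ((hμ x.1 h1).J.mul (hμ x.2 h2).J).mul (hG x.1 h1 x.2 h2 hne')
      exact h3.of_eq (by ring)
    rw [← add_sum_erase _ _ h00] at hA
    have hC := hA.sub hB
    rw [add_sub_cancel_right] at hC
    have hD := J.cancel ((hμ 0 h0).mul (hμ 0 h0)) hC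
    simp only [hv0] at hD
    exact hD.of_eq (by ring)

end Pool.Agent.R618.SC
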