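import Pool.Agent.R618.SC.Defs

set_option autoImplicit false

/-!
SC-JAC for MP_9a1728_nt: Jackson's sum by telescoping in the second parameter.
-/

namespace Pool.Agent.R618.SC

open Finset Polynomial Pool.Agent.R439

section jacgen

variable {F : Type*} [Field F]

theorem jpoch_zero (a s : F) : poch a s 0 = 1 := by simp [poch]

theorem jpoch_succ (a s : F) (k : ℕ) : poch a s (k + 1) = poch a s k * (1 - a * s ^ k) := by
  simp [poch, prod_range_succ]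

theorem jpoch_succ' (a s : F) (k : ℕ) : poch a s (k + 1) = (1 - a) * poch (a * s) s k := by
  unfold poch
  rw [prod_range_succ', mul_comm]
  simp only [pow_zero, mul_one]
  congr 1
  refine prod_congr rfl fun i _ => ?_
  rw [pow_succ]; ring

theorem jpoch_ne {a s : F} (h : ∀ i : ℕ, 1 - a * s ^ i ≠ 0) (k : ℕ) : poch a s k ≠ 0 :=
  prod_ne_zero_iff.2 fun i _ => h i

/-- the summand with `X = P^m` -/
noncomputable def sJ (q b X : F) (k : ℕ) : F :=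
  (1 - q * ((q ^ 4) ^ k) ^ 2) / (1 - q) * (poch q (q ^ 4) k * poch (q ^ 2) (q ^ 4) k) /
    (poch (q ^ 4) (q ^ 4) k * poch (q ^ 3) (q ^ 4) k) * (q ^ 4) ^ k *
    ((poch (q ^ 2 * X) (q ^ 4) k * poch (1 / X) (q ^ 4) k) /
      (poch (q ^ 5 * X) (q ^ 4) k * poch (q ^ 3 / X) (q ^ 4) k)) *
    ((poch (b * q) (q ^ 4) k * poch (q / b) (q ^ 4) k) /
      (poch (b * q ^ 4) (q ^ 4) k * poch (q ^ 4 / b) (q ^ 4) k))

/-- the certificate -/
noncomputable def gJ (q b X : F) (j : ℕ) : F :=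
  (poch q (q ^ 4) (j + 1) * poch (b * q) (q ^ 4) (j + 1) * poch (q / b) (q ^ 4) (j + 1) *
      poch (q ^ 2) (q ^ 4) (j + 1) * (poch (q ^ 6 * X) (q ^ 4) j * poch (1 / X) (q ^ 4) j)) /
    (poch (q ^ 4) (q ^ 4) j * poch (q ^ 4 / b) (q ^ 4) j * poch (b * q ^ 4) (q ^ 4) j *
      poch (q ^ 3) (q ^ 4) j * poch (q ^ 3 / X) (q ^ 4) j * poch (q ^ 9 * X) (q ^ 4) j)

theorem key0 (q c X y : F) :
    (1 - q ^ 9 * y ^ 2) * (q ^ 4 * y) * (1 - q ^ 6 * X * y) * (1 - q ^ 4 * X) *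
      (1 - c * (q ^ 4 * X) + (q ^ 4 * X) ^ 2) * (X - q ^ 3 * y) -
    q ^ 3 * (1 - q ^ 9 * y ^ 2) * (q ^ 4 * y) * (1 - q ^ 2 * X) * (X - y) *
      (1 - c * (q ^ 2 * X) + (q ^ 2 * X) ^ 2) * (1 - q ^ 9 * X * y) =
    q ^ 3 * (-(q * X * (1 + q ^ 3 * X))) *
      ((1 - q ^ 5 * y) * (1 - c * (q ^ 5 * y) + (q ^ 5 * y) ^ 2) * (1 - q ^ 6 * y) *
          (1 - q ^ 6 * X * y) * (X - y) -
        (1 - q ^ 4 * y) * (1 - q ^ 3 * y) * (1 - c * (q ^ 4 * y) + (q ^ 4 * y) ^ 2) *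
          (1 - q ^ 9 * X * y) * (X - q ^ 3 * y)) := by
  ring

theorem alg (A B D4 D2 N t U M4 M2 XY X3 E9 C G H R q : F) (hA : A ≠ 0) (hB : B ≠ 0)
    (hX3 : X3 ≠ 0) (hE : E9 ≠ 0) (hC : C ≠ 0) (hR : R ≠ 0) (hq : q ≠ 0)
    (k : N * t * U * M4 * D4 * X3 - q ^ 3 * N * t * M2 * XY * D2 * E9 =
      q ^ 3 * G * (H * U * XY - C * E9 * X3)) :
    A * D4 * (N / R * t * (U * M4 * q) / (E9 * (A * q ^ 4) * C)) -
      B * D2 * (N / R * t * (M2 * XY) / (B * X3 * C)) =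
    G / R * (H * U * XY / (C * X3 * E9) - 1) := by
  have h : A * D4 * (N / R * t * (U * M4 * q) / (E9 * (A * q ^ 4) * C)) -
      B * D2 * (N / R * t * (M2 * XY) / (B * X3 * C)) -
      G / R * (H * U * XY / (C * X3 * E9) - 1) =
      (N * t * U * M4 * D4 * X3 - q ^ 3 * N * t * M2 * XY * D2 * E9 -
      q ^ 3 * G * (H * U * XY - C * E9 * X3)) / (R * C * X3 * E9 * q ^ 3) := by
    field_simp
  rw [← sub_eq_zero, h, sub_eq_zero.2 k, zero_div]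

/-- division form of `key0` -/
theorem key1 (q b X y : F) (hq : q ≠ 0) (hb : b ≠ 0) (h1 : 1 - q ≠ 0)
    (h1X : 1 - q * X ≠ 0) (h5X : 1 - q ^ 5 * X ≠ 0)
    (hc1 : 1 - q ^ 4 * y ≠ 0) (hc2 : 1 - q ^ 3 * y ≠ 0) (hd1 : 1 - b * q ^ 4 * y ≠ 0)
    (hd2 : 1 - q ^ 4 * y / b ≠ 0) (he : 1 - q ^ 9 * X * y ≠ 0) (hf : X - q ^ 3 * y ≠ 0) :
    (1 - q * X) * ((1 - b * q ^ 4 * X) * (1 - q ^ 4 * X / b)) *
        ((1 - q ^ 9 * y ^ 2) / (1 - q) * (q ^ 4 * y) *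
          ((1 - q ^ 6 * X * y) * (1 - q ^ 4 * X) * q) /
          ((1 - q ^ 9 * X * y) * ((1 - q * X) * q ^ 4) *
            ((1 - q ^ 4 * y) * (1 - q ^ 3 * y) * ((1 - b * q ^ 4 * y) * (1 - q ^ 4 * y / b))))) -
      (1 - q ^ 5 * X) * ((1 - b * q ^ 2 * X) * (1 - q ^ 2 * X / b)) *
        ((1 - q ^ 9 * y ^ 2) / (1 - q) * (q ^ 4 * y) *
          ((1 - q ^ 2 * X) * (X - y)) /
          ((1 - q ^ 5 * X) * (X - q ^ 3 * y) *
            ((1 - q ^ 4 * y) * (1 - q ^ 3 * y) * ((1 - b * q ^ 4 * y) * (1 - q ^ 4 * y / b))))) =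
    -(q * X * (1 + q ^ 3 * X)) / (1 - q) *
      ((1 - q ^ 5 * y) * ((1 - b * q ^ 5 * y) * (1 - q ^ 5 * y / b)) * (1 - q ^ 6 * y) *
          (1 - q ^ 6 * X * y) * (X - y) /
          ((1 - q ^ 4 * y) * (1 - q ^ 3 * y) * ((1 - b * q ^ 4 * y) * (1 - q ^ 4 * y / b)) *
            (X - q ^ 3 * y) * (1 - q ^ 9 * X * y)) - 1) := by
  have e1 : ∀ t : F, (1 - b * t) * (1 - t / b) = 1 - (b + 1 / b) * t + t ^ 2 := by
    intro t; field_simp; ring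
  have e3 : ∀ i : ℕ, ∀ t : F, (1 - b * q ^ i * t) * (1 - q ^ i * t / b) =
      1 - (b + 1 / b) * (q ^ i * t) + (q ^ i * t) ^ 2 := by
    intro i t; rw [← e1]; ring
  refine alg _ _ _ _ _ _ _ _ _ _ _ _ _ _ _ _ _ h1X h5X hf he
    (mul_ne_zero (mul_ne_zero hc1 hc2) (mul_ne_zero hd1 hd2)) h1 hq ?_
  rw [e3, e3, e3, e3]
  have k := key0 q (b + 1 / b) X y
  generalize b + 1 / b = c at k ⊢
  linear_combination k

theorem wz (q b X : F) (j : ℕ) (hq : q ≠ 0) (hb : b ≠ 0) (hX : X ≠ 0) (h1 : 1 - q ≠ 0)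
    (h1X : 1 - q * X ≠ 0) (h5X : 1 - q ^ 5 * X ≠ 0)
    (hc1 : ∀ i : ℕ, 1 - q ^ 4 * (q ^ 4) ^ i ≠ 0) (hc2 : ∀ i : ℕ, 1 - q ^ 3 * (q ^ 4) ^ i ≠ 0)
    (hd1 : ∀ i : ℕ, 1 - b * q ^ 4 * (q ^ 4) ^ i ≠ 0)
    (hd2 : ∀ i : ℕ, 1 - q ^ 4 / b * (q ^ 4) ^ i ≠ 0)
    (he : ∀ i : ℕ, 1 - q ^ 9 * X * (q ^ 4) ^ i ≠ 0)
    (hf : ∀ i : ℕ, 1 - q ^ 3 / X * (q ^ 4) ^ i ≠ 0) :
    (1 - q * X) * ((1 - b * q ^ 4 * X) * (1 - q ^ 4 * X / b)) * sJ q b (q ^ 4 * X) (j + 1) -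
      (1 - q ^ 5 * X) * ((1 - b * q ^ 2 * X) * (1 - q ^ 2 * X / b)) * sJ q b X (j + 1) =
    -(q * X * (1 + q ^ 3 * X)) / (1 - q) * (gJ q b X (j + 1) - gJ q b X j) := by
  have hX' : q ^ 4 * X ≠ 0 := mul_ne_zero (pow_ne_zero _ hq) hX
  have pe1 : poch (q ^ 2 * X) (q ^ 4) (j + 1) = (1 - q ^ 2 * X) * poch (q ^ 6 * X) (q ^ 4) j := by
    rw [jpoch_succ']; congr 2; ring
  have pe2 : poch (q ^ 5 * X) (q ^ 4) (j + 1) = (1 - q ^ 5 * X) * poch (q ^ 9 * X) (q ^ 4) j := by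
    rw [jpoch_succ']; congr 2; ring
  have pe3 : poch (q ^ 2 * (q ^ 4 * X)) (q ^ 4) (j + 1) =
      poch (q ^ 6 * X) (q ^ 4) j * (1 - q ^ 6 * X * (q ^ 4) ^ j) := by
    have : q ^ 2 * (q ^ 4 * X) = q ^ 6 * X := by ring
    rw [this, jpoch_succ]
  have pe4 : poch (q ^ 5 * (q ^ 4 * X)) (q ^ 4) (j + 1) =
      poch (q ^ 9 * X) (q ^ 4) j * (1 - q ^ 9 * X * (q ^ 4) ^ j) := by
    have : q ^ 5 * (q ^ 4 * X) = q ^ 9 * X := by ring
    rw [this, jpoch_succ]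
  have pe5 : poch (1 / (q ^ 4 * X)) (q ^ 4) (j + 1) =
      (1 - 1 / (q ^ 4 * X)) * poch (1 / X) (q ^ 4) j := by
    rw [jpoch_succ']; congr 2; field_simp
  have pe6 : poch (q ^ 3 / (q ^ 4 * X)) (q ^ 4) (j + 1) =
      (1 - q ^ 3 / (q ^ 4 * X)) * poch (q ^ 3 / X) (q ^ 4) j := by
    rw [jpoch_succ']; congr 2; field_simp
  have n1 := jpoch_ne hc1 j
  have n2 := jpoch_ne hc2 j
  have n3 := jpoch_ne hd1 j
  have n4 := jpoch_ne hd2 j
  have n5 := jpoch_ne he j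
  have n6 := jpoch_ne hf j
  have k1 := hc1 j
  have k2 := hc2 j
  have k3 := hd1 j
  have k4 : 1 - q ^ 4 * (q ^ 4) ^ j / b ≠ 0 := by
    have := hd2 j
    intro h; apply this; rw [← h]; ring
  have k5 := he j
  have k6 : X - q ^ 3 * (q ^ 4) ^ j ≠ 0 := by
    have := hf j
    intro h; apply this
    have : (1 : F) - q ^ 3 / X * (q ^ 4) ^ j = (X - q ^ 3 * (q ^ 4) ^ j) / X := by
      field_simp
    rw [this, h, zero_div]
  have K := key1 q b X ((q ^ 4) ^ j) hq hb h1 h1X h5X k1 k2 k3 k4 k5 k6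
  set y : F := (q ^ 4) ^ j with hy
  -- the common factor
  set a1 := poch q (q ^ 4) j with ha1
  set a2 := poch (q ^ 2) (q ^ 4) j with ha2
  set b1 := poch (b * q) (q ^ 4) j with hb1
  set b2 := poch (q / b) (q ^ 4) j with hb2
  set c1 := poch (q ^ 4) (q ^ 4) j with hcc1
  set c2 := poch (q ^ 3) (q ^ 4) j with hcc2
  set d1 := poch (b * q ^ 4) (q ^ 4) j with hdd1
  set d2 := poch (q ^ 4 / b) (q ^ 4) j with hdd2
  set u := poch (q ^ 6 * X) (q ^ 4) j with hu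
  set v := poch (1 / X) (q ^ 4) j with hv
  set e := poch (q ^ 9 * X) (q ^ 4) j with hee
  set f := poch (q ^ 3 / X) (q ^ 4) j with hff
  have hys : (q ^ 4) ^ (j + 1) = q ^ 4 * y := by rw [hy, pow_succ]; ring
  have A1 : poch q (q ^ 4) (j + 1) = a1 * (1 - q * y) := jpoch_succ _ _ _
  have A2 : poch (q ^ 2) (q ^ 4) (j + 1) = a2 * (1 - q ^ 2 * y) := jpoch_succ _ _ _
  have B1 : poch (b * q) (q ^ 4) (j + 1) = b1 * (1 - b * q * y) := jpoch_succ _ _ _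
  have B2 : poch (q / b) (q ^ 4) (j + 1) = b2 * (1 - q * y / b) := by
    rw [jpoch_succ, ← hy, ← hb2]; ring
  have C1 : poch (q ^ 4) (q ^ 4) (j + 1) = c1 * (1 - q ^ 4 * y) := jpoch_succ _ _ _
  have C2 : poch (q ^ 3) (q ^ 4) (j + 1) = c2 * (1 - q ^ 3 * y) := jpoch_succ _ _ _
  have D1 : poch (b * q ^ 4) (q ^ 4) (j + 1) = d1 * (1 - b * q ^ 4 * y) := jpoch_succ _ _ _
  have D2 : poch (q ^ 4 / b) (q ^ 4) (j + 1) = d2 * (1 - q ^ 4 * y / b) := by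
    rw [jpoch_succ, ← hy, ← hdd2]; ring
  have U1 : poch (q ^ 6 * X) (q ^ 4) (j + 1) = u * (1 - q ^ 6 * X * y) := jpoch_succ _ _ _
  have V1 : poch (1 / X) (q ^ 4) (j + 1) = v * ((X - y) / X) := by
    rw [jpoch_succ, ← hy, ← hv]; field_simp
  have E1 : poch (q ^ 9 * X) (q ^ 4) (j + 1) = e * (1 - q ^ 9 * X * y) := jpoch_succ _ _ _
  have F1 : poch (q ^ 3 / X) (q ^ 4) (j + 1) = f * ((X - q ^ 3 * y) / X) := by
    rw [jpoch_succ, ← hy, ← hff]; field_simp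
  have A1' : poch q (q ^ 4) (j + 1 + 1) = a1 * (1 - q * y) * (1 - q ^ 5 * y) := by
    rw [jpoch_succ, A1, hys]; ring
  have A2' : poch (q ^ 2) (q ^ 4) (j + 1 + 1) = a2 * (1 - q ^ 2 * y) * (1 - q ^ 6 * y) := by
    rw [jpoch_succ, A2, hys]; ring
  have B1' : poch (b * q) (q ^ 4) (j + 1 + 1) = b1 * (1 - b * q * y) * (1 - b * q ^ 5 * y) := by
    rw [jpoch_succ, B1, hys]; ring
  have B2' : poch (q / b) (q ^ 4) (j + 1 + 1) = b2 * (1 - q * y / b) * (1 - q ^ 5 * y / b) := by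
    rw [jpoch_succ, B2, hys]; ring
  have G1 : 1 - 1 / (q ^ 4 * X) = -(1 - q ^ 4 * X) / (q ^ 4 * X) := by field_simp; ring
  have G2 : 1 - q ^ 3 / (q ^ 4 * X) = -(1 - q * X) / (q * X) := by field_simp; ring
  have G3 : 1 - q * (q ^ 4 * y) ^ 2 = 1 - q ^ 9 * y ^ 2 := by ring
  have s1 : sJ q b (q ^ 4 * X) (j + 1) = (a1 * a2 * b1 * b2 * u * v /
      (c1 * c2 * d1 * d2 * e * f) * ((1 - q * y) *
      (1 - q ^ 2 * y) * (1 - b * q * y) * (1 - q * y / b))) *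
        ((1 - q ^ 9 * y ^ 2) / (1 - q) * (q ^ 4 * y) *
          ((1 - q ^ 6 * X * y) * (1 - q ^ 4 * X) * q) /
          ((1 - q ^ 9 * X * y) * ((1 - q * X) * q ^ 4) *
            ((1 - q ^ 4 * y) * (1 - q ^ 3 * y) * ((1 - b * q ^ 4 * y) *
              (1 - q ^ 4 * y / b))))) := by
    unfold sJ
    rw [pe3, pe4, pe5, pe6, hys, A1, A2, C1, C2, B1, B2, D1, D2, G1, G2, G3]
    have hr : -(1 - q ^ 4 * X) / (q ^ 4 * X) / (-(1 - q * X) / (q * X)) =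
        (1 - q ^ 4 * X) * q / ((1 - q * X) * q ^ 4) := by
      clear * - hq hX h1X
      field_simp
    generalize hr1 : -(1 - q ^ 4 * X) / (q ^ 4 * X) = r1 at hr ⊢
    generalize hr2 : -(1 - q * X) / (q * X) = r2 at hr ⊢
    generalize 1 - q * y = x1
    generalize 1 - q ^ 2 * y = x2
    generalize 1 - q ^ 9 * y ^ 2 = x3
    generalize 1 - b * q * y = x4
    generalize 1 - q * y / b = x5
    generalize 1 - q ^ 6 * X * y = x6
    generalize 1 - q ^ 4 * X = x7 at hr ⊢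
    generalize 1 - q ^ 9 * X * y = x8
    generalize 1 - q * X = x9 at hr ⊢
    generalize 1 - q ^ 4 * y = x10
    generalize 1 - q ^ 3 * y = x11
    generalize 1 - b * q ^ 4 * y = x12
    generalize 1 - q ^ 4 * y / b = x13
    generalize 1 - q = x14
    generalize q ^ 4 * y = x15
    generalize q ^ 4 = x16 at hr ⊢
    clear * - hr
    have h2 : x3 / x14 * (a1 * x1 * (a2 * x2)) / (c1 * x10 * (c2 * x11)) * x15 *
        ((u * x6 * (r1 * v)) / (e * x8 * (r2 * f))) *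
        ((b1 * x4 * (b2 * x5)) / (d1 * x12 * (d2 * x13))) =
        x3 / x14 * (a1 * x1 * (a2 * x2)) / (c1 * x10 * (c2 * x11)) * x15 *
        ((u * x6 * v) / (e * x8 * f)) * ((b1 * x4 * (b2 * x5)) / (d1 * x12 * (d2 * x13))) *
        (r1 / r2) := by ring
    rw [h2, hr]
    ring
  have s0 : sJ q b X (j + 1) = (a1 * a2 * b1 * b2 * u * v /
      (c1 * c2 * d1 * d2 * e * f) * ((1 - q * y) *
      (1 - q ^ 2 * y) * (1 - b * q * y) * (1 - q * y / b))) *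
        ((1 - q ^ 9 * y ^ 2) / (1 - q) * (q ^ 4 * y) *
          ((1 - q ^ 2 * X) * (X - y)) /
          ((1 - q ^ 5 * X) * (X - q ^ 3 * y) *
            ((1 - q ^ 4 * y) * (1 - q ^ 3 * y) * ((1 - b * q ^ 4 * y) *
              (1 - q ^ 4 * y / b))))) := by
    unfold sJ
    rw [pe1, pe2, V1, F1, hys, A1, A2, C1, C2, B1, B2, D1, D2, G3]
    have hr : (X - y) / X / ((X - q ^ 3 * y) / X) = (X - y) / (X - q ^ 3 * y) := by
      clear * - k6 hX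
      field_simp
    generalize hr1 : (X - y) / X = r1 at hr ⊢
    generalize hr2 : (X - q ^ 3 * y) / X = r2 at hr ⊢
    generalize 1 - q * y = x1
    generalize 1 - q ^ 2 * y = x2
    generalize 1 - q ^ 9 * y ^ 2 = x3
    generalize 1 - b * q * y = x4
    generalize 1 - q * y / b = x5
    generalize 1 - q ^ 2 * X = x6
    generalize 1 - q ^ 5 * X = x7
    generalize X - q ^ 3 * y = x8 at hr ⊢
    generalize X - y = x9 at hr ⊢
    generalize 1 - q ^ 4 * y = x10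
    generalize 1 - q ^ 3 * y = x11
    generalize 1 - b * q ^ 4 * y = x12
    generalize 1 - q ^ 4 * y / b = x13
    generalize 1 - q = x14
    generalize q ^ 4 * y = x15
    clear * - hr
    have h2 : x3 / x14 * (a1 * x1 * (a2 * x2)) / (c1 * x10 * (c2 * x11)) * x15 *
        ((x6 * u * (v * r1)) / (x7 * e * (f * r2))) *
        ((b1 * x4 * (b2 * x5)) / (d1 * x12 * (d2 * x13))) =
        x3 / x14 * (a1 * x1 * (a2 * x2)) / (c1 * x10 * (c2 * x11)) * x15 *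
        ((x6 * u * v) / (x7 * e * f)) * ((b1 * x4 * (b2 * x5)) / (d1 * x12 * (d2 * x13))) *
        (r1 / r2) := by ring
    rw [h2, hr]
    ring
  have g0 : gJ q b X j = (a1 * a2 * b1 * b2 * u * v /
      (c1 * c2 * d1 * d2 * e * f) * ((1 - q * y) *
      (1 - q ^ 2 * y) * (1 - b * q * y) * (1 - q * y / b))) := by
    unfold gJ
    rw [A1, A2, B1, B2, ← hu, ← hv, ← hcc1, ← hcc2, ← hdd1, ← hdd2, ← hee, ← hff]
    generalize 1 - q * y = x1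
    generalize 1 - q ^ 2 * y = x2
    generalize 1 - b * q * y = x4
    generalize 1 - q * y / b = x5
    ring
  have g1 : gJ q b X (j + 1) = (a1 * a2 * b1 * b2 * u * v /
      (c1 * c2 * d1 * d2 * e * f) * ((1 - q * y) *
      (1 - q ^ 2 * y) * (1 - b * q * y) * (1 - q * y / b))) * ((1 - q ^ 5 * y) *
        ((1 - b * q ^ 5 * y) *
          (1 - q ^ 5 * y / b)) * (1 - q ^ 6 * y) *
          (1 - q ^ 6 * X * y) * (X - y) /
          ((1 - q ^ 4 * y) * (1 - q ^ 3 * y) * ((1 - b * q ^ 4 * y) * (1 - q ^ 4 * y / b)) *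
            (X - q ^ 3 * y) * (1 - q ^ 9 * X * y))) := by
    unfold gJ
    rw [A1', A2', B1', B2', U1, V1, C1, C2, D1, D2, E1, F1]
    have hr : (X - y) / X / ((X - q ^ 3 * y) / X) = (X - y) / (X - q ^ 3 * y) := by
      clear * - k6 hX
      field_simp
    generalize hr1 : (X - y) / X = r1 at hr ⊢
    generalize hr2 : (X - q ^ 3 * y) / X = r2 at hr ⊢
    generalize 1 - q * y = x1
    generalize 1 - q ^ 2 * y = x2
    generalize 1 - b * q * y = x4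
    generalize 1 - q * y / b = x5
    generalize 1 - q ^ 6 * X * y = x6
    generalize X - q ^ 3 * y = x8 at hr ⊢
    generalize X - y = x9 at hr ⊢
    generalize 1 - q ^ 9 * X * y = x7
    generalize 1 - q ^ 4 * y = x10
    generalize 1 - q ^ 3 * y = x11
    generalize 1 - b * q ^ 4 * y = x12
    generalize 1 - q ^ 4 * y / b = x13
    generalize 1 - q ^ 5 * y = x14
    generalize 1 - b * q ^ 5 * y = x15
    generalize 1 - q ^ 5 * y / b = x16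
    generalize 1 - q ^ 6 * y = x17
    clear * - hr
    have h2 : a1 * x1 * x14 * (b1 * x4 * x15) * (b2 * x5 * x16) * (a2 * x2 * x17) *
        (u * x6 * (v * r1)) / (c1 * x10 * (d2 * x13) * (d1 * x12) * (c2 * x11) * (f * r2) *
        (e * x7)) = a1 * x1 * x14 * (b1 * x4 * x15) * (b2 * x5 * x16) * (a2 * x2 * x17) *
        (u * x6 * v) / (c1 * x10 * (d2 * x13) * (d1 * x12) * (c2 * x11) * f *
        (e * x7)) * (r1 / r2) := by ring
    rw [h2, hr]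
    ring
  rw [s1, s0, g0, g1]
  generalize a1 * a2 * b1 * b2 * u * v /
      (c1 * c2 * d1 * d2 * e * f) * ((1 - q * y) *
      (1 - q ^ 2 * y) * (1 - b * q * y) * (1 - q * y / b)) = W
  clear * - K
  linear_combination W * K

theorem sJ_zero (q b X : F) (h1 : 1 - q ≠ 0) : sJ q b X 0 = 1 := by
  simp [sJ, jpoch_zero, div_self h1]

theorem gJ_zero (q b X : F) (hb : b ≠ 0) (h1 : 1 - q ≠ 0) :
    -(q * X * (1 + q ^ 3 * X)) / (1 - q) * gJ q b X 0 =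
      (1 - q * X) * ((1 - b * q ^ 4 * X) * (1 - q ^ 4 * X / b)) -
      (1 - q ^ 5 * X) * ((1 - b * q ^ 2 * X) * (1 - q ^ 2 * X / b)) := by
  have h : gJ q b X 0 = (1 - q) * (1 - b * q) * (1 - q / b) * (1 - q ^ 2) := by
    simp [gJ, jpoch_succ, jpoch_zero]
  rw [h]
  field_simp
  ring

/-- the telescoped sum -/
theorem jsum (q b X : F) (m : ℕ) (hq : q ≠ 0) (hb : b ≠ 0) (hX : X ≠ 0) (h1 : 1 - q ≠ 0)
    (h1X : 1 - q * X ≠ 0) (h5X : 1 - q ^ 5 * X ≠ 0)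
    (hc1 : ∀ i : ℕ, 1 - q ^ 4 * (q ^ 4) ^ i ≠ 0) (hc2 : ∀ i : ℕ, 1 - q ^ 3 * (q ^ 4) ^ i ≠ 0)
    (hd1 : ∀ i : ℕ, 1 - b * q ^ 4 * (q ^ 4) ^ i ≠ 0)
    (hd2 : ∀ i : ℕ, 1 - q ^ 4 / b * (q ^ 4) ^ i ≠ 0)
    (he : ∀ i : ℕ, 1 - q ^ 9 * X * (q ^ 4) ^ i ≠ 0)
    (hf : ∀ i : ℕ, 1 - q ^ 3 / X * (q ^ 4) ^ i ≠ 0) (hXm : X = (q ^ 4) ^ m) :
    (1 - q * X) * ((1 - b * q ^ 4 * X) * (1 - q ^ 4 * X / b)) *
        ∑ k ∈ range (m + 2), sJ q b (q ^ 4 * X) k =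
      (1 - q ^ 5 * X) * ((1 - b * q ^ 2 * X) * (1 - q ^ 2 * X / b)) *
        ∑ k ∈ range (m + 2), sJ q b X k := by
  rw [← sub_eq_zero, mul_sum, mul_sum, ← sum_sub_distrib, sum_range_succ', sJ_zero _ _ _ h1,
    sJ_zero _ _ _ h1]
  rw [sum_congr rfl fun j _ => wz q b X j hq hb hX h1 h1X h5X hc1 hc2 hd1 hd2 he hf, ← mul_sum,
    sum_range_sub]
  have hz : gJ q b X (m + 1) = 0 := by
    have : poch (1 / X) (q ^ 4) (m + 1) = 0 := by
      rw [jpoch_succ, hXm, one_div, inv_mul_cancel₀ (hXm ▸ hX), sub_self, mul_zero]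
    unfold gJ
    rw [this, mul_zero, mul_zero, zero_div]
  rw [hz, zero_sub, mul_neg, gJ_zero q b X hb h1]
  ring

end jacgen

theorem jterm (b : K) (m k : ℕ) :
    cf k * pr (q ^ (4 * m + 1)) k * pr b k = sJ q b ((q ^ 4) ^ m) k := by
  have hq := q_ne
  have hX : ((q : K) ^ 4) ^ m ≠ 0 := pow_ne_zero _ (pow_ne_zero _ hq)
  have e1 : q ^ (4 * m + 1) * q = q ^ 2 * (q ^ 4) ^ m := by rw [← pow_mul]; ring
  have e2 : q / q ^ (4 * m + 1) = 1 / (q ^ 4) ^ m := by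
    rw [div_eq_div_iff (pow_ne_zero _ hq) hX, ← pow_mul]; ring
  have e3 : q ^ (4 * m + 1) * q ^ 4 = q ^ 5 * (q ^ 4) ^ m := by rw [← pow_mul]; ring
  have e4 : q ^ 4 / q ^ (4 * m + 1) = q ^ 3 / (q ^ 4) ^ m := by
    rw [div_eq_div_iff (pow_ne_zero _ hq) hX, ← pow_mul]; ring
  have e5 : q ^ (8 * k + 1) = q * ((q ^ 4) ^ k) ^ 2 := by rw [← pow_mul, ← pow_mul]; ring
  have e6 : q ^ (4 * k) = (q ^ 4) ^ k := pow_mul _ _ _
  unfold cf pr sJ
  rw [e1, e2, e3, e4, e5, e6]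

theorem sJ_van (b : K) {m k : ℕ} (h : m < k) : sJ q b ((q ^ 4) ^ m) k = 0 := by
  have hX : ((q : K) ^ 4) ^ m ≠ 0 := pow_ne_zero _ (pow_ne_zero _ q_ne)
  have : poch (1 / (q ^ 4) ^ m) (q ^ 4) k = 0 := by
    unfold poch
    refine prod_eq_zero (mem_range.2 h) ?_
    rw [one_div, inv_mul_cancel₀ hX, sub_self]
  unfold sJ
  rw [this, mul_zero, zero_div, mul_zero, zero_mul]

theorem jac : S_JAC := by
  intro b m n hb hbi hmn
  have hq := q_ne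
  have h1 : (1 : K) - q ≠ 0 := by simpa using one_sub_pow_ne (j := 1) one_ne_zero
  have hc1 : ∀ i : ℕ, (1 : K) - q ^ 4 * (q ^ 4) ^ i ≠ 0 := by
    intro i
    have := one_sub_pow_ne (j := 4 + 4 * i) (by omega)
    rwa [pow_add, pow_mul] at this
  have hc2 : ∀ i : ℕ, (1 : K) - q ^ 3 * (q ^ 4) ^ i ≠ 0 := by
    intro i
    have := one_sub_pow_ne (j := 3 + 4 * i) (by omega)
    rwa [pow_add, pow_mul] at this
  have hd1 : ∀ i : ℕ, 1 - b * q ^ 4 * (q ^ 4) ^ i ≠ 0 := by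
    intro i h
    apply (hbi i).1
    rw [pow_add, pow_mul]
    linear_combination -h
  have hd2 : ∀ i : ℕ, 1 - q ^ 4 / b * (q ^ 4) ^ i ≠ 0 := by
    intro i h
    apply (hbi i).2
    rw [pow_add, pow_mul]
    field_simp at h
    linear_combination h
  have he : ∀ m i : ℕ, (1 : K) - q ^ 9 * (q ^ 4) ^ m * (q ^ 4) ^ i ≠ 0 := by
    intro m i
    have := one_sub_pow_ne (j := 9 + 4 * m + 4 * i) (by omega)
    rwa [pow_add, pow_add, pow_mul, pow_mul] at this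
  have h1X : ∀ m : ℕ, (1 : K) - q * (q ^ 4) ^ m ≠ 0 := by
    intro m
    have := one_sub_pow_ne (j := 1 + 4 * m) (by omega)
    rwa [pow_add, pow_mul, pow_one] at this
  have h5X : ∀ m : ℕ, (1 : K) - q ^ 5 * (q ^ 4) ^ m ≠ 0 := by
    intro m
    have := one_sub_pow_ne (j := 5 + 4 * m) (by omega)
    rwa [pow_add, pow_mul] at this
  have hf : ∀ m i : ℕ, (1 : K) - q ^ 3 / (q ^ 4) ^ m * (q ^ 4) ^ i ≠ 0 := by
    intro m i
    have h := one_sub_zpow_ne (j := 3 + 4 * (i : ℤ) - 4 * (m : ℤ)) (by omega)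
    have e : (q : K) ^ (3 + 4 * (i : ℤ) - 4 * (m : ℤ)) = q ^ 3 / (q ^ 4) ^ m * (q ^ 4) ^ i := by
      rw [zpow_sub₀ hq, zpow_add₀ hq, zpow_mul, zpow_mul]
      simp only [zpow_natCast]
      have e4 : (q : K) ^ (4 : ℤ) = q ^ 4 := zpow_natCast q 4
      have e3 : (q : K) ^ (3 : ℤ) = q ^ 3 := zpow_natCast q 3
      rw [e4, e3]
      ring
    rwa [e] at h
  have main : ∀ m : ℕ, ∑ k ∈ range (m + 1), sJ q b ((q ^ 4) ^ m) k =
      (1 - q * (q ^ 4) ^ m) / (1 - q) * gg b m := by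
    intro m
    induction m with
    | zero => simp [sJ_zero _ _ _ h1, gg, jpoch_zero, div_self h1]
    | succ m ih =>
      have hX : ((q : K) ^ 4) ^ m ≠ 0 := pow_ne_zero _ (pow_ne_zero _ hq)
      have hs := jsum q b ((q ^ 4) ^ m) m hq hb hX h1 (h1X m) (h5X m) hc1 hc2 hd1 hd2 (he m)
        (hf m) rfl
      rw [sum_range_succ (fun k => sJ q b ((q ^ 4) ^ m) k), sJ_van b (Nat.lt_succ_self m),
        add_zero, ih] at hs
      have hP : (q ^ 4) ^ (m + 1) = q ^ 4 * ((q : K) ^ 4) ^ m := by rw [pow_succ]; ring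
      have hg : gg b (m + 1) = gg b m * (((1 - b * q ^ 2 * (q ^ 4) ^ m) *
          (1 - q ^ 2 * (q ^ 4) ^ m / b)) / ((1 - b * q ^ 4 * (q ^ 4) ^ m) *
          (1 - q ^ 4 * (q ^ 4) ^ m / b))) := by
        unfold gg
        have f1 : q ^ 2 / b * (q ^ 4) ^ m = q ^ 2 * (q ^ 4) ^ m / b := by ring
        have f2 : q ^ 4 / b * (q ^ 4) ^ m = q ^ 4 * (q ^ 4) ^ m / b := by ring
        rw [jpoch_succ (b * q ^ 2), jpoch_succ (q ^ 2 / b), jpoch_succ (b * q ^ 4),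
          jpoch_succ (q ^ 4 / b), f1, f2]
        generalize 1 - b * q ^ 4 * (q ^ 4) ^ m = x2
        generalize 1 - q ^ 4 * (q ^ 4) ^ m / b = x3
        generalize 1 - b * q ^ 2 * (q ^ 4) ^ m = x5
        generalize 1 - q ^ 2 * (q ^ 4) ^ m / b = x6
        ring
      have k3 := hd1 m
      have k4 : 1 - q ^ 4 * (q ^ 4) ^ m / b ≠ 0 := by
        have := hd2 m
        intro h; apply this; rw [← h]; ring
      have hα := mul_ne_zero (h1X m) (mul_ne_zero k3 k4)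
      rw [hP, hg]
      apply mul_left_cancel₀ hα
      rw [hs]
      have h6 : 1 - q * (q ^ 4 * (q ^ 4) ^ m) = 1 - q ^ 5 * ((q : K) ^ 4) ^ m := by ring
      rw [h6]
      have h7 := h1X m
      generalize 1 - q * ((q : K) ^ 4) ^ m = x1 at h7 ⊢
      generalize 1 - b * q ^ 4 * (q ^ 4) ^ m = x2 at k3 ⊢
      generalize 1 - q ^ 4 * (q ^ 4) ^ m / b = x3 at k4 ⊢
      generalize 1 - q ^ 5 * ((q : K) ^ 4) ^ m = x4
      generalize 1 - b * q ^ 2 * (q ^ 4) ^ m = x5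
      generalize 1 - q ^ 2 * (q ^ 4) ^ m / b = x6
      generalize gg b m = x7
      generalize (1 : K) - q = x8 at h1 ⊢
      field_simp
  have e7 : q ^ (4 * m + 1) = q * ((q : K) ^ 4) ^ m := by rw [← pow_mul]; ring
  rw [FA, sum_congr rfl fun k _ => jterm b m k, e7, ← main m]
  symm
  apply sum_subset
  · intro k hk
    rw [mem_range] at hk ⊢
    omega
  · intro k _ hk
    rw [mem_range, not_lt] at hk
    exact sJ_van b (by omega)

end Pool.Agent.R618.SC
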