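import Pool.Agent.R618.SC.Defs

set_option autoImplicit false

/-!
From orders at `Φ_(p^s)` to divisibility at `q = 1` (for MP_9a1728_nt).
-/

namespace Pool.Agent.R618.SC

open Finset Polynomial Pool.Agent.R439

theorem ez_X : ez X = q := by rw [ez, RingHom.comp_apply, coe_mapRingHom, map_X, emb_X]

theorem ez_apply (P : ℤ[X]) : ez P = emb (P.map (Int.castRingHom ℚ)) := rfl

theorem ez_mem {n : ℕ} [NeZero n] (P : ℤ[X]) : ez P ∈ O n := emb_mem _

theorem dvd_of_I {n k : ℕ} [NeZero n] {P : ℤ[X]} (h : I n k (ez P)) :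
    cyclotomic n ℚ ^ k ∣ P.map (Int.castRingHom ℚ) := by
  have h1 := num_of_I h
  rw [ez_apply] at h1
  have h2 : (emb (P.map (Int.castRingHom ℚ))).num = P.map (Int.castRingHom ℚ) :=
    RatFunc.num_algebraMap _
  rwa [h2] at h1

theorem ez_geom (m : ℕ) : ez (∑ i ∈ range m, X ^ i) = (1 - q ^ m) / (1 - q) := by
  rw [map_sum]
  simp only [map_pow, ez_X]
  have h : (1 - q : K) ≠ 0 := by
    have := one_sub_pow_ne (j := 1) one_ne_zero
    rwa [pow_one] at this
  rw [eq_div_iff h]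
  have := geom_sum_mul q m
  linear_combination (-1 : K) * this

theorem eval_geom (m : ℕ) : (∑ i ∈ range m, (X : ℤ[X]) ^ i).eval 1 = m := by
  simp [eval_finsetSum]

theorem lim : S_LIM := by
  intro p S hp e P hJ
  have hpr := hp.out
  have hmon : (∏ s ∈ Icc 1 S, cyclotomic (p ^ s) ℤ ^ (e s)).Monic :=
    monic_prod_of_monic _ _ fun s _ => (cyclotomic.monic _ ℤ).pow _
  have hinj : Function.Injective (Int.castRingHom ℚ) := Int.cast_injective
  have hdvd : (∏ s ∈ Icc 1 S, cyclotomic (p ^ s) ℤ ^ (e s)) ∣ P := by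
    rw [← Polynomial.map_dvd_map (Int.castRingHom ℚ) hinj hmon, Polynomial.map_prod]
    simp only [Polynomial.map_pow, map_cyclotomic_int]
    refine Finset.prod_dvd_of_coprime ?_ fun s hs => ?_
    · intro i _ j _ hij
      exact (cyclotomic.isCoprime_rat fun h => hij (Nat.pow_right_injective hpr.two_le h)).pow
    · have hs' := mem_Icc.1 hs
      have : NeZero (p ^ s) := ⟨pow_ne_zero _ hpr.ne_zero⟩
      exact dvd_of_I (J_nat_iff.1 (hJ s hs'.1 hs'.2))
  obtain ⟨c, hc⟩ := hdvd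
  rw [hc, eval_mul, eval_prod]
  refine Dvd.dvd.mul_right ?_ _
  rw [← prod_pow_eq_pow_sum]
  refine dvd_of_eq (prod_congr rfl fun s hs => ?_)
  obtain ⟨t, rfl⟩ : ∃ t, s = t + 1 := ⟨s - 1, by have := mem_Icc.1 hs; omega⟩
  rw [eval_pow, eval_one_cyclotomic_prime_pow]

end Pool.Agent.R618.SC
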