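import Pool.Agent.R618.SC.Defs

set_option autoImplicit false

/-!
Pieces ORD1 and ORD2 of the project SC (MP_9a1728_nt): orders at `Φ_d` of the coefficients.
-/

namespace Pool.Agent.R618.SC

open Finset Polynomial Pool.Agent.R439

/-- the count of `E_poch` in terms of quotient and remainder -/
theorem cnt_eq {d j t i0 : ℕ} (ht : t < d) (hi : i0 < d) :
    (j * d + t + d - 1 - i0) / d = j + if i0 < t then 1 else 0 := by
  have hd : 0 < d := by omega
  split_ifs with h
  · have e1 : j * d + t + d - 1 - i0 = (t - 1 - i0) + d * (j + 1) := by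
      rw [Nat.mul_succ, Nat.mul_comm d j]; omega
    rw [e1, Nat.add_mul_div_left _ _ hd, Nat.div_eq_of_lt (by omega)]
    omega
  · have e1 : j * d + t + d - 1 - i0 = (t + d - 1 - i0) + d * j := by
      rw [Nat.mul_comm d j]; omega
    rw [e1, Nat.add_mul_div_left _ _ hd, Nat.div_eq_of_lt (by omega)]
    omega

theorem cop4 {d : ℕ} (h : d % 2 = 1) : Nat.Coprime d 4 := by
  have h2 : Nat.Coprime d 2 := by
    rw [Nat.coprime_comm, Nat.coprime_two_left]
    exact Nat.odd_iff.2 h
  have : (4 : ℕ) = 2 * 2 := rfl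
  rw [this]
  exact Nat.Coprime.mul_right h2 h2

/-- order of `(q^c; q^4)_k`, `c > 0` -/
theorem E_pochc {d : ℕ} [NeZero d] {c j t i0 : ℕ} (hd : d % 2 = 1) (hc : 0 < c) (ht : t < d)
    (hi : i0 < d) (h0 : d ∣ c + 4 * i0) :
    E d ((j : ℤ) + if i0 < t then 1 else 0) (poch (q ^ c) (q ^ 4) (j * d + t)) := by
  have h := E_poch (d := d) (e := (c : ℤ)) (s := 4) (k := j * d + t) (i0 := i0) (cop4 hd) hi
    (by exact_mod_cast h0) (fun i _ => by positivity)
  rw [cnt_eq ht hi, zpow_natCast] at h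
  refine h.of_eq ?_
  push_cast
  rfl

theorem ord1 : S_ORD1 := by
  refine ⟨?_, ?_⟩
  · intro d _ k hd
    obtain ⟨s, rfl⟩ : ∃ s, d = 4 * s + 3 := ⟨d / 4, by omega⟩
    set d := 4 * s + 3 with hds
    have hd1 : d % 2 = 1 := by omega
    have hk : k = k / d * d + k % d := (Nat.div_add_mod' k d).symm
    have ht : k % d < d := Nat.mod_lt _ (by omega)
    generalize k / d = j at hk
    generalize k % d = t at hk ht
    subst hk
    have p1 := E_pochc (d := d) (c := 1) (j := j) (t := t) (i0 := 3 * s + 2) hd1 (by norm_num) ht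
      (by omega) ⟨3, by omega⟩
    have p2 := E_pochc (d := d) (c := 2) (j := j) (t := t) (i0 := 2 * s + 1) hd1 (by norm_num) ht
      (by omega) ⟨2, by omega⟩
    have p3 := E_pochc (d := d) (c := 3) (j := j) (t := t) (i0 := s) hd1 (by norm_num) ht
      (by omega) ⟨1, by omega⟩
    have p4 := E_pochc (d := d) (c := 4) (j := j) (t := t) (i0 := 4 * s + 2) hd1 (by norm_num) ht
      (by omega) ⟨4, by omega⟩
    rw [pow_one] at p1
    have hq1 := E_q1 (d := d) (by omega)
    have h1 : J d 0 (1 - q ^ (8 * (j * d + t) + 1)) :=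
      J_of_O (sub_mem (one_mem _) (pow_mem' _))
    have h := (((h1.divE hq1).mul (p1.mul p2).J).divE (p4.mul p3)).mul
      (E_qn (d := d) (4 * (j * d + t))).J
    refine J.mono ?_ h
    split_ifs <;> omega
  · intro d _ k hd hd0
    obtain ⟨s, rfl⟩ : ∃ s, d = 4 * s + 1 := ⟨d / 4, by omega⟩
    set d := 4 * s + 1 with hds
    have hd1 : d % 2 = 1 := by omega
    have hk : k = k / d * d + k % d := (Nat.div_add_mod' k d).symm
    have ht : k % d < d := Nat.mod_lt _ (by omega)
    generalize k / d = j at hk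
    generalize k % d = t at hk ht
    subst hk
    have p1 := E_pochc (d := d) (c := 1) (j := j) (t := t) (i0 := s) hd1 (by norm_num) ht
      (by omega) ⟨1, by omega⟩
    have p2 := E_pochc (d := d) (c := 2) (j := j) (t := t) (i0 := 2 * s) hd1 (by norm_num) ht
      (by omega) ⟨2, by omega⟩
    have p3 := E_pochc (d := d) (c := 3) (j := j) (t := t) (i0 := 3 * s) hd1 (by norm_num) ht
      (by omega) ⟨3, by omega⟩
    have p4 := E_pochc (d := d) (c := 4) (j := j) (t := t) (i0 := 4 * s) hd1 (by norm_num) ht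
      (by omega) ⟨4, by omega⟩
    rw [pow_one] at p1
    have hq1 := E_q1 (d := d) (by omega)
    have h1 : J d 0 (1 - q ^ (8 * (j * d + t) + 1)) :=
      J_of_O (sub_mem (one_mem _) (pow_mem' _))
    refine ⟨?_, ?_⟩
    · have h := (((h1.divE hq1).mul (p1.mul p2).J).divE (p4.mul p3)).mul
        (E_qn (d := d) (4 * (j * d + t))).J
      refine J.mono ?_ h
      split_ifs <;> omega
    · have h := ((p1.mul p1).div (p4.mul p4)).J
      rw [pr, one_mul, one_mul, div_one, div_one]
      refine J.mono ?_ h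
      split_ifs <;> omega

/-- order of `gg` at the points `q^(d e)` -/
theorem gg_ord {d : ℕ} [NeZero d] {j t : ℕ} {e : ℤ} (hd : d % 2 = 1) (ht : t < d)
    (he : e = 0 ∨ e % 2 = 1) :
    E d (if (d - 1) / 2 < t then 2 else 0) (gg (q ^ ((d : ℤ) * e)) (j * d + t)) := by
  have hodd : (d : ℤ) * e = 0 ∨ ((d : ℤ) * e) % 2 = 1 := by
    rcases he with rfl | he
    · left; ring
    · right
      have h1 : (d : ℤ) % 2 = 1 := by omega
      rw [Int.mul_emod, h1, he]; norm_num
  have key : ∀ (c i0 : ℕ) (f : ℤ), c % 2 = 0 → 0 < c → i0 < d → d ∣ c + 4 * i0 →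
      (f = e ∨ f = -e) →
      E d ((j : ℤ) + if i0 < t then 1 else 0)
        (poch (q ^ ((c : ℤ) + (d : ℤ) * f)) (q ^ 4) (j * d + t)) := by
    intro c i0 f hc hc0 hi h0 hf
    have h := E_poch (d := d) (e := (c : ℤ) + (d : ℤ) * f) (s := 4) (k := j * d + t) (i0 := i0)
      (cop4 hd) hi (by
        have h1 : (d : ℤ) ∣ (c : ℤ) + 4 * i0 := by exact_mod_cast h0
        have h2 : (c : ℤ) + (d : ℤ) * f + ((4 : ℕ) : ℤ) * i0 = ((c : ℤ) + 4 * i0) + (d : ℤ) * f := by
          push_cast; ring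
        rw [h2]
        exact dvd_add h1 (dvd_mul_right _ _)) (fun i _ => by
        have h3 : (d : ℤ) * f = 0 ∨ ((d : ℤ) * f) % 2 = 1 := by
          rcases hf with rfl | rfl
          · exact hodd
          · rw [mul_neg]
            omega
        push_cast
        omega)
    rw [cnt_eq ht hi] at h
    refine h.of_eq ?_
    push_cast
    rfl
  have hq := q_ne
  have a1 := key 2 ((d - 1) / 2) e (by norm_num) (by norm_num) (by omega) ⟨2, by omega⟩ (Or.inl rfl)
  have a2 := key 2 ((d - 1) / 2) (-e) (by norm_num) (by norm_num) (by omega) ⟨2, by omega⟩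
    (Or.inr rfl)
  have a3 := key 4 (d - 1) e (by norm_num) (by norm_num) (by omega) ⟨4, by omega⟩ (Or.inl rfl)
  have a4 := key 4 (d - 1) (-e) (by norm_num) (by norm_num) (by omega) ⟨4, by omega⟩ (Or.inr rfl)
  have b1 : ∀ c : ℕ, q ^ ((c : ℤ) + (d : ℤ) * e) = q ^ ((d : ℤ) * e) * q ^ c := by
    intro c; rw [zpow_add₀ hq, zpow_natCast, mul_comm]
  have b2 : ∀ c : ℕ, q ^ ((c : ℤ) + (d : ℤ) * (-e)) = q ^ c / q ^ ((d : ℤ) * e) := by
    intro c; rw [mul_neg, ← sub_eq_add_neg, zpow_sub₀ hq, zpow_natCast]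
  rw [b1] at a1 a3
  rw [b2] at a2 a4
  have h := (a1.mul a2).div (a3.mul a4)
  rw [gg]
  refine h.of_eq ?_
  split_ifs <;> omega

theorem ord2 : S_ORD2 := by
  refine ⟨?_, ?_⟩
  · intro d _ ν m e hd hm he
    obtain ⟨s, hs⟩ : ∃ s, d = 4 * s + 3 := ⟨d / 4, by omega⟩
    have hm' : m = ν * d + (3 * s + 2) := by
      have h1 : 4 * m + 1 = 4 * (ν * d) + 3 * d := by rw [hm]; ring
      omega
    have h := gg_ord (d := d) (j := ν) (t := 3 * s + 2) (e := e) (by omega) (by omega) he
    rw [if_pos (by omega)] at h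
    rw [hm']
    exact h
  · intro d _ ν m hd hd1 hm
    obtain ⟨s, hs⟩ : ∃ s, d = 4 * s + 1 := ⟨d / 4, by omega⟩
    have hm' : m = ν * d + s := by
      have h1 : 4 * m + 1 = 4 * (ν * d) + d := by rw [hm]; ring
      omega
    have h := gg_ord (d := d) (j := ν) (t := s) (e := 0) (by omega) (by omega) (Or.inl rfl)
    rw [if_neg (by omega), mul_zero, zpow_zero] at h
    rw [hm']
    exact h

end Pool.Agent.R618.SC
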