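import Pool.Agent.R618.SC.Defs

set_option autoImplicit false

/-!
Reflection `k → 2m - k` at a root of unity (piece SC-REFL of MP_9a1728_nt).
-/

namespace Pool.Agent.R618.SC

open Finset Polynomial Pool.Agent.R439

variable {n : ℕ} [NeZero n]

/-- `1 - q^e` for an integer `e` -/
noncomputable def rv (e : ℤ) : K := 1 - q ^ e

theorem rv_shift (e s : ℤ) : EQ n 1 (rv (e + (n : ℤ) * s)) (rv e) :=
  (EQ.refl (one_mem _)).sub (q_shift e s)

theorem rv_nat (j : ℕ) : 1 - q ^ j = rv (j : ℤ) := by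
  rw [rv, zpow_natCast]

theorem rv_U {e : ℤ} (he : ¬ (n : ℤ) ∣ e) : U n (rv e) := U_one_sub he

theorem not_dvd_of_lt {e : ℤ} (h0 : 0 < e) (h1 : e < n) : ¬ (n : ℤ) ∣ e := by
  intro h
  have := Int.le_of_dvd h0 h
  omega

theorem not_dvd_neg {e : ℤ} (h : ¬ (n : ℤ) ∣ e) : ¬ (n : ℤ) ∣ -e := by
  rwa [dvd_neg]

theorem psi_mem {j : ℕ} (h0 : 0 < j) (h1 : j < n) : psi j ∈ O n := by
  have hU : U n (1 - q ^ j) := by
    rw [rv_nat]
    exact rv_U (not_dvd_of_lt (by omega) (by omega))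
  rw [psi]
  exact ((U_qpow j).div (hU.pow 2)).2.1

/-- `ψ(n - j) ≡ ψ(j)` -/
theorem psi_refl {i j : ℕ} (hij : i + j = n) (h0 : 0 < j) (h1 : j < n) :
    EQ n 1 (psi i) (psi j) := by
  have hi : (i : ℤ) = -(j : ℤ) + (n : ℤ) * 1 := by omega
  have e1 : psi i = q ^ (i : ℤ) / (rv (i : ℤ)) ^ 2 := by rw [psi, ← rv_nat, zpow_natCast]
  have hnd : ¬ (n : ℤ) ∣ (i : ℤ) := not_dvd_of_lt (by omega) (by omega)
  have e2 : EQ n 1 (q ^ (i : ℤ) / (rv (i : ℤ)) ^ 2)
      (q ^ (-(j : ℤ)) / (rv (-(j : ℤ))) ^ 2) := by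
    refine EQ.div one_pos ?_ ?_ ((rv_U hnd).pow 2)
    · rw [hi]; exact q_shift _ _
    · rw [hi]; exact (rv_shift _ _).pow 2
  have e3 : q ^ (-(j : ℤ)) / (rv (-(j : ℤ))) ^ 2 = psi j := by
    have hx : q ^ j ≠ 0 := pow_ne_zero _ q_ne
    have hy : 1 - q ^ j ≠ 0 := one_sub_pow_ne (by omega)
    rw [psi, rv, zpow_neg, zpow_natCast]
    have h3 : q ^ j - 1 ≠ 0 := by
      intro h; apply hy; rw [← neg_sub, h, neg_zero]
    generalize q ^ j = x at hx hy h3
    have h4 : 1 - x⁻¹ = (x - 1) * x⁻¹ := by field_simp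
    rw [h4]
    field_simp
    ring
  rw [e1, ← e3]
  exact e2

theorem LL_succ (k : ℕ) : LL (k + 1) = LL k + (psi (2 * k + 1) + psi (2 * k + 2)) := by
  rw [LL, sum_range_succ, ← LL]

theorem LL_mem {m k : ℕ} (hn : n = 4 * m + 1) (hk : k ≤ 2 * m) : LL k ∈ O n := by
  rw [LL]
  refine sum_mem fun i hi => ?_
  have := mem_range.1 hi
  exact add_mem (psi_mem (by omega) (by omega)) (psi_mem (by omega) (by omega))

theorem LL_refl {m : ℕ} (hn : n = 4 * m + 1) (k : ℕ) (hk : k ≤ 2 * m) :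
    EQ n 1 (LL (2 * m - k) + LL k) (LL (2 * m)) := by
  induction k with
  | zero =>
    have h0 : LL 0 = 0 := by rw [LL, sum_range_zero]
    rw [Nat.sub_zero, h0, add_zero]
    exact EQ.refl (LL_mem hn le_rfl)
  | succ k ih =>
    have ih := ih (by omega)
    obtain ⟨t, ht⟩ : ∃ t, 2 * m - k = t + 1 := ⟨2 * m - k - 1, by omega⟩
    have ht2 : 2 * m - (k + 1) = t := by omega
    rw [ht2, LL_succ k]
    rw [ht, LL_succ t] at ih
    refine EQ.trans ?_ ih
    have h1 : EQ n 1 (psi (2 * k + 1)) (psi (2 * t + 2)) :=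
      psi_refl (by omega) (by omega) (by omega)
    have h2 : EQ n 1 (psi (2 * k + 2)) (psi (2 * t + 1)) :=
      psi_refl (by omega) (by omega) (by omega)
    have e1 : LL t + (LL k + (psi (2 * k + 1) + psi (2 * k + 2))) =
        LL t + LL k + (psi (2 * k + 1) + psi (2 * k + 2)) := by ring
    have e2 : LL t + (psi (2 * t + 1) + psi (2 * t + 2)) + LL k =
        LL t + LL k + (psi (2 * t + 2) + psi (2 * t + 1)) := by ring
    rw [e1, e2]
    refine EQ.add (EQ.refl (add_mem (LL_mem hn (by omega)) (LL_mem hn (by omega)))) ?_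
    exact h1.add h2

/-- the ratio of two consecutive terms -/
noncomputable def rR (k : ℕ) : K :=
  (rv (2 * k + 1)) ^ 2 * rv (4 * k + 2) * q ^ 2 / ((rv (2 * k + 2)) ^ 2 * rv (4 * k + 4))

theorem tB_zero : tB 1 1 0 = 1 := by
  simp [tB, poch]

theorem tB_succ (k : ℕ) : tB 1 1 (k + 1) = tB 1 1 k * rR k := by
  have h1 : rv (2 * (k : ℤ) + 1) = 1 - q * (q ^ 2) ^ k := by
    rw [rv]; congr 1
    rw [← pow_mul, ← pow_succ', ← zpow_natCast]; push_cast; rfl
  have h2 : rv (2 * (k : ℤ) + 2) = 1 - q ^ 2 * (q ^ 2) ^ k := by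
    rw [rv]; congr 1
    rw [← pow_mul, ← pow_add, ← zpow_natCast]; push_cast; congr 1; ring
  have h3 : rv (4 * (k : ℤ) + 2) = 1 - q ^ 2 * (q ^ 4) ^ k := by
    rw [rv]; congr 1
    rw [← pow_mul, ← pow_add, ← zpow_natCast]; push_cast; congr 1; ring
  have h4 : rv (4 * (k : ℤ) + 4) = 1 - q ^ 4 * (q ^ 4) ^ k := by
    rw [rv]; congr 1
    rw [← pow_mul, ← pow_add, ← zpow_natCast]; push_cast; congr 1; ring
  rw [rR, h1, h2, h3, h4]
  unfold tB
  rw [one_mul, one_mul, div_one, div_one, poch_succ, poch_succ, poch_succ, poch_succ]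
  have n1 : 1 - q ^ 2 * (q ^ 2) ^ k ≠ 0 := by
    rw [← h2, rv]; exact one_sub_zpow_ne (by omega)
  have n2 : 1 - q ^ 4 * (q ^ 4) ^ k ≠ 0 := by
    rw [← h4, rv]; exact one_sub_zpow_ne (by omega)
  have n3 : poch (q ^ 2) (q ^ 2) k ≠ 0 := by
    refine poch_ne fun i _ => ?_
    rw [← pow_mul, ← pow_add]; exact q_pow_ne_one (by omega)
  have n4 : poch (q ^ 4) (q ^ 4) k ≠ 0 := by
    refine poch_ne fun i _ => ?_
    rw [← pow_mul, ← pow_add]; exact q_pow_ne_one (by omega)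
  have e5 : q ^ (2 * (k + 1)) = q ^ (2 * k) * q ^ 2 := by rw [← pow_add]; congr 1
  rw [e5]
  generalize 1 - q ^ 2 * (q ^ 2) ^ k = A1 at *
  generalize 1 - q ^ 4 * (q ^ 4) ^ k = A2 at *
  generalize poch (q ^ 2) (q ^ 2) k = A3 at *
  generalize poch (q ^ 4) (q ^ 4) k = A4 at *
  field_simp

/-- exponents which are even, positive and `< 2n`, are not multiples of the odd number `n` -/
theorem not_dvd_even {m : ℕ} (hn : n = 4 * m + 1) {e : ℤ} (h0 : 0 < e) (h1 : e < 2 * n)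
    (h2 : e % 2 = 0) : ¬ (n : ℤ) ∣ e := by
  rintro ⟨c, hc⟩
  have hn1 : 0 < (n : ℤ) := by omega
  have c0 : 0 < c := by
    by_contra h
    have : (n : ℤ) * c ≤ 0 := mul_nonpos_of_nonneg_of_nonpos hn1.le (by omega)
    omega
  have c1 : c < 2 := by
    by_contra h
    have : (n : ℤ) * 2 ≤ n * c := mul_le_mul_of_nonneg_left (by omega) hn1.le
    omega
  have : c = 1 := by omega
  subst this
  omega

theorem rR_U {m k : ℕ} (hn : n = 4 * m + 1) (hk : k < 2 * m) : U n (rR k) := by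
  rw [rR]
  refine U.div (((U.pow (rv_U ?_) 2).mul (rv_U ?_)).mul (U_qpow 2)) ((U.pow (rv_U ?_) 2).mul (rv_U ?_))
  · exact not_dvd_of_lt (by omega) (by omega)
  · exact not_dvd_even hn (by omega) (by omega) (by omega)
  · exact not_dvd_of_lt (by omega) (by omega)
  · exact not_dvd_even hn (by omega) (by omega) (by omega)

theorem tB_U {m k : ℕ} (hn : n = 4 * m + 1) (hk : k ≤ 2 * m) : U n (tB 1 1 k) := by
  induction k with
  | zero => rw [tB_zero]; exact U.one
  | succ k ih => rw [tB_succ]; exact (ih (by omega)).mul (rR_U hn (by omega))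

theorem rR_refl {m j : ℕ} (hn : n = 4 * m + 1) (hj : j < m) :
    EQ n 1 (rR (m + j) * rR (m - j - 1)) 1 := by
  set A : ℤ := 2 * m - 2 * j with hA
  set b : ℤ := 4 * j + 1 with hb
  have hn' : (n : ℤ) = 4 * m + 1 := by exact_mod_cast hn
  have c1 : ((m + j : ℕ) : ℤ) = m + j := by push_cast; rfl
  have c2 : ((m - j - 1 : ℕ) : ℤ) = m - j - 1 := by omega
  have e1 : EQ n 1 (rR (m + j))
      ((rv (-A)) ^ 2 * rv b * q ^ 2 / ((rv (1 - A)) ^ 2 * rv (b + 2))) := by
    rw [rR, c1]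
    refine EQ.div one_pos ((EQ.mul (EQ.pow ?_ 2) ?_).mul (EQ.refl (pow_mem' 2)))
      (EQ.mul (EQ.pow ?_ 2) ?_) ?_
    · have : (2 * ((m : ℤ) + j) + 1) = -A + (n : ℤ) * 1 := by rw [hA, hn']; ring
      rw [this]; exact rv_shift _ _
    · have : (4 * ((m : ℤ) + j) + 2) = b + (n : ℤ) * 1 := by rw [hb, hn']; ring
      rw [this]; exact rv_shift _ _
    · have : (2 * ((m : ℤ) + j) + 2) = 1 - A + (n : ℤ) * 1 := by rw [hA, hn']; ring
      rw [this]; exact rv_shift _ _
    · have : (4 * ((m : ℤ) + j) + 4) = b + 2 + (n : ℤ) * 1 := by rw [hb, hn']; ring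
      rw [this]; exact rv_shift _ _
    · refine (U.pow (rv_U ?_) 2).mul (rv_U ?_)
      · exact not_dvd_of_lt (by omega) (by omega)
      · exact not_dvd_even hn (by omega) (by omega) (by omega)
  have e2 : EQ n 1 (rR (m - j - 1))
      ((rv (A - 1)) ^ 2 * rv (-(b + 2)) * q ^ 2 / ((rv A) ^ 2 * rv (-b))) := by
    rw [rR, c2]
    refine EQ.div one_pos ((EQ.mul (EQ.pow ?_ 2) ?_).mul (EQ.refl (pow_mem' 2)))
      (EQ.mul (EQ.pow ?_ 2) ?_) ?_
    · have : (2 * ((m : ℤ) - j - 1) + 1) = A - 1 + (n : ℤ) * 0 := by rw [hA]; ring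
      rw [this]; exact rv_shift _ _
    · have : (4 * ((m : ℤ) - j - 1) + 2) = -(b + 2) + (n : ℤ) * 1 := by rw [hb, hn']; ring
      rw [this]; exact rv_shift _ _
    · have : (2 * ((m : ℤ) - j - 1) + 2) = A + (n : ℤ) * 0 := by rw [hA]; ring
      rw [this]; exact rv_shift _ _
    · have : (4 * ((m : ℤ) - j - 1) + 4) = -b + (n : ℤ) * 1 := by rw [hb, hn']; ring
      rw [this]; exact rv_shift _ _
    · refine (U.pow (rv_U ?_) 2).mul (rv_U ?_)
      · exact not_dvd_of_lt (by omega) (by omega)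
      · exact not_dvd_even hn (by omega) (by omega) (by omega)
  have e3 : (rv (-A)) ^ 2 * rv b * q ^ 2 / ((rv (1 - A)) ^ 2 * rv (b + 2)) *
      ((rv (A - 1)) ^ 2 * rv (-(b + 2)) * q ^ 2 / ((rv A) ^ 2 * rv (-b))) = 1 := by
    have hA0 : A ≠ 0 := by omega
    have hA1 : A - 1 ≠ 0 := by omega
    have hb0 : b ≠ 0 := by omega
    have hb2 : b + 2 ≠ 0 := by omega
    have r1 : rv (-A) = -(q ^ A)⁻¹ * rv A := by
      have := zpow_ne_zero A q_ne
      rw [rv, rv, zpow_neg]; field_simp; ring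
    have r2 : rv (1 - A) = -(q ^ (A - 1))⁻¹ * rv (A - 1) := by
      have := zpow_ne_zero (A - 1) q_ne
      have e : (1 : ℤ) - A = -(A - 1) := by ring
      rw [rv, rv, e, zpow_neg]; field_simp; ring
    have r3 : rv (-b) = -(q ^ b)⁻¹ * rv b := by
      have := zpow_ne_zero b q_ne
      rw [rv, rv, zpow_neg]; field_simp; ring
    have r4 : rv (-(b + 2)) = -(q ^ (b + 2))⁻¹ * rv (b + 2) := by
      have := zpow_ne_zero (b + 2) q_ne
      rw [rv, rv, zpow_neg]; field_simp; ring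
    have s1 : q ^ A = q ^ (A - 1) * q := by
      rw [← zpow_add_one₀ q_ne]; congr 1; ring
    have s2 : q ^ (b + 2) = q ^ b * q ^ 2 := by
      rw [zpow_add₀ q_ne]; norm_cast
    rw [r1, r2, r3, r4, s1, s2]
    have n1 : rv A ≠ 0 := one_sub_zpow_ne hA0
    have n2 : rv (A - 1) ≠ 0 := one_sub_zpow_ne hA1
    have n3 : rv b ≠ 0 := one_sub_zpow_ne hb0
    have n4 : rv (b + 2) ≠ 0 := one_sub_zpow_ne hb2
    have n5 : q ^ (A - 1) ≠ 0 := zpow_ne_zero _ q_ne
    have n6 : q ^ b ≠ 0 := zpow_ne_zero _ q_ne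
    have n7 := q_ne
    generalize rv A = x1 at *
    generalize rv (A - 1) = x2 at *
    generalize rv b = x3 at *
    generalize rv (b + 2) = x4 at *
    generalize q ^ (A - 1) = x5 at *
    generalize q ^ b = x6 at *
    field_simp
  have := e1.mul e2
  rw [e3] at this
  exact this

theorem tB_mid {m : ℕ} (hn : n = 4 * m + 1) (j : ℕ) (hj : j ≤ m) :
    EQ n 1 (tB 1 1 (m + j)) (tB 1 1 (m - j)) := by
  induction j with
  | zero => exact EQ.refl (tB_U hn (by omega)).2.1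
  | succ j ih =>
    have ih := ih (by omega)
    have e1 : tB 1 1 (m + (j + 1)) = tB 1 1 (m + j) * rR (m + j) := tB_succ (m + j)
    have e2 : tB 1 1 (m - j) = tB 1 1 (m - j - 1) * rR (m - j - 1) := by
      have : m - j = (m - j - 1) + 1 := by omega
      conv_lhs => rw [this]
      exact tB_succ _
    have e3 : m - (j + 1) = m - j - 1 := by omega
    rw [e1, e3]
    refine (ih.mul (EQ.refl (rR_U hn (by omega)).2.1)).trans ?_
    rw [e2]
    have e4 : tB 1 1 (m - j - 1) * rR (m - j - 1) * rR (m + j) =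
        tB 1 1 (m - j - 1) * (rR (m + j) * rR (m - j - 1)) := by ring
    rw [e4]
    have := (EQ.refl (n := n) (k := 1) (tB_U hn (show m - j - 1 ≤ 2 * m by omega)).2.1).mul
      (rR_refl hn (show j < m by omega))
    rwa [mul_one] at this

theorem tB_refl {m k : ℕ} (hn : n = 4 * m + 1) (hk : k ≤ 2 * m) :
    EQ n 1 (tB 1 1 (2 * m - k)) (tB 1 1 k) := by
  rcases le_total k m with h | h
  · have := tB_mid hn (m - k) (by omega)
    have e1 : m + (m - k) = 2 * m - k := by omega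
    have e2 : m - (m - k) = k := by omega
    rwa [e1, e2] at this
  · have := (tB_mid hn (k - m) (by omega)).symm
    have e1 : m + (k - m) = k := by omega
    have e2 : m - (k - m) = 2 * m - k := by omega
    rwa [e1, e2] at this

theorem refl_ : S_REFL := by
  intro m n _ hn hm
  have key : EQ n 1 (2 * ∑ k ∈ range (2 * m + 1), tB 1 1 k * LL k)
      (LL (2 * m) * ∑ k ∈ range (2 * m + 1), tB 1 1 k) := by
    have h1 : ∑ k ∈ range (2 * m + 1), tB 1 1 (2 * m - k) * LL (2 * m - k) =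
        ∑ k ∈ range (2 * m + 1), tB 1 1 k * LL k := by
      have := Finset.sum_range_reflect (fun k => tB 1 1 k * LL k) (2 * m + 1)
      simpa using this
    have h2 : 2 * ∑ k ∈ range (2 * m + 1), tB 1 1 k * LL k =
        ∑ k ∈ range (2 * m + 1), (tB 1 1 k * LL k + tB 1 1 (2 * m - k) * LL (2 * m - k)) := by
      rw [sum_add_distrib, h1]; ring
    rw [h2, mul_sum]
    refine EQ.sum fun k hk => ?_
    have hk' : k ≤ 2 * m := by have := mem_range.1 hk; omega
    have mk := (tB_U hn hk').2.1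
    have ml := LL_mem hn hk'
    have h3 : EQ n 1 (tB 1 1 (2 * m - k) * LL (2 * m - k)) (tB 1 1 k * (LL (2 * m) - LL k)) := by
      refine (tB_refl hn hk').mul ?_
      have := (LL_refl hn k hk').sub (EQ.refl (n := n) (k := 1) ml)
      have e : LL (2 * m - k) + LL k - LL k = LL (2 * m - k) := by ring
      rwa [e] at this
    have h4 := (EQ.refl (n := n) (k := 1) (mul_mem mk ml)).add h3
    have e : tB 1 1 k * LL k + tB 1 1 k * (LL (2 * m) - LL k) = LL (2 * m) * tB 1 1 k := by ring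
    rwa [e] at h4
  have := key.2.2
  exact_mod_cast (J_nat_iff (m := 1)).2 this

end Pool.Agent.R618.SC
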