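import Pool.Agent.R618.SC.Defs

set_option autoImplicit false

/-!
Piece SC-B for MP_9a1728_nt (orders of the second sum), by helper980.
-/

namespace Pool.Agent.R618.SC

open Finset Polynomial Pool.Agent.R439

namespace TB

variable {d : ℕ} [NeZero d]

/-- coefficients in `O d` -/
def Cf (d : ℕ) [NeZero d] (p : K[X]) : Prop := ∀ i, p.coeff i ∈ O d

theorem Cf.mul {p r : K[X]} (hp : Cf d p) (hr : Cf d r) : Cf d (p * r) := by
  intro i
  rw [coeff_mul]
  exact sum_mem fun x _ => mul_mem (hp _) (hr _)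

theorem Cf.one : Cf d (1 : K[X]) := by
  intro i
  rw [coeff_one]
  split_ifs
  · exact one_mem _
  · exact zero_mem _

theorem Cf.X_pow (k : ℕ) : Cf d (X ^ k : K[X]) := by
  intro i
  rw [coeff_X_pow]
  split_ifs
  · exact one_mem _
  · exact zero_mem _

theorem Cf.prod {s : Finset ℕ} {f : ℕ → K[X]} (h : ∀ i ∈ s, Cf d (f i)) :
    Cf d (∏ i ∈ s, f i) := by
  classical
  induction s using Finset.induction_on with
  | empty => simpa using Cf.one
  | insert a s ha ih =>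
    rw [prod_insert ha]
    exact (h a (mem_insert_self _ _)).mul (ih fun i hi => h i (mem_insert_of_mem hi))

theorem Cf.sub {p r : K[X]} (hp : Cf d p) (hr : Cf d r) : Cf d (p - r) := by
  intro i
  rw [coeff_sub]
  exact sub_mem (hp _) (hr _)

theorem Cf.C {a : K} (ha : a ∈ O d) : Cf d (Polynomial.C a) := by
  intro i
  rw [coeff_C]
  split_ifs
  · exact ha
  · exact zero_mem _

theorem Cf.X : Cf d (Polynomial.X : K[X]) := by
  simpa using Cf.X_pow (d := d) 1

/-- the polynomials -/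
noncomputable def pp (n k : ℕ) : K[X] :=
  X ^ (n - 1 - k) *
    ∏ i ∈ range k, ((1 - X * C (q ^ (2 * i + 1))) * (X - C (q ^ (2 * i + 1))))

theorem pp_Cf (n k : ℕ) : Cf d (pp n k) :=
  (Cf.X_pow _).mul (Cf.prod fun i _ =>
    (Cf.one.sub (Cf.X.mul (Cf.C (pow_mem' _)))).mul (Cf.X.sub (Cf.C (pow_mem' _))))

/-- the coefficients -/
noncomputable def cc (k : ℕ) : K :=
  poch (q ^ 2) (q ^ 4) k /
    (poch (q ^ 2) (q ^ 2) k * poch (q ^ 2) (q ^ 2) k * poch (q ^ 4) (q ^ 4) k) * q ^ (2 * k)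

theorem eval_pp (n k : ℕ) (x : K) : (pp n k).eval x =
    x ^ (n - 1 - k) * ∏ i ∈ range k, ((1 - x * q ^ (2 * i + 1)) * (x - q ^ (2 * i + 1))) := by
  simp [pp, eval_prod]

theorem term (n k : ℕ) (hk : k < n) (x : K) (hx : x ≠ 0) :
    cc k * (pp n k).eval x = x ^ (n - 1) * tB x 1 k := by
  rw [eval_pp, tB, cc]
  have h : ∏ i ∈ range k, ((1 - x * q ^ (2 * i + 1)) * (x - q ^ (2 * i + 1))) =
      x ^ k * (poch (x * q) (q ^ 2) k * poch (q / x) (q ^ 2) k) := by
    have h1 : x ^ k = ∏ i ∈ range k, x := by simp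
    rw [poch, poch, h1, ← prod_mul_distrib, ← prod_mul_distrib]
    refine prod_congr rfl fun i _ => ?_
    field_simp
    ring
  have h2 : x ^ (n - 1) = x ^ (n - 1 - k) * x ^ k := by
    rw [← pow_add]; congr 1; omega
  rw [h, h2, one_mul, div_one]
  ring

theorem sum_eq (n : ℕ) (x : K) (hx : x ≠ 0) :
    ∑ k ∈ range n, cc k * (pp n k).eval x = x ^ (n - 1) * FB n x 1 := by
  rw [FB, mul_sum]
  exact sum_congr rfl fun k hk => term n k (mem_range.1 hk) x hx

theorem FB_inv (n : ℕ) (x b : K) : FB n x⁻¹ b = FB n x b := by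
  rw [FB, FB]
  refine sum_congr rfl fun k _ => ?_
  rw [tB, tB]
  have h1 : x⁻¹ * q = q / x := by rw [div_eq_mul_inv, mul_comm]
  have h2 : q / x⁻¹ = x * q := by rw [div_inv_eq_mul, mul_comm]
  rw [h1, h2]
  ring

theorem cop2b (hd : d % 2 = 1) : Nat.Coprime d 2 := by
  rw [Nat.coprime_comm, Nat.prime_two.coprime_iff_not_dvd]
  omega

theorem cop4b (hd : d % 2 = 1) : Nat.Coprime d 4 := by
  have := (cop2b hd).mul_right (cop2b hd)
  exact this

theorem E_24 (hd : d % 2 = 1) (k : ℕ) :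
    E d (((k + d - 1 - (d - 1) / 2) / d : ℕ) : ℤ) (poch (q ^ 2) (q ^ 4) k) := by
  have h := E_poch (d := d) (e := 2) (s := 4) (k := k) (i0 := (d - 1) / 2) (cop4b hd) (by omega)
    (by
      have : ((2 : ℤ) + ((4 : ℕ) : ℤ) * (((d - 1) / 2 : ℕ) : ℤ)) = (d : ℤ) * 2 := by omega
      rw [this]; exact dvd_mul_right _ _) (by intro i _; push_cast; omega)
  have e2 : (q : K) ^ (2 : ℤ) = q ^ 2 := by norm_cast
  rwa [e2] at h

theorem E_12 (hd : d % 2 = 1) (k : ℕ) :
    E d (((k + d - 1 - (d - 1) / 2) / d : ℕ) : ℤ) (poch q (q ^ 2) k) := by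
  have h := E_poch (d := d) (e := 1) (s := 2) (k := k) (i0 := (d - 1) / 2) (cop2b hd) (by omega)
    (by
      have : ((1 : ℤ) + ((2 : ℕ) : ℤ) * (((d - 1) / 2 : ℕ) : ℤ)) = (d : ℤ) * 1 := by omega
      rw [this]; exact dvd_mul_right _ _) (by intro i _; push_cast; omega)
  rwa [zpow_one] at h

theorem E_22 (hd : d % 2 = 1) (k : ℕ) :
    E d ((k / d : ℕ) : ℤ) (poch (q ^ 2) (q ^ 2) k) := by
  have h := E_poch (d := d) (e := 2) (s := 2) (k := k) (i0 := d - 1) (cop2b hd) (by omega)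
    (by
      have : ((2 : ℤ) + ((2 : ℕ) : ℤ) * ((d - 1 : ℕ) : ℤ)) = (d : ℤ) * 2 := by omega
      rw [this]; exact dvd_mul_right _ _) (by intro i _; push_cast; omega)
  have e2 : (q : K) ^ (2 : ℤ) = q ^ 2 := by norm_cast
  have e3 : k + d - 1 - (d - 1) = k := by omega
  rwa [e2, e3] at h

theorem E_44 (hd : d % 2 = 1) (k : ℕ) :
    E d ((k / d : ℕ) : ℤ) (poch (q ^ 4) (q ^ 4) k) := by
  have h := E_poch (d := d) (e := 4) (s := 4) (k := k) (i0 := d - 1) (cop4b hd) (by omega)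
    (by
      have : ((4 : ℤ) + ((4 : ℕ) : ℤ) * ((d - 1 : ℕ) : ℤ)) = (d : ℤ) * 4 := by omega
      rw [this]; exact dvd_mul_right _ _) (by intro i _; push_cast; omega)
  have e2 : (q : K) ^ (4 : ℤ) = q ^ 4 := by norm_cast
  have e3 : k + d - 1 - (d - 1) = k := by omega
  rwa [e2, e3] at h

theorem AB (hd : d % 2 = 1) (k : ℕ) : k / d ≤ (k + d - 1 - (d - 1) / 2) / d :=
  Nat.div_le_div_right (by omega)

theorem J_cc (hd : d % 2 = 1) {N k : ℕ} (hk : k < N * d) :
    J d (-2 * ((N : ℤ) - 1)) (cc k) := by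
  have h1 := ((E_24 hd k).div (((E_22 hd k).mul (E_22 hd k)).mul (E_44 hd k))).mul
    (E_qn (d := d) (2 * k))
  have h2 := h1.J
  rw [cc]
  refine h2.mono ?_
  have h3 := AB hd k
  have h4 : k / d < N := by
    rw [Nat.div_lt_iff_lt_mul (by omega)]; exact hk
  have h5 : ((k / d : ℕ) : ℤ) ≤ (((k + d - 1 - (d - 1) / 2) / d : ℕ) : ℤ) := by exact_mod_cast h3
  have h6 : ((k / d : ℕ) : ℤ) + 1 ≤ N := by exact_mod_cast h4
  linarith

theorem J_tB (hd : d % 2 = 1) (k : ℕ) : J d 0 (tB 1 1 k) := by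
  have h1 := ((((E_12 hd k).mul (E_12 hd k)).mul (E_24 hd k)).div
    (((E_22 hd k).mul (E_22 hd k)).mul (E_44 hd k))).mul (E_qn (d := d) (2 * k))
  have h2 := h1.J
  rw [tB, one_mul, one_mul, div_one, div_one]
  refine h2.mono ?_
  have h3 := AB hd k
  have h5 : ((k / d : ℕ) : ℤ) ≤ (((k + d - 1 - (d - 1) / 2) / d : ℕ) : ℤ) := by exact_mod_cast h3
  linarith

/-- the nodes -/
noncomputable def ZZb (N : ℕ) : Finset ℤ :=
  insert 0 ((range (2 * N)).image fun i : ℕ => 2 * (i : ℤ) - (2 * (N : ℤ) - 1))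

theorem card_ZZ (N : ℕ) : (ZZb N).card = 2 * N + 1 := by
  rw [ZZb, card_insert_of_notMem, card_image_of_injective, card_range]
  · intro a b h
    simp only at h
    omega
  · intro h
    rw [mem_image] at h
    obtain ⟨i, _, hi⟩ := h
    omega

theorem mem_ZZb {N : ℕ} {e : ℤ} (he : e ∈ ZZb N) (h0 : e ≠ 0) :
    ∃ t : ℕ, t % 2 = 1 ∧ t + 1 ≤ 2 * N ∧ (e = t ∨ e = -t) := by
  rw [ZZb, mem_insert, mem_image] at he
  rcases he with h | ⟨i, hi, rfl⟩
  · exact absurd h h0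
  · rw [mem_range] at hi
    rcases le_total N i with h | h
    · exact ⟨2 * i - (2 * N - 1), by omega, by omega, Or.inl (by omega)⟩
    · by_cases h' : i = N
      · exact ⟨1, by omega, by omega, Or.inl (by omega)⟩
      · exact ⟨2 * N - 1 - 2 * i, by omega, by omega, Or.inr (by omega)⟩

theorem node (h1 : S_WHI1) (h2 : S_WHI2) (h4 : S_ORD2) (hd : d % 4 = 3) {N t : ℕ}
    (ht : t % 2 = 1) (htN : t + 1 ≤ 2 * N) : J d 2 (FB (N * d) (q ^ (d * t)) 1) := by
  have hle : d * (t + 1) ≤ d * (2 * N) := Nat.mul_le_mul_left _ htN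
  have e1 : d * (t + 1) = d * t + d := by ring
  have e2 : d * (2 * N) = 2 * (N * d) := by ring
  rw [e1, e2] at hle
  have ht' : t % 4 = 1 ∨ t % 4 = 3 := by omega
  rcases ht' with ht' | ht'
  · have hm : (d * t) % 4 = 3 := by rw [Nat.mul_mod, hd, ht']
    have hm' : d * t = 4 * (d * t / 4) + 3 := by omega
    generalize d * t / 4 = m at hm'
    rw [hm', h2 m (N * d) (by omega)]
    exact J_zero
  · have hm : (d * t) % 4 = 1 := by rw [Nat.mul_mod, hd, ht']
    have hm' : d * t = 4 * (d * t / 4) + 1 := by omega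
    generalize d * t / 4 = m at hm'
    have hν : t = 4 * (t / 4) + 3 := by omega
    generalize t / 4 = ν at hν
    rw [hm', h1 1 m (N * d) one_ne_zero (fun i => ?_) (by omega)]
    · have h := h4.1 d ν m 0 hd (by rw [← hm', hν]; ring) (Or.inl rfl)
      rw [mul_zero, zpow_zero] at h
      exact h.J.mulL (pow_mem' _)
    · rw [one_mul]
      exact ⟨q_pow_ne_one (by omega), (q_pow_ne_one (by omega)).symm⟩

end TB

theorem tBB (h1 : S_WHI1) (h2 : S_WHI2) (h3 : S_INT) (h4 : S_ORD2) : S_B := by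
  refine ⟨fun d N _ hd hN => ?_, fun d N _ hd hd1 hN => ?_⟩
  · have hd2 : d % 2 = 1 := by omega
    have h := (h3 d (TB.ZZb N) (N * d) TB.cc (TB.pp (N * d)) (-2 * ((N : ℤ) - 1))
      (by rw [TB.ZZb]; exact mem_insert_self _ _) (fun k hk => TB.J_cc hd2 hk)
      (fun k _ => TB.pp_Cf _ k)).1
    have hκ : -2 * ((N : ℤ) - 1) + (((TB.ZZb N).card : ℤ) - 1) = 2 := by
      rw [TB.card_ZZ]; push_cast; ring
    rw [hκ] at h
    have h' := h (by
      intro e he he0
      rw [TB.sum_eq _ _ (zpow_ne_zero _ q_ne)]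
      refine J.mulL (pow_mem (zpow_mem _) _) ?_
      obtain ⟨t, ht, htN, hte⟩ := TB.mem_ZZb he he0
      have hn := TB.node h1 h2 h4 hd ht htN
      have e1 : q ^ ((d : ℤ) * (t : ℤ)) = q ^ (d * t) := by
        rw [← Nat.cast_mul, zpow_natCast]
      rcases hte with rfl | rfl
      · rwa [e1]
      · rwa [mul_neg, zpow_neg, e1, TB.FB_inv])
    rwa [TB.sum_eq _ _ one_ne_zero, one_pow, one_mul] at h'
  · rw [FB]
    exact J.sum fun k _ => TB.J_tB hd k

end Pool.Agent.R618.SC
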