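import Pool.Agent.R618.SC.Defs

set_option autoImplicit false

/-!
Piece WHI for MP_9a1728_nt: Andrews' q-analogue of Whipple's sum.
-/

namespace Pool.Agent.R618.SC

namespace WHI

open Finset Pool.Agent.R439

variable {F : Type*} [Field F]

theorem shift (a b : F) (k : ℕ) : poch (a * b) b k * (1 - a) = poch a b k * (1 - a * b ^ k) := by
  rw [← poch_succ, poch_succ', mul_comm]

theorem shift2 (a b : F) (k : ℕ) : poch (a * b ^ 2) b k * ((1 - a) * (1 - a * b)) =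
    poch a b k * ((1 - a * b ^ k) * (1 - a * b * b ^ k)) := by
  have h1 := shift a b k
  have h2 := shift (a * b) b k
  rw [show a * b * b = a * b ^ 2 by ring] at h2
  calc poch (a * b ^ 2) b k * ((1 - a) * (1 - a * b))
      = (poch (a * b ^ 2) b k * (1 - a * b)) * (1 - a) := by ring
    _ = (poch (a * b) b k * (1 - a)) * (1 - a * b * b ^ k) := by rw [h2]; ring
    _ = _ := by rw [h1]; ring

/-- the part of the summand without the parameter `N` -/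
def ww (r b : F) (k : ℕ) : F :=
  poch r (r ^ 2) k / (poch (b * r) r k * poch (r / b) r k * poch (r ^ 2) (r ^ 2) k) * r ^ k

theorem ww_succ (r b : F) (k : ℕ) (h1 : 1 - b * r ^ (k + 1) ≠ 0) (h2 : 1 - r ^ (k + 1) / b ≠ 0)
    (h3 : 1 - r ^ (2 * k + 2) ≠ 0) :
    ww r b (k + 1) * ((1 - b * r ^ (k + 1)) * (1 - r ^ (k + 1) / b) * (1 - r ^ (2 * k + 2))) =
      ww r b k * (1 - r ^ (2 * k + 1)) * r := by
  unfold ww
  simp only [poch_succ]
  have e1 : b * r * r ^ k = b * r ^ (k + 1) := by ring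
  have e2 : r / b * r ^ k = r ^ (k + 1) / b := by ring
  have e3 : r ^ 2 * (r ^ 2) ^ k = r ^ (2 * k + 2) := by ring
  have e4 : r * (r ^ 2) ^ k = r ^ (2 * k + 1) := by ring
  rw [e1, e2, e3, e4]
  set X := poch (b * r) r k
  set Y := poch (r / b) r k
  set Z := poch (r ^ 2) (r ^ 2) k
  set W := poch r (r ^ 2) k
  set p := 1 - b * r ^ (k + 1)
  set p2 := 1 - r ^ (k + 1) / b
  set p3 := 1 - r ^ (2 * k + 2)
  rw [pow_succ]
  by_cases hX : X * Y * Z = 0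
  · have : X * p * (Y * p2) * (Z * p3) = 0 := by
      calc _ = X * Y * Z * (p * p2 * p3) := by ring
        _ = 0 := by rw [hX, zero_mul]
    rw [this, hX]; simp
  · have hX1 : X ≠ 0 := fun h => hX (by rw [h]; ring)
    have hY1 : Y ≠ 0 := fun h => hX (by rw [h]; ring)
    have hZ1 : Z ≠ 0 := fun h => hX (by rw [h]; ring)
    field_simp
    ring

/-- the summand -/
def ss (r b u v : F) (k : ℕ) : F := poch u r k * poch v r k * ww r b k

/-- the certificate (without the constant) -/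
def HH (r b c d : F) (k : ℕ) : F := poch c r k * poch d r k * ww r b k *
  ((1 - b * r ^ k) * (1 - r ^ k / b) * (1 - (r ^ k) ^ 2) / r ^ k)

theorem HH_succ (r b c d : F) (hr : r ≠ 0) (k : ℕ) (h1 : 1 - b * r ^ (k + 1) ≠ 0)
    (h2 : 1 - r ^ (k + 1) / b ≠ 0) (h3 : 1 - r ^ (2 * k + 2) ≠ 0) :
    HH r b c d (k + 1) = poch c r k * poch d r k * ww r b k *
      ((1 - c * r ^ k) * (1 - d * r ^ k) * (1 - r * (r ^ k) ^ 2) / r ^ k) := by
  have h := ww_succ r b k h1 h2 h3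
  unfold HH
  rw [poch_succ, poch_succ]
  have e3 : (r ^ (k + 1)) ^ 2 = r ^ (2 * k + 2) := by ring
  have e4 : r * (r ^ k) ^ 2 = r ^ (2 * k + 1) := by ring
  rw [e3, e4]
  calc poch c r k * (1 - c * r ^ k) * (poch d r k * (1 - d * r ^ k)) * ww r b (k + 1) *
        ((1 - b * r ^ (k + 1)) * (1 - r ^ (k + 1) / b) * (1 - r ^ (2 * k + 2)) / r ^ (k + 1))
      = poch c r k * (1 - c * r ^ k) * (poch d r k * (1 - d * r ^ k)) * (ww r b (k + 1) *
        ((1 - b * r ^ (k + 1)) * (1 - r ^ (k + 1) / b) * (1 - r ^ (2 * k + 2)))) /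
          r ^ (k + 1) := by ring
    _ = _ := by
      rw [h, pow_succ]
      field_simp
      ring

theorem key_alg (r b c d x : F) (hr : r ≠ 0) (hb : b ≠ 0) (hd : d ≠ 0) (hx : x ≠ 0)
    (hc : c = (r * d)⁻¹) (h1 : 1 - d ≠ 0) (h2 : 1 - d * r ≠ 0) :
    (1 - b * (r * d)) * (1 - r * d / b) * ((1 - d * x) * (1 - d * r * x) / ((1 - d) * (1 - d * r))) -
      r * ((1 - b * d) * (1 - d / b)) * ((1 - c * x) * (1 - c * r * x) / ((1 - c) * (1 - c * r))) =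
    -(r * d * (1 - r * d ^ 2)) / ((1 - d) * (1 - d * r)) *
      ((1 - c * x) * (1 - d * x) * (1 - r * x ^ 2) / x -
        (1 - b * x) * (1 - x / b) * (1 - x ^ 2) / x) := by
  subst hc
  have h3 : r * d - 1 ≠ 0 := fun h => h2 (by linear_combination -h)
  have h4 : d - 1 ≠ 0 := fun h => h1 (by linear_combination -h)
  have e1 : 1 - (r * d)⁻¹ = (r * d - 1) / (r * d) := by field_simp
  have e2 : 1 - (r * d)⁻¹ * r = (d - 1) / d := by field_simp
  rw [e1, e2]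
  have e3 : 1 - d = -(d - 1) := by ring
  have e4 : 1 - d * r = -(r * d - 1) := by ring
  rw [e3, e4]
  field_simp
  ring

theorem key (r b c d : F) (hr : r ≠ 0) (hb : b ≠ 0) (hd : d ≠ 0)
    (hc : c = (r * d)⁻¹) (h1 : 1 - d ≠ 0) (h2 : 1 - d * r ≠ 0) (k : ℕ)
    (h3 : 1 - b * r ^ (k + 1) ≠ 0)
    (h4 : 1 - r ^ (k + 1) / b ≠ 0) (h5 : 1 - r ^ (2 * k + 2) ≠ 0) :
    (1 - b * (r * d)) * (1 - r * d / b) * ss r b c (d * r ^ 2) k -
      r * ((1 - b * d) * (1 - d / b)) * ss r b (c * r ^ 2) d k =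
    -(r * d * (1 - r * d ^ 2)) / ((1 - d) * (1 - d * r)) * (HH r b c d (k + 1) - HH r b c d k) := by
  have hx : r ^ k ≠ 0 := pow_ne_zero _ hr
  have h6 : r * d - 1 ≠ 0 := fun h => h2 (by linear_combination -h)
  have h7 : d - 1 ≠ 0 := fun h => h1 (by linear_combination -h)
  have hc1 : 1 - c ≠ 0 := by
    have e1 : 1 - (r * d)⁻¹ = (r * d - 1) / (r * d) := by field_simp
    rw [hc, e1]; exact div_ne_zero h6 (mul_ne_zero hr hd)
  have hc2 : 1 - c * r ≠ 0 := by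
    have e2 : 1 - (r * d)⁻¹ * r = (d - 1) / d := by field_simp
    rw [hc, e2]; exact div_ne_zero h7 hd
  have hd2 := shift2 d r k
  have hc3 := shift2 c r k
  rw [← eq_div_iff (mul_ne_zero h1 h2)] at hd2
  rw [← eq_div_iff (mul_ne_zero hc1 hc2)] at hc3
  rw [HH_succ r b c d hr k h3 h4 h5]
  unfold ss HH
  rw [hd2, hc3]
  have := key_alg r b c d (r ^ k) hr hb hd hx hc h1 h2
  linear_combination (poch c r k * poch d r k * ww r b k) * this

/-- the sum up to `M` -/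
def SS (r b : F) (N M : ℕ) : F := ∑ k ∈ range M, ss r b (r ^ N)⁻¹ (r ^ (N + 1)) k

theorem ss_zero (r b : F) (hr : r ≠ 0) (v : F) {N k : ℕ} (h : N < k) : ss r b (r ^ N)⁻¹ v k = 0 := by
  unfold ss
  rw [poch_eq_zero h (inv_mul_cancel₀ (pow_ne_zero _ hr)), zero_mul, zero_mul]

theorem SS_stable (r b : F) (hr : r ≠ 0) {N M : ℕ} (h : N < M) : SS r b N M = SS r b N (N + 1) := by
  unfold SS
  refine (sum_subset (range_mono h) fun k _ hk => ss_zero r b hr _ ?_).symm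
  simpa using hk

theorem SS_rec (r b : F) (hr : r ≠ 0) (hr1 : ∀ j : ℕ, 0 < j → r ^ j ≠ 1) (hb : b ≠ 0)
    (h1 : ∀ k : ℕ, b * r ^ (k + 1) ≠ 1) (h2 : ∀ k : ℕ, b ≠ r ^ (k + 1)) {N M : ℕ} (hM : N + 2 < M) :
    (1 - b * r ^ (N + 2)) * (1 - r ^ (N + 2) / b) * SS r b (N + 2) M =
      r * ((1 - b * r ^ (N + 1)) * (1 - r ^ (N + 1) / b)) * SS r b N M := by
  have hd : r ^ (N + 1) ≠ 0 := pow_ne_zero _ hr
  have hc : (r ^ (N + 2))⁻¹ = (r * r ^ (N + 1))⁻¹ := by rw [← pow_succ']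
  have e1 : 1 - r ^ (N + 1) ≠ 0 := sub_ne_zero.2 (Ne.symm (hr1 _ (by omega)))
  have e2 : 1 - r ^ (N + 1) * r ≠ 0 := by
    rw [← pow_succ]; exact sub_ne_zero.2 (Ne.symm (hr1 _ (by omega)))
  have hk : ∀ k ∈ range M, _ := fun k _ => key r b (r ^ (N + 2))⁻¹ (r ^ (N + 1)) hr hb hd hc e1 e2 k
    (sub_ne_zero.2 (Ne.symm (h1 k)))
    (sub_ne_zero.2 (fun h => h2 k (by rw [eq_comm, div_eq_one_iff_eq hb] at h; exact h.symm)))
    (sub_ne_zero.2 (Ne.symm (hr1 _ (by omega))))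
  have hs := sum_congr rfl hk
  rw [← mul_sum, sum_range_sub, sum_sub_distrib, ← mul_sum, ← mul_sum] at hs
  have hH0 : HH r b (r ^ (N + 2))⁻¹ (r ^ (N + 1)) 0 = 0 := by
    unfold HH; simp
  have hHM : HH r b (r ^ (N + 2))⁻¹ (r ^ (N + 1)) M = 0 := by
    unfold HH
    rw [poch_eq_zero hM (inv_mul_cancel₀ (pow_ne_zero _ hr))]
    ring
  rw [hH0, hHM, sub_zero, mul_zero] at hs
  have ee1 : r ^ (N + 1) * r ^ 2 = r ^ (N + 2 + 1) := by ring
  have ee2 : (r ^ (N + 2))⁻¹ * r ^ 2 = (r ^ N)⁻¹ := by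
    rw [pow_add]
    field_simp
  have ee3 : r * r ^ (N + 1) = r ^ (N + 2) := by ring
  rw [ee1, ee2, ee3] at hs
  unfold SS
  exact sub_eq_zero.1 hs

end WHI

open Finset Pool.Agent.R439

theorem FB_eq (b : K) (N n : ℕ) : FB n (q ^ (2 * N + 1)) b = WHI.SS (q ^ 2) b N n := by
  unfold FB WHI.SS
  refine sum_congr rfl fun k _ => ?_
  unfold tB WHI.ss WHI.ww
  have e1 : q ^ (2 * N + 1) * q = (q ^ 2) ^ (N + 1) := by ring
  have e2 : q / q ^ (2 * N + 1) = ((q ^ 2) ^ N)⁻¹ := by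
    have := q_ne
    rw [pow_succ, ← pow_mul]
    field_simp
  have e3 : q ^ 4 = (q ^ 2) ^ 2 := by ring
  have e4 : q ^ (2 * k) = (q ^ 2) ^ k := by ring
  rw [e1, e2, e3, e4]
  ring

theorem gg_succ (b : K) (m : ℕ) : gg b (m + 1) = gg b m *
    ((1 - b * (q ^ 2) ^ (2 * m + 1)) * (1 - (q ^ 2) ^ (2 * m + 1) / b) /
      ((1 - b * (q ^ 2) ^ (2 * m + 2)) * (1 - (q ^ 2) ^ (2 * m + 2) / b))) := by
  unfold gg
  simp only [poch_succ]
  have e1 : b * q ^ 2 * (q ^ 4) ^ m = b * (q ^ 2) ^ (2 * m + 1) := by ring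
  have e2 : q ^ 2 / b * (q ^ 4) ^ m = (q ^ 2) ^ (2 * m + 1) / b := by ring
  have e3 : b * q ^ 4 * (q ^ 4) ^ m = b * (q ^ 2) ^ (2 * m + 2) := by ring
  have e4 : q ^ 4 / b * (q ^ 4) ^ m = (q ^ 2) ^ (2 * m + 2) / b := by ring
  rw [e1, e2, e3, e4, div_mul_div_comm]
  congr 1 <;> ring

theorem q2_ne_one (j : ℕ) (hj : 0 < j) : (q ^ 2) ^ j ≠ 1 := by
  rw [← pow_mul]; exact q_pow_ne_one (by omega)

theorem whi1 : S_WHI1 := by
  intro b m n hb hb2 hn
  have h1 : ∀ k : ℕ, b * (q ^ 2) ^ (k + 1) ≠ 1 := fun k => by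
    have := (hb2 k).1; rwa [← pow_mul, show 2 * (k + 1) = 2 * k + 2 by ring]
  have h2 : ∀ k : ℕ, b ≠ (q ^ 2) ^ (k + 1) := fun k => by
    have := (hb2 k).2; rwa [← pow_mul, show 2 * (k + 1) = 2 * k + 2 by ring]
  have hr : (q : K) ^ 2 ≠ 0 := pow_ne_zero _ q_ne
  have key : ∀ m : ℕ, WHI.SS (q ^ 2) b (2 * m) (2 * m + 1) = (q ^ 2) ^ m * gg b m := by
    intro m
    induction m with
    | zero =>
      simp [WHI.SS, WHI.ss, WHI.ww, gg, poch]
    | succ m ih =>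
      have h3 := WHI.SS_rec (q ^ 2) b hr q2_ne_one hb h1 h2 (N := 2 * m) (M := 2 * m + 2 + 1)
        (by omega)
      rw [WHI.SS_stable (q ^ 2) b hr (N := 2 * m) (by omega), ih] at h3
      have e1 : 1 - b * (q ^ 2) ^ (2 * m + 2) ≠ 0 := sub_ne_zero.2 (Ne.symm (h1 (2 * m + 1)))
      have e2 : 1 - (q ^ 2) ^ (2 * m + 2) / b ≠ 0 := sub_ne_zero.2 (fun h => h2 (2 * m + 1) (by
        rw [eq_comm, div_eq_one_iff_eq hb] at h; exact h.symm))
      have e3 : 2 * (m + 1) = 2 * m + 2 := by ring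
      rw [e3, gg_succ]
      refine mul_left_cancel₀ (mul_ne_zero e1 e2) ?_
      rw [h3]
      generalize 1 - (q ^ 2) ^ (2 * m + 2) / b = t1 at *
      generalize 1 - b * (q ^ 2) ^ (2 * m + 2) = t2 at *
      field_simp
      ring
  rw [show 4 * m + 1 = 2 * (2 * m) + 1 by ring, FB_eq, WHI.SS_stable _ _ hr hn, key]
  rw [← pow_mul]

theorem whi2 : S_WHI2 := by
  intro m n hn
  have h1 : ∀ k : ℕ, (1 : K) * (q ^ 2) ^ (k + 1) ≠ 1 := fun k => by
    rw [one_mul]; exact q2_ne_one _ (by omega)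
  have h2 : ∀ k : ℕ, (1 : K) ≠ (q ^ 2) ^ (k + 1) := fun k => Ne.symm (q2_ne_one _ (by omega))
  have hr : (q : K) ^ 2 ≠ 0 := pow_ne_zero _ q_ne
  have key : ∀ m : ℕ, WHI.SS (q ^ 2) 1 (2 * m + 1) (2 * m + 1 + 1) = 0 := by
    intro m
    induction m with
    | zero =>
      have h3 : (1 : K) - q ^ 2 ≠ 0 := sub_ne_zero.2 (by simpa using h2 0)
      have h4 : (1 : K) - q ^ 4 ≠ 0 := by
        have := sub_ne_zero.2 (h2 1)
        rwa [← pow_mul] at this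
      have h5 : (q : K) ≠ 0 := q_ne
      simp only [WHI.SS, WHI.ss, WHI.ww, poch, sum_range_succ, prod_range_succ, sum_range_zero,
        prod_range_zero, mul_zero, zero_add, pow_zero, pow_one, mul_one, one_mul, div_one]
      have e1 : 1 - (q ^ 2)⁻¹ = -(1 - q ^ 2) / q ^ 2 := by field_simp; ring
      have e2 : 1 - (q ^ 2) ^ 2 = 1 - q ^ 4 := by ring
      rw [e1]
      simp only [← pow_mul] at *
      norm_num at *
      field_simp
      ring
    | succ m ih =>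
      have h3 := WHI.SS_rec (q ^ 2) 1 hr q2_ne_one one_ne_zero h1 h2 (N := 2 * m + 1)
        (M := 2 * m + 1 + 2 + 1) (by omega)
      rw [WHI.SS_stable (q ^ 2) 1 hr (N := 2 * m + 1) (by omega), ih, mul_zero] at h3
      have e1 : 1 - (1 : K) * (q ^ 2) ^ (2 * m + 1 + 2) ≠ 0 := sub_ne_zero.2 (Ne.symm (h1 _))
      have e2 : 1 - (q ^ 2) ^ (2 * m + 1 + 2) / (1 : K) ≠ 0 := by
        rw [div_one]; exact sub_ne_zero.2 (h2 _)
      have e3 : 2 * (m + 1) + 1 = 2 * m + 1 + 2 := by ring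
      rw [e3]
      exact (mul_eq_zero.1 h3).resolve_left (mul_ne_zero e1 e2)
  rw [show 4 * m + 3 = 2 * (2 * m + 1) + 1 by ring, FB_eq, WHI.SS_stable _ _ hr hn, key]

end Pool.Agent.R618.SC

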